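import Pool.Agent.Lib.MP_6babc4_nt.AvgCount

/-!
# TF/C1: the abstract counting lemma
-/

open NumberField Module UniqueFactorizationMonoid FreyAvg

namespace FreyTor

variable {K : Type*} [Field K] [NumberField K]

open Classical in
/-- Let `D` be a function on the algebraic integers, taking each value at most `r` times on
`Box H`, with values of polynomially bounded conjugates, and `S` a set of elements `t` of `Box H`
with `D t ≠ 0` such that the product of the norms of the primes dividing `D t` but not `J` is at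
most `R`. Then `S` has at most `C R H ^ ε` elements. -/
theorem count_abs {ε : ℝ} (hε : 0 < ε) (r : ℕ) (A₀ : ℝ) (k₀ : ℕ) :
    ∃ C : ℝ, 0 < C ∧ ∀ H : ℝ, 1 ≤ H → ∀ J : 𝓞 K, J ≠ 0 → J ∈ FreyAvg.Box K (A₀ * H ^ k₀) →
      ∀ D : 𝓞 K → 𝓞 K, (∀ t ∈ FreyAvg.Box K H, D t ∈ FreyAvg.Box K (A₀ * H ^ k₀)) →
      (∀ e : 𝓞 K, ∀ S : Finset (𝓞 K), (∀ t ∈ S, D t = e) → S.card ≤ r) →
      ∀ R : ℝ, 1 ≤ R → ∀ S : Finset (𝓞 K),
      (∀ t ∈ S, t ∈ FreyAvg.Box K H ∧ D t ≠ 0 ∧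
        (∏ p ∈ FreyAvg.pr (Ideal.span {D t}) \ FreyAvg.pr (Ideal.span {J}),
          ((Ideal.absNorm p : ℕ) : ℝ)) ≤ R) →
      (S.card : ℝ) ≤ C * R * H ^ ε := by
  set d := finrank ℚ K with hd
  have hd0 : 0 < d := finrank_pos' (K := K)
  set A : ℝ := max A₀ 1 with hA
  have hA1 : 1 ≤ A := le_max_right _ _
  have hA0 : A₀ ≤ A := le_max_left _ _
  set δ : ℝ := ε / ((k₀ + 1) * (2 * d + 1)) with hδ
  have hδ0 : 0 < δ := by positivity
  obtain ⟨C₂, hC₂, hgen⟩ := gen_count (K := K) hδ0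
  obtain ⟨C₃, hC₃, hid⟩ := ideal_count (K := K) hδ0
  refine ⟨((r : ℝ) + 1) * (C₂ * A ^ δ) * (C₃ * (A ^ d) ^ δ * (A ^ d) ^ δ), by positivity, ?_⟩
  intro H hH Jel hJ0 hJbox E hbox hfib R hR S hS
  have hH0 : 0 < H := by linarith
  have hHB : 1 ≤ H ^ k₀ := one_le_pow₀ hH
  set Y : ℝ := A * H ^ k₀ with hY
  have hY1 : 1 ≤ Y := by nlinarith
  have hle : A₀ * H ^ k₀ ≤ Y := by rw [hY]; gcongr
  have hJnorm := absNorm_le_of_box (box_mono hle hJbox)
  have hfib1 : ∀ e, (S.filter (fun t => E t = e)).card ≤ r := by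
    intro e
    exact hfib e _ fun t ht => (Finset.mem_filter.mp ht).2
  have hcard1 := Finset.card_le_mul_card_image S r (f := E) (fun e _ => hfib1 e)
  set SE := S.image E with hSE
  let F : 𝓞 K → Ideal (𝓞 K) := fun e => Ideal.span {e}
  have hSEmem : ∀ e ∈ SE, e ≠ 0 ∧ e ∈ Box K Y := by
    intro e he
    obtain ⟨t, ht, rfl⟩ := Finset.mem_image.mp he
    exact ⟨(hS t ht).2.1, box_mono hle (hbox t (hS t ht).1)⟩
  have hfib2 : ∀ I ∈ SE.image F, ((SE.filter (fun e => F e = I)).card : ℝ) ≤ C₂ * Y ^ δ := by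
    intro I _
    have h := hgen Y hY1 I
    refine le_trans ?_ h
    have h1 : ((SE.filter (fun e => F e = I) : Finset (𝓞 K)) : Set (𝓞 K)) ⊆
        {α : 𝓞 K | α ≠ 0 ∧ Ideal.span {α} = I ∧ α ∈ Box K Y} := by
      intro e he
      obtain ⟨he1, he2⟩ := Finset.mem_filter.mp he
      exact ⟨(hSEmem e he1).1, he2, (hSEmem e he1).2⟩
    have h2 := Set.ncard_le_ncard h1 ((box_finite Y).subset fun α h => h.2.2)
    rw [Set.ncard_coe_finset] at h2
    exact_mod_cast h2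
  have hcard2 : (SE.card : ℝ) ≤ ((SE.image F).card : ℝ) * (C₂ * Y ^ δ) := by
    have h := Finset.card_eq_sum_card_image F SE
    calc (SE.card : ℝ) = ∑ I ∈ SE.image F, ((SE.filter (fun e => F e = I)).card : ℝ) := by
          exact_mod_cast h
      _ ≤ ∑ _I ∈ SE.image F, C₂ * Y ^ δ := Finset.sum_le_sum hfib2
      _ = ((SE.image F).card : ℝ) * (C₂ * Y ^ δ) := by rw [Finset.sum_const, nsmul_eq_mul]
  have hYd1 : 1 ≤ Y ^ d := one_le_pow₀ hY1
  have hcard3 := hid (Y ^ d) hYd1 R hR (Ideal.span {Jel})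
    (by rwa [Ne, Ideal.zero_eq_bot, Ideal.span_singleton_eq_bot]) (SE.image F) (by
      intro I hI
      obtain ⟨e, he, rfl⟩ := Finset.mem_image.mp hI
      refine ⟨?_, absNorm_le_of_box (hSEmem e he).2, ?_⟩
      · rw [Ne, Ideal.zero_eq_bot, Ideal.span_singleton_eq_bot]
        exact (hSEmem e he).1
      · obtain ⟨t, ht, rfl⟩ := Finset.mem_image.mp he
        exact (hS t ht).2.2)
  -- the exponents
  have hY' : Y ^ δ = A ^ δ * H ^ ((k₀ : ℝ) * δ) := by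
    rw [hY, Real.mul_rpow (by positivity) (by positivity), ← Real.rpow_natCast H,
      ← Real.rpow_mul hH0.le]
  have hYd : (Y ^ d) ^ δ = (A ^ d) ^ δ * H ^ (((k₀ * d : ℕ) : ℝ) * δ) := by
    rw [hY, mul_pow, ← pow_mul, Real.mul_rpow (by positivity) (by positivity),
      ← Real.rpow_natCast H, ← Real.rpow_mul hH0.le]
  have hJn : ((Ideal.absNorm (Ideal.span {Jel}) : ℕ) : ℝ) ^ δ ≤
      (A ^ d) ^ δ * H ^ (((k₀ * d : ℕ) : ℝ) * δ) := by
    refine (Real.rpow_le_rpow (by positivity) hJnorm hδ0.le).trans (le_of_eq ?_)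
    rw [← hYd]
  have hexp : H ^ ((k₀ : ℝ) * δ) * (H ^ (((k₀ * d : ℕ) : ℝ) * δ) *
      H ^ (((k₀ * d : ℕ) : ℝ) * δ)) ≤ H ^ ε := by
    rw [← Real.rpow_add hH0, ← Real.rpow_add hH0]
    apply Real.rpow_le_rpow_of_exponent_le hH
    have h3 : ε = ((k₀ + 1) * (2 * d + 1)) * δ := by
      rw [hδ]
      field_simp
    rw [h3, ← add_mul, ← add_mul]
    apply mul_le_mul_of_nonneg_right _ hδ0.le
    push_cast
    have hdd : (0 : ℝ) ≤ d := by positivity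
    have hBB : (0 : ℝ) ≤ k₀ := by positivity
    nlinarith [mul_nonneg hdd hBB]
  calc (S.card : ℝ) ≤ (r : ℝ) * (SE.card : ℝ) := by exact_mod_cast hcard1
    _ ≤ ((r : ℝ) + 1) * (SE.card : ℝ) := by
        have : (0 : ℝ) ≤ SE.card := by positivity
        nlinarith
    _ ≤ ((r : ℝ) + 1) * (((SE.image F).card : ℝ) * (C₂ * Y ^ δ)) := by gcongr
    _ ≤ ((r : ℝ) + 1) * ((C₃ * ((Ideal.absNorm (Ideal.span {Jel}) : ℕ) : ℝ) ^ δ * R *
          (Y ^ d) ^ δ) * (C₂ * Y ^ δ)) := by gcongr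
    _ ≤ ((r : ℝ) + 1) * ((C₃ * ((A ^ d) ^ δ * H ^ (((k₀ * d : ℕ) : ℝ) * δ)) * R *
          ((A ^ d) ^ δ * H ^ (((k₀ * d : ℕ) : ℝ) * δ))) *
          (C₂ * (A ^ δ * H ^ ((k₀ : ℝ) * δ)))) := by
        rw [hYd, hY']
        gcongr
    _ = ((r : ℝ) + 1) * (C₂ * A ^ δ) * (C₃ * (A ^ d) ^ δ * (A ^ d) ^ δ) * R *
          (H ^ ((k₀ : ℝ) * δ) * (H ^ (((k₀ * d : ℕ) : ℝ) * δ) *
            H ^ (((k₀ * d : ℕ) : ℝ) * δ))) := by ring
    _ ≤ ((r : ℝ) + 1) * (C₂ * A ^ δ) * (C₃ * (A ^ d) ^ δ * (A ^ d) ^ δ) * R * H ^ ε := by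
        refine mul_le_mul_of_nonneg_left hexp ?_
        positivity

end FreyTor
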