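import Pool.Agent.Lib.MP_6babc4_nt.TF.Defs

/-!
# TF/J0: the universal polynomial and its critical point (definitions, all proved)

`I = A \ {(0, 0)}`, `R = ℤ[X_u : u ∈ I]`. In the second copy of `R` the variables of `(1, 0)` and
`(0, 1)` are the coordinates `x, y` of a point, the other variables are the coefficients of the
monomials of degree `≥ 2`, and the coefficients of `x` and `y` are chosen such that the point is
critical.
-/

open MvPolynomial

namespace FreyTor

variable (A : Finset (ℕ × ℕ))

/-- The non constant exponents. -/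
abbrev Idx : Type := {u // u ∈ A.erase (0, 0)}

/-- The ring of the coefficients (without the constant one). -/
abbrev Rg : Type := MvPolynomial (Idx A) ℤ

variable {A}

/-- The exponent `(1, 0)`. -/
def i10 (h10 : (1, 0) ∈ A) : Idx A := ⟨(1, 0), by simp [h10]⟩

/-- The exponent `(0, 1)`. -/
def i01 (h01 : (0, 1) ∈ A) : Idx A := ⟨(0, 1), by simp [h01]⟩

variable (A) in
/-- The coefficients of the part of degree `≥ 2` of the universal polynomial. -/
noncomputable def gco : A → Rg A := fun w =>
  if h : w.1 = (0, 0) ∨ w.1 = (1, 0) ∨ w.1 = (0, 1) then 0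
  else X ⟨w.1, Finset.mem_erase.mpr ⟨fun h' => h (Or.inl h'), w.2⟩⟩

/-- The coefficients, as functions of the critical point `(x, y)` and the other coefficients. -/
noncomputable def cco (h10 : (1, 0) ∈ A) (h01 : (0, 1) ∈ A) : Idx A → Rg A := fun u =>
  if u = i10 h10 then -dx (gco A) (X (i10 h10)) (X (i01 h01))
  else if u = i01 h01 then -dy (gco A) (X (i10 h10)) (X (i01 h01)) else X u

/-- The homomorphism `φ : R → R'`. -/
noncomputable def phi (h10 : (1, 0) ∈ A) (h01 : (0, 1) ∈ A) : Rg A →+* Rg A :=
  (aeval (cco h10 h01)).toRingHom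

end FreyTor
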