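import Pool.Agent.Lib.MP_6babc4_nt.AvgCount
import Pool.Agent.Lib.MP_6babc4_nt.TF.J0

/-!
# Values of integral polynomials on boxes
-/

open NumberField Module FreyAvg

namespace FreyTor

variable {K : Type*} [Field K] [NumberField K]

lemma C2_box_pow {H : ℝ} {a : 𝓞 K} (ha : a ∈ Box K H) (n : ℕ) : a ^ n ∈ Box K (H ^ n) := by
  intro σ
  rw [map_pow, map_pow, norm_pow]
  exact pow_le_pow_left₀ (norm_nonneg _) (ha σ) n

lemma C2_box_intCast (n : ℤ) : (n : 𝓞 K) ∈ Box K |(n : ℝ)| := by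
  intro σ
  rw [map_intCast, map_intCast, Complex.norm_intCast]

lemma C2_box_neg {H : ℝ} {a : 𝓞 K} (ha : a ∈ Box K H) : -a ∈ Box K H := by
  intro σ
  rw [map_neg, map_neg, norm_neg]
  exact ha σ

lemma C2_box_sum {α : Type*} (s : Finset α) (f : α → 𝓞 K) (B : α → ℝ)
    (h : ∀ i ∈ s, f i ∈ Box K (B i)) : ∑ i ∈ s, f i ∈ Box K (∑ i ∈ s, B i) := by
  intro σ
  rw [map_sum, map_sum]
  exact (norm_sum_le _ _).trans (Finset.sum_le_sum fun i hi => h i hi σ)

lemma C2_box_prod {α : Type*} (s : Finset α) (f : α → 𝓞 K) (B : α → ℝ)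
    (h : ∀ i ∈ s, f i ∈ Box K (B i)) : ∏ i ∈ s, f i ∈ Box K (∏ i ∈ s, B i) := by
  intro σ
  rw [map_prod, map_prod, norm_prod]
  exact Finset.prod_le_prod (fun _ _ => norm_nonneg _) fun i hi => h i hi σ

/-- The values of an integral polynomial on `Box H` are polynomially bounded. -/
theorem C2_aux {ι : Type*} (q : MvPolynomial ι ℤ) : ∃ C : ℝ, 0 < C ∧ ∀ H : ℝ, 1 ≤ H →
    ∀ a : ι → 𝓞 K, (∀ i, a i ∈ Box K H) →
      MvPolynomial.eval₂ (Int.castRingHom (𝓞 K)) a q ∈ Box K (C * H ^ q.totalDegree) := by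
  refine ⟨∑ s ∈ q.support, |((q.coeff s : ℤ) : ℝ)| + 1, by positivity, ?_⟩
  intro H hH a ha
  rw [MvPolynomial.eval₂_eq]
  have h1 := C2_box_sum (K := K) q.support
    (fun s => (Int.castRingHom (𝓞 K)) (q.coeff s) * ∏ i ∈ s.support, a i ^ s i)
    (fun s => |((q.coeff s : ℤ) : ℝ)| * H ^ q.totalDegree) (by
      intro s hs
      have h2 := C2_box_intCast (K := K) (q.coeff s)
      have h3 := C2_box_prod (K := K) s.support (fun i => a i ^ s i) (fun i => H ^ s i)
        (fun i _ => C2_box_pow (ha i) _)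
      have h4 := box_mul_mem h2 h3
      rw [eq_intCast]
      refine box_mono ?_ h4
      refine mul_le_mul_of_nonneg_left ?_ (abs_nonneg _)
      rw [Finset.prod_pow_eq_pow_sum]
      exact pow_le_pow_right₀ hH (MvPolynomial.le_totalDegree hs))
  refine box_mono ?_ h1
  rw [← Finset.sum_mul]
  gcongr
  linarith

theorem eval_box {I : Type*} (q : MvPolynomial I ℤ) : ∃ (C : ℝ) (k : ℕ), 0 < C ∧
    ∀ H : ℝ, 1 ≤ H → ∀ b : I → 𝓞 K, (∀ i, b i ∈ FreyAvg.Box K H) →
      MvPolynomial.eval₂ (Int.castRingHom (𝓞 K)) b q ∈ FreyAvg.Box K (C * H ^ k) := by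
  obtain ⟨C, hC, h⟩ := C2_aux (K := K) q
  exact ⟨C, q.totalDegree, hC, h⟩

theorem evalP_box {I : Type*} (P : Polynomial (MvPolynomial I ℤ)) : ∃ (C : ℝ) (k : ℕ), 0 < C ∧
    ∀ H : ℝ, 1 ≤ H → ∀ b : I → 𝓞 K, (∀ i, b i ∈ FreyAvg.Box K H) → ∀ t ∈ FreyAvg.Box K H,
      (P.map (MvPolynomial.eval₂Hom (Int.castRingHom (𝓞 K)) b)).eval (-t) ∈
        FreyAvg.Box K (C * H ^ k) := by
  have h := fun i => C2_aux (K := K) (P.coeff i)
  choose C hC0 hC using h
  refine ⟨∑ i ∈ Finset.range (P.natDegree + 1), C i + 1,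
    ∑ i ∈ Finset.range (P.natDegree + 1), ((P.coeff i).totalDegree + i), by
      have : 0 ≤ ∑ i ∈ Finset.range (P.natDegree + 1), C i :=
        Finset.sum_nonneg fun i _ => (hC0 i).le
      positivity, ?_⟩
  intro H hH a ha t ht
  rw [Polynomial.eval_eq_sum_range' (n := P.natDegree + 1)
    (Nat.lt_succ_of_le (Polynomial.natDegree_map_le))]
  set k := ∑ i ∈ Finset.range (P.natDegree + 1), ((P.coeff i).totalDegree + i) with hk
  have h1 := C2_box_sum (K := K) (Finset.range (P.natDegree + 1))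
    (fun i => (P.map (MvPolynomial.eval₂Hom (Int.castRingHom (𝓞 K)) a)).coeff i *
      (-t) ^ i) (fun i => C i * H ^ k) (by
      intro i hi
      rw [Polynomial.coeff_map]
      have h2 := box_mul_mem (hC i H hH a ha) (C2_box_pow (C2_box_neg ht) i)
      refine box_mono ?_ h2
      rw [mul_assoc, ← pow_add]
      have h3 : (P.coeff i).totalDegree + i ≤ k :=
        Finset.single_le_sum (f := fun i => (P.coeff i).totalDegree + i)
          (fun _ _ => Nat.zero_le _) hi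
      exact mul_le_mul_of_nonneg_left (pow_le_pow_right₀ hH h3) (hC0 i).le)
  refine box_mono ?_ h1
  rw [← Finset.sum_mul]
  gcongr
  linarith

end FreyTor
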