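import Pool.Agent.Lib.MP_6babc4_nt.AvgCount

/-!
# The Schwartz-Zippel lemma for boxes of algebraic integers
-/

open NumberField Module

namespace FreyTor

open Classical in
/-- Schwartz-Zippel over a domain containing the integers, any finite set of variables. -/
theorem C3_domain {ι R : Type*} [Fintype ι] [DecidableEq ι] [CommRing R] [IsDomain R] (q : MvPolynomial ι R)
    (hq : q ≠ 0) (S : ι → Finset R) {s : ℝ} (hs : 0 < s) (hS : ∀ i, s ≤ ((S i).card : ℝ)) :
    (((Fintype.piFinset S).filter (fun a => MvPolynomial.eval a q = 0)).card : ℝ) ≤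
      (∑ i, (q.degreeOf i : ℝ)) / s * ∏ i, ((S i).card : ℝ) := by
  let n := Fintype.card ι
  let e : ι ≃ Fin n := Fintype.equivFin ι
  have hp : MvPolynomial.rename e q ≠ 0 := by
    intro h
    apply hq
    exact MvPolynomial.rename_injective _ e.injective (by rw [h, map_zero])
  have h := MvPolynomial.schwartz_zippel_sum_degreeOf hp (fun j => S (e.symm j))
  have hcard : ((Fintype.piFinset fun j : Fin n => S (e.symm j)).filter
      (fun x => MvPolynomial.eval x (MvPolynomial.rename e q) = 0)).card =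
      ((Fintype.piFinset S).filter (fun a => MvPolynomial.eval a q = 0)).card := by
    refine Finset.card_bij' (fun x _ => x ∘ e) (fun a _ => a ∘ e.symm) ?_ ?_ ?_ ?_
    · intro x hx
      obtain ⟨h1, h2⟩ := Finset.mem_filter.mp hx
      rw [Fintype.mem_piFinset] at h1
      rw [Finset.mem_filter, Fintype.mem_piFinset]
      refine ⟨fun i => ?_, ?_⟩
      · have := h1 (e i)
        simpa using this
      · rw [MvPolynomial.eval_rename] at h2
        exact h2
    · intro a ha
      obtain ⟨h1, h2⟩ := Finset.mem_filter.mp ha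
      rw [Fintype.mem_piFinset] at h1
      rw [Finset.mem_filter, Fintype.mem_piFinset]
      refine ⟨fun j => h1 (e.symm j), ?_⟩
      rw [MvPolynomial.eval_rename]
      have : (a ∘ e.symm) ∘ e = a := by
        ext i
        simp
      rw [this]
      exact h2
    · intro x _
      ext j
      simp
    · intro a _
      ext i
      simp
  rw [hcard] at h
  have hprod : ∏ j : Fin n, ((S (e.symm j)).card : ℚ≥0) = ∏ i, ((S i).card : ℚ≥0) :=
    Equiv.prod_comp e.symm (fun i => ((S i).card : ℚ≥0))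
  rw [hprod] at h
  have hpos : ∀ i, 0 < (S i).card := by
    intro i
    have := hS i
    have h2 : (0 : ℝ) < (S i).card := by linarith
    exact_mod_cast h2
  have hP0 : (0 : ℚ≥0) < ∏ i, ((S i).card : ℚ≥0) :=
    Finset.prod_pos fun i _ => by exact_mod_cast hpos i
  rw [div_le_iff₀ hP0] at h
  have h' : ((((Fintype.piFinset S).filter (fun a => MvPolynomial.eval a q = 0)).card : ℚ≥0) : ℝ)
      ≤ (((∑ j : Fin n, (((MvPolynomial.rename e q).degreeOf j : ℚ≥0) /
        ((S (e.symm j)).card : ℚ≥0))) * ∏ i, ((S i).card : ℚ≥0) : ℚ≥0) : ℝ) := by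
    exact_mod_cast h
  push_cast at h'
  refine h'.trans ?_
  have hP0' : (0 : ℝ) ≤ ∏ i, ((S i).card : ℝ) := Finset.prod_nonneg fun _ _ => Nat.cast_nonneg _
  refine mul_le_mul_of_nonneg_right ?_ hP0'
  rw [Finset.sum_div]
  have hsum : ∑ i, (q.degreeOf i : ℝ) / s = ∑ j : Fin n, (q.degreeOf (e.symm j) : ℝ) / s :=
    (Equiv.sum_comp e.symm (fun i => (q.degreeOf i : ℝ) / s)).symm
  rw [hsum]
  refine Finset.sum_le_sum fun j _ => ?_
  have h1 : (MvPolynomial.rename e q).degreeOf j = q.degreeOf (e.symm j) := by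
    have := MvPolynomial.degreeOf_rename_of_injective (p := q) e.injective (e.symm j)
    rwa [Equiv.apply_symm_apply] at this
  rw [h1]
  have := hS (e.symm j)
  gcongr

open Classical in
/-- Schwartz-Zippel for an integral polynomial and boxes of algebraic integers. -/
theorem zeros_le {K : Type*} [Field K] [NumberField K] {I : Type*} [Fintype I]
    (q : MvPolynomial I ℤ) (hq : q ≠ 0) :
    ∃ C : ℝ, 0 < C ∧ ∀ (S : I → Finset (𝓞 K)) (s : ℝ), 0 < s → (∀ i, s ≤ ((S i).card : ℝ)) →
      (((Fintype.piFinset S).filter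
        (fun b => MvPolynomial.eval₂ (Int.castRingHom (𝓞 K)) b q = 0)).card : ℝ) ≤
        C / s * ∏ i, ((S i).card : ℝ) := by
  refine ⟨∑ i, (q.degreeOf i : ℝ) + 1, by positivity, ?_⟩
  intro S s hs hS
  have hinj : Function.Injective (algebraMap ℤ (𝓞 K)) := (algebraMap ℤ (𝓞 K)).injective_int
  have hq' : MvPolynomial.map (algebraMap ℤ (𝓞 K)) q ≠ 0 := by
    intro h
    apply hq
    exact MvPolynomial.map_injective _ hinj (by rw [h, map_zero])
  have h := C3_domain (MvPolynomial.map (algebraMap ℤ (𝓞 K)) q) hq' S hs hS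
  have h1 : ∀ a : I → 𝓞 K, MvPolynomial.eval a (MvPolynomial.map (algebraMap ℤ (𝓞 K)) q) =
      MvPolynomial.eval₂ (Int.castRingHom (𝓞 K)) a q := by
    intro a
    rw [MvPolynomial.eval_map]
    rfl
  simp only [h1] at h
  refine h.trans ?_
  have hP0' : (0 : ℝ) ≤ ∏ i, ((S i).card : ℝ) := Finset.prod_nonneg fun _ _ => Nat.cast_nonneg _
  refine mul_le_mul_of_nonneg_right ?_ hP0'
  refine div_le_div_of_nonneg_right ?_ hs.le
  refine le_trans (Finset.sum_le_sum (g := fun i => (q.degreeOf i : ℝ)) fun i _ => ?_)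
    (by linarith)
  have h2 : (MvPolynomial.map (algebraMap ℤ (𝓞 K)) q).degreeOf i ≤ q.degreeOf i := by
    rw [MvPolynomial.degreeOf_le_iff]
    intro m hm
    exact MvPolynomial.monomial_le_degreeOf i (MvPolynomial.support_map_subset _ _ hm)
  exact_mod_cast h2

end FreyTor
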