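import Pool.Agent.Lib.MP_6babc4_nt.TF.C3

/-!
# From pencils to boxes
-/

open NumberField Module
open scoped Classical

namespace FreyTor

variable {K : Type*} [Field K] [NumberField K]

/-- If in each pencil outside the zeros of `q` at most `E` elements are bad, then the total number
of bad elements of the box is at most `(E + C_q |S₀| / s) ∏ |S_i|`. -/
theorem C4 {ι : Type*} [Fintype ι] [DecidableEq ι] (q : MvPolynomial ι ℤ) (hq : q ≠ 0)
    (S₀ : Finset (𝓞 K))
    (S : ι → Finset (𝓞 K)) {s E : ℝ} (hs : 0 < s) (hS : ∀ i, s ≤ ((S i).card : ℝ))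
    (hE : 0 ≤ E) (Bad : 𝓞 K → (ι → 𝓞 K) → Prop)
    (hbad : ∀ a ∈ Fintype.piFinset S, MvPolynomial.aeval a q ≠ 0 →
      ((S₀.filter (fun t => Bad t a)).card : ℝ) ≤ E) :
    (((S₀ ×ˢ Fintype.piFinset S).filter (fun x => Bad x.1 x.2)).card : ℝ) ≤
      (E + (∑ i, (q.degreeOf i : ℝ)) / s * (S₀.card : ℝ)) * ∏ i, ((S i).card : ℝ) := by
  set T := Fintype.piFinset S with hT
  have hTcard : (T.card : ℝ) = ∏ i, ((S i).card : ℝ) := by
    rw [hT, Fintype.card_piFinset]
    push_cast
    rfl
  set W := (S₀ ×ˢ T).filter (fun x => Bad x.1 x.2) with hW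
  have hmaps : ∀ x ∈ W, x.2 ∈ T := by
    intro x hx
    exact (Finset.mem_product.mp (Finset.mem_filter.mp hx).1).2
  have hsum : (W.card : ℝ) = ∑ a ∈ T, ((W.filter (fun x => x.2 = a)).card : ℝ) := by
    exact_mod_cast Finset.card_eq_sum_card_fiberwise hmaps
  have hfib : ∀ a ∈ T, ((W.filter (fun x => x.2 = a)).card : ℝ) ≤
      ((S₀.filter (fun t => Bad t a)).card : ℝ) := by
    intro a _
    have : (W.filter (fun x => x.2 = a)).card ≤ (S₀.filter (fun t => Bad t a)).card := by
      refine Finset.card_le_card_of_injOn (fun x => x.1) ?_ ?_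
      · intro x hx
        rw [Finset.mem_coe, Finset.mem_filter, hW, Finset.mem_filter, Finset.mem_product] at hx
        rw [Finset.mem_coe, Finset.mem_filter]
        obtain ⟨⟨⟨h1, h2⟩, h3⟩, h4⟩ := hx
        rw [← h4]
        exact ⟨h1, h3⟩
      · intro x hx y hy hxy
        rw [Finset.mem_coe, Finset.mem_filter] at hx hy
        exact Prod.ext hxy (hx.2.trans hy.2.symm)
    exact_mod_cast this
  have hsplit := Finset.sum_filter_add_sum_filter_not T (fun a => MvPolynomial.aeval a q = 0)
    (fun a => ((W.filter (fun x => x.2 = a)).card : ℝ))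
  have h3 := C3 (K := K) q hq S hs hS
  have hs1 : ∑ a ∈ T.filter (fun a => MvPolynomial.aeval a q = 0),
      ((W.filter (fun x => x.2 = a)).card : ℝ) ≤
      (∑ i, (q.degreeOf i : ℝ)) / s * (∏ i, ((S i).card : ℝ)) * (S₀.card : ℝ) := by
    calc _ ≤ ∑ _a ∈ T.filter (fun a => MvPolynomial.aeval a q = 0), (S₀.card : ℝ) := by
          refine Finset.sum_le_sum fun a ha => ?_
          refine (hfib a (Finset.mem_filter.mp ha).1).trans ?_
          exact_mod_cast Finset.card_filter_le _ _
      _ = ((T.filter (fun a => MvPolynomial.aeval a q = 0)).card : ℝ) * (S₀.card : ℝ) := by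
          rw [Finset.sum_const, nsmul_eq_mul]
      _ ≤ _ := by gcongr
  have hs2 : ∑ a ∈ T.filter (fun a => ¬ MvPolynomial.aeval a q = 0),
      ((W.filter (fun x => x.2 = a)).card : ℝ) ≤ E * ∏ i, ((S i).card : ℝ) := by
    calc _ ≤ ∑ _a ∈ T.filter (fun a => ¬ MvPolynomial.aeval a q = 0), E := by
          refine Finset.sum_le_sum fun a ha => ?_
          obtain ⟨h1, h2⟩ := Finset.mem_filter.mp ha
          exact (hfib a h1).trans (hbad a h1 h2)
      _ = ((T.filter (fun a => ¬ MvPolynomial.aeval a q = 0)).card : ℝ) * E := by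
          rw [Finset.sum_const, nsmul_eq_mul]
      _ ≤ (T.card : ℝ) * E := by
          have := Finset.card_filter_le T (fun a => ¬ MvPolynomial.aeval a q = 0)
          gcongr
      _ = _ := by rw [hTcard, mul_comm]
  rw [hsum, ← hsplit]
  refine (add_le_add hs1 hs2).trans (le_of_eq ?_)
  ring

/-- The same for functions on a finite set with a distinguished element `z`. -/
theorem C4' {A : Type*} [Fintype A] [DecidableEq A] (z : A)
    (q : MvPolynomial {u : A // u ≠ z} ℤ) (hq : q ≠ 0)
    (S : A → Finset (𝓞 K)) {s E : ℝ} (hs : 0 < s) (hS : ∀ i, s ≤ ((S i).card : ℝ))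
    (hE : 0 ≤ E) (Bad : (A → 𝓞 K) → Prop)
    (hbad : ∀ a ∈ Fintype.piFinset S,
      MvPolynomial.aeval (fun u : {u : A // u ≠ z} => a u) q ≠ 0 →
      (((S z).filter (fun t => Bad (Function.update a z t))).card : ℝ) ≤ E) :
    (((Fintype.piFinset S).filter Bad).card : ℝ) ≤
      (E / ((S z).card : ℝ) + (∑ i, (q.degreeOf i : ℝ)) / s) * ∏ i, ((S i).card : ℝ) := by
  have hpos : ∀ i, (0 : ℝ) < (S i).card := fun i => lt_of_lt_of_le hs (hS i)
  let ext : 𝓞 K → ({u : A // u ≠ z} → 𝓞 K) → (A → 𝓞 K) := fun t b u =>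
    if h : u = z then t else b ⟨u, h⟩
  have hext_upd : ∀ (a : A → 𝓞 K) (t : 𝓞 K),
      ext t (fun u : {u : A // u ≠ z} => a u) = Function.update a z t := by
    intro a t
    ext u
    by_cases h : u = z
    · subst h
      simp [ext]
    · simp [ext, h]
  have hmain := C4 (K := K) q hq (S z) (fun u : {u : A // u ≠ z} => S u) hs (fun i => hS i) hE
    (fun t b => Bad (ext t b)) (by
      intro b hb hqb
      obtain ⟨t₀, ht₀⟩ : (S z).Nonempty := by
        rw [← Finset.card_pos]
        exact_mod_cast hpos z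
      have h1 := hbad (ext t₀ b) (by
        rw [Fintype.mem_piFinset] at hb ⊢
        intro u
        by_cases h : u = z
        · subst h
          simpa [ext] using ht₀
        · simpa [ext, h] using hb ⟨u, h⟩) (by
        have : (fun u : {u : A // u ≠ z} => ext t₀ b u) = b := by
          ext u
          simp [ext, u.2]
        rw [this]
        exact hqb)
      have h2 : ∀ t, Function.update (ext t₀ b) z t = ext t b := by
        intro t
        ext u
        by_cases h : u = z
        · subst h
          simp [ext]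
        · simp [ext, h]
      simpa only [h2] using h1)
  have hcard : ((Fintype.piFinset S).filter Bad).card ≤
      ((S z ×ˢ Fintype.piFinset (fun u : {u : A // u ≠ z} => S u)).filter
        (fun x => Bad (ext x.1 x.2))).card := by
    refine Finset.card_le_card_of_injOn
      (fun a => (a z, fun u : {u : A // u ≠ z} => a u)) ?_ ?_
    · intro a ha
      rw [Finset.mem_coe, Finset.mem_filter, Fintype.mem_piFinset] at ha
      rw [Finset.mem_coe, Finset.mem_filter, Finset.mem_product, Fintype.mem_piFinset]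
      refine ⟨⟨ha.1 z, fun u => ha.1 u⟩, ?_⟩
      simp only
      rw [hext_upd, Function.update_eq_self]
      exact ha.2
    · intro a _ a' _ h
      obtain ⟨h1, h2⟩ := Prod.ext_iff.mp h
      ext u
      by_cases hu : u = z
      · subst hu
        exact congrArg _ h1
      · exact congrArg _ (congrFun h2 ⟨u, hu⟩)
  have hprod : ∏ i, ((S i).card : ℝ) =
      ((S z).card : ℝ) * ∏ u : {u : A // u ≠ z}, ((S u).card : ℝ) := by
    rw [← Finset.mul_prod_erase Finset.univ (fun i => ((S i).card : ℝ)) (Finset.mem_univ z)]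
    congr 1
    refine Finset.prod_subtype _ (fun u => ?_) (fun i => ((S i).card : ℝ))
    rw [Finset.mem_erase]
    exact ⟨fun h => h.1, fun h => ⟨h, Finset.mem_univ _⟩⟩
  calc (((Fintype.piFinset S).filter Bad).card : ℝ) ≤ _ := Nat.cast_le.mpr hcard
    _ ≤ _ := hmain
    _ = _ := by
      rw [hprod]
      have h := (hpos z).ne'
      have key : ∀ x D P : ℝ, x ≠ 0 → (E + D * x) * P = (E / x + D) * (x * P) := by
        intro x D P hx
        field_simp
      exact key _ _ _ h

end FreyTor
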