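import Pool.Agent.Lib.MP_6babc4_nt.TF.C1
import Pool.Agent.Lib.MP_6babc4_nt.TF.C2
import Pool.Agent.Lib.MP_6babc4_nt.TF.C3

/-!
# TF/CA: the counting lemmas `count_abs`, `eval_box`, `evalP_box`, `zeros_le`
-/
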