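import Pool.Agent.Lib.MP_6babc4_nt.TF.U1
import Pool.Agent.Lib.MP_6babc4_nt.AvgIdeals

/-!
# TF/D1: the product of the nodal places, and the values of `D(t) = P_b(-t)`

(All proved.) `CritPoly h P` is the conclusion of `universal` (for fields in the universe of `K`).

PROOFS. Let `v` be a finite place, `k = 𝓞 K / v` (a field in the universe `u` of `K`),
`b̄ = b mod v`. Note `dx (pencil b t) x y = dx (pencil b 0) x y`, the same for `dy`, `hess`, and
`val (pencil b t) x y = t + val (pencil b 0) x y`.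
`nodal_of_dvd`: `D(t) ∈ v` says that `-t̄` is a root of `spec P b̄`; `h(b) ∉ v`; the second part of
`CritPoly` gives a point over `AlgebraicClosure k`; take `φ : 𝓞 K → k → AlgebraicClosure k`.
`dvd_of_nodal`: let `(k, φ, x, y)` be as in `Nodal`. By the first part of `CritPoly` for the field
`k` and `φ ∘ b`, `val (pencil (φ ∘ b) 0) x y = -φ t` is a root of `spec P (φ ∘ b)`, so
`φ (D(t)) = 0` and `D(t) ∈ ker φ = v`.
`prod_le`: as `FreyAvg.prod_le_nodalConductor` (file AvgNodal): the set of nodal places is finite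
(they contain `D(t) ≠ 0`), every `p ∈ pr (D t) \ pr (h b)` is the ideal of a nodal place.
-/

open MvPolynomial NumberField IsDedekindDomain

namespace FreyTor

universe u

variable {A : Finset (ℕ × ℕ)}

/-- The conclusion of `universal`. -/
def CritPoly (A : Finset (ℕ × ℕ)) (h : Rg A) (P : Polynomial (Rg A)) : Prop :=
  h ≠ 0 ∧ 0 < P.natDegree ∧
      (∀ (k : Type u) [Field k] (b : Idx A → k) (x y : k), dx (pencil (A := A) b 0) x y = 0 →
        dy (pencil (A := A) b 0) x y = 0 → (spec P b).IsRoot (val (pencil (A := A) b 0) x y)) ∧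
      ∀ (k : Type u) [Field k] (b : Idx A → k), eval₂ (Int.castRingHom k) b h ≠ 0 →
        eval₂ (Int.castRingHom k) b P.leadingCoeff ≠ 0 ∧
        ∀ z : k, (spec P b).IsRoot z → ∃ x y : AlgebraicClosure k, x ≠ 0 ∧ y ≠ 0 ∧
          val (pencil (A := A) (fun u => algebraMap k (AlgebraicClosure k) (b u)) 0) x y =
            algebraMap k (AlgebraicClosure k) z ∧
          dx (pencil (A := A) (fun u => algebraMap k (AlgebraicClosure k) (b u)) 0) x y = 0 ∧
          dy (pencil (A := A) (fun u => algebraMap k (AlgebraicClosure k) (b u)) 0) x y = 0 ∧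
          hess (pencil (A := A) (fun u => algebraMap k (AlgebraicClosure k) (b u)) 0) x y ≠ 0

variable {K : Type u} [Field K] [NumberField K]

/-- `D(t) = P_b(-t)`. -/
noncomputable def Dval (P : Polynomial (Rg A)) (b : Idx A → 𝓞 K) (t : 𝓞 K) : 𝓞 K :=
  (spec P b).eval (-t)

section Pencil

variable {R : Type*} [CommRing R]

lemma D1_dx (b : Idx A → R) (s t x y : R) :
    dx (pencil (A := A) b t) x y = dx (pencil (A := A) b s) x y := by
  refine Finset.sum_congr rfl fun w _ => ?_
  by_cases h : w.1 = (0, 0)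
  · simp [h]
  · simp [pencil, h]

lemma D1_dy (b : Idx A → R) (s t x y : R) :
    dy (pencil (A := A) b t) x y = dy (pencil (A := A) b s) x y := by
  refine Finset.sum_congr rfl fun w _ => ?_
  by_cases h : w.1 = (0, 0)
  · simp [h]
  · simp [pencil, h]

lemma D1_dxx (b : Idx A → R) (s t x y : R) :
    dxx (pencil (A := A) b t) x y = dxx (pencil (A := A) b s) x y := by
  refine Finset.sum_congr rfl fun w _ => ?_
  by_cases h : w.1 = (0, 0)
  · simp [h]
  · simp [pencil, h]

lemma D1_dxy (b : Idx A → R) (s t x y : R) :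
    dxy (pencil (A := A) b t) x y = dxy (pencil (A := A) b s) x y := by
  refine Finset.sum_congr rfl fun w _ => ?_
  by_cases h : w.1 = (0, 0)
  · simp [h]
  · simp [pencil, h]

lemma D1_dyy (b : Idx A → R) (s t x y : R) :
    dyy (pencil (A := A) b t) x y = dyy (pencil (A := A) b s) x y := by
  refine Finset.sum_congr rfl fun w _ => ?_
  by_cases h : w.1 = (0, 0)
  · simp [h]
  · simp [pencil, h]

lemma D1_hess (b : Idx A → R) (s t x y : R) :
    hess (pencil (A := A) b t) x y = hess (pencil (A := A) b s) x y := by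
  rw [hess, hess, D1_dxx b s t, D1_dxy b s t, D1_dyy b s t]

lemma D1_val (h00 : (0, 0) ∈ A) (b : Idx A → R) (t x y : R) :
    val (pencil (A := A) b t) x y = t + val (pencil (A := A) b 0) x y := by
  have h : val (pencil (A := A) b t) x y - val (pencil (A := A) b 0) x y = t := by
    rw [val, val, ← Finset.sum_sub_distrib, Finset.sum_eq_single (⟨(0, 0), h00⟩ : A)]
    · simp [pencil]
    · intro w _ hw
      have hw' : w.1 ≠ (0, 0) := fun h => hw (Subtype.ext h)
      simp [pencil, hw']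
    · intro h
      exact absurd (Finset.mem_univ _) h
  linear_combination h

omit [CommRing R] in
lemma D1_comp {S : Type*} (f : R → S) (b : Idx A → R) (t : R) :
    (fun w => f (pencil (A := A) b t w)) = pencil (A := A) (fun u => f (b u)) (f t) := by
  funext w
  by_cases h : w.1 = (0, 0)
  · simp [pencil, h]
  · simp [pencil, h]

lemma D1_eval₂ {S : Type*} [CommRing S] (f : R →+* S) (b : Idx A → R) (q : Rg A) :
    f (eval₂ (Int.castRingHom R) b q) = eval₂ (Int.castRingHom S) (fun u => f (b u)) q := by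
  rw [eval₂_comp_left]
  congr 1
  exact RingHom.ext_int _ _

lemma D1_spec {S : Type*} [CommRing S] (f : R →+* S) (b : Idx A → R) (P : Polynomial (Rg A)) :
    (spec P b).map f = spec P (fun u => f (b u)) := by
  rw [spec, spec, Polynomial.map_map]
  congr 1
  ext q
  · simp
  · simp

lemma D1_eval {S : Type*} [CommRing S] (f : R →+* S) (b : Idx A → R) (P : Polynomial (Rg A))
    (z : R) : (spec P (fun u => f (b u))).eval (f z) = f ((spec P b).eval z) := by
  rw [← D1_spec, Polynomial.eval_map, Polynomial.eval₂_hom]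

end Pencil

theorem nodal_of_dvd {h : Rg A} {P : Polynomial (Rg A)} (hP : CritPoly.{u} A h P)
    (h00 : (0, 0) ∈ A) (b : Idx A → 𝓞 K) (t : 𝓞 K) (v : HeightOneSpectrum (𝓞 K))
    (h1 : eval₂ (Int.castRingHom (𝓞 K)) b h ∉ v.asIdeal) (h2 : Dval P b t ∈ v.asIdeal) :
    Nodal (A := A) (pencil b t) v := by
  have hmax : v.asIdeal.IsMaximal := v.isMaximal
  let _ : Field (𝓞 K ⧸ v.asIdeal) := Ideal.Quotient.field v.asIdeal
  set π : 𝓞 K →+* 𝓞 K ⧸ v.asIdeal := Ideal.Quotient.mk v.asIdeal with hπ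
  have hh : eval₂ (Int.castRingHom (𝓞 K ⧸ v.asIdeal)) (fun u => π (b u)) h ≠ 0 := by
    rw [← D1_eval₂ π b h, hπ, Ne, Ideal.Quotient.eq_zero_iff_mem]
    exact h1
  have hroot : (spec P (fun u => π (b u))).IsRoot (-π t) := by
    rw [Polynomial.IsRoot.def, ← map_neg, D1_eval, hπ, Ideal.Quotient.eq_zero_iff_mem]
    exact h2
  obtain ⟨x, y, hx, hy, hval, hdx, hdy, hhess⟩ :=
    (hP.2.2.2 (𝓞 K ⧸ v.asIdeal) (fun u => π (b u)) hh).2 _ hroot
  set ι := algebraMap (𝓞 K ⧸ v.asIdeal) (AlgebraicClosure (𝓞 K ⧸ v.asIdeal)) with hι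
  refine ⟨AlgebraicClosure (𝓞 K ⧸ v.asIdeal), inferInstance, ι.comp π, x, y, ?_, hx, hy, ?_, ?_,
    ?_, ?_⟩
  · rw [RingHom.ker_comp_of_injective _ ι.injective, hπ, Ideal.mk_ker]
  · rw [D1_comp (fun z => (ι.comp π) z), D1_val h00]
    rw [map_neg] at hval
    change ι (π t) + _ = 0
    rw [show (fun u => (ι.comp π) (b u)) = fun u => ι (π (b u)) from rfl, hval]
    ring
  · rw [D1_comp (fun z => (ι.comp π) z), D1_dx _ 0]
    exact hdx
  · rw [D1_comp (fun z => (ι.comp π) z), D1_dy _ 0]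
    exact hdy
  · rw [D1_comp (fun z => (ι.comp π) z), D1_hess _ 0]
    exact hhess

theorem dvd_of_nodal {h : Rg A} {P : Polynomial (Rg A)} (hP : CritPoly.{u} A h P)
    (h00 : (0, 0) ∈ A) (b : Idx A → 𝓞 K) (t : 𝓞 K) (v : HeightOneSpectrum (𝓞 K))
    (h1 : Nodal (A := A) (pencil b t) v) : Dval P b t ∈ v.asIdeal := by
  obtain ⟨k, _, φ, x, y, hker, -, -, hval, hdx, hdy, -⟩ := h1
  rw [D1_comp (fun z => φ z)] at hval hdx hdy
  rw [D1_dx _ 0] at hdx
  rw [D1_dy _ 0] at hdy
  rw [D1_val h00] at hval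
  have hroot := hP.2.2.1 k (fun u => φ (b u)) x y hdx hdy
  have hv : val (pencil (A := A) (fun u => φ (b u)) 0) x y = φ (-t) := by
    rw [map_neg]
    linear_combination hval
  rw [hv, Polynomial.IsRoot.def, D1_eval] at hroot
  rw [← hker, RingHom.mem_ker]
  exact hroot

open Classical in
theorem prod_le {h : Rg A} {P : Polynomial (Rg A)} (hP : CritPoly.{u} A h P)
    (h00 : (0, 0) ∈ A) (b : Idx A → 𝓞 K) (t : 𝓞 K)
    (hh : eval₂ (Int.castRingHom (𝓞 K)) b h ≠ 0) (hD : Dval P b t ≠ 0) :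
    ∏ p ∈ FreyAvg.pr (Ideal.span {Dval P b t}) \
        FreyAvg.pr (Ideal.span {eval₂ (Int.castRingHom (𝓞 K)) b h}), Ideal.absNorm p ≤
      nodalConductor (A := A) (pencil b t) := by
  have hmem : ∀ v : HeightOneSpectrum (𝓞 K), Nodal (A := A) (pencil b t) v →
      v.asIdeal ∈ FreyAvg.pr (Ideal.span {Dval P b t}) := by
    intro v hv
    rw [FreyAvg.mem_pr_iff (by rwa [Ne, Ideal.zero_eq_bot, Ideal.span_singleton_eq_bot])]
    exact ⟨v.isPrime, (Ideal.span_singleton_le_iff_mem _).mpr (dvd_of_nodal hP h00 b t v hv)⟩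
  have hfin : {v : HeightOneSpectrum (𝓞 K) | Nodal (A := A) (pencil b t) v}.Finite := by
    refine Set.Finite.of_finite_image (f := HeightOneSpectrum.asIdeal)
      ((Finset.finite_toSet (FreyAvg.pr (Ideal.span {Dval P b t}))).subset ?_)
      (fun v _ w _ h => HeightOneSpectrum.ext h)
    rintro _ ⟨v, hv, rfl⟩
    exact hmem v hv
  have h1 : nodalConductor (A := A) (pencil b t) =
      ∏ v ∈ hfin.toFinset, Ideal.absNorm v.asIdeal := by
    rw [nodalConductor]
    exact finprod_mem_eq_finite_toFinset_prod (fun v : HeightOneSpectrum (𝓞 K) =>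
      Ideal.absNorm v.asIdeal) hfin
  have h2 : ∏ v ∈ hfin.toFinset, Ideal.absNorm v.asIdeal =
      ∏ p ∈ hfin.toFinset.image HeightOneSpectrum.asIdeal, Ideal.absNorm p := by
    rw [Finset.prod_image]
    intro v _ w _ h
    exact HeightOneSpectrum.ext h
  rw [h1, h2]
  refine Finset.prod_le_prod_of_subset_of_one_le' ?_ ?_
  · intro p hp
    rw [Finset.mem_sdiff, FreyAvg.mem_pr_iff (by
      rwa [Ne, Ideal.zero_eq_bot, Ideal.span_singleton_eq_bot]), FreyAvg.mem_pr_iff (by
      rwa [Ne, Ideal.zero_eq_bot, Ideal.span_singleton_eq_bot])] at hp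
    obtain ⟨⟨hprime, hle⟩, hnot⟩ := hp
    rw [Ideal.span_singleton_le_iff_mem] at hle
    have hbot : p ≠ ⊥ := by
      rintro rfl
      exact hD (by simpa using hle)
    have hnot' : eval₂ (Int.castRingHom (𝓞 K)) b h ∉ p := by
      intro h
      exact hnot ⟨hprime, (Ideal.span_singleton_le_iff_mem _).mpr h⟩
    let v : HeightOneSpectrum (𝓞 K) := ⟨p, hprime, hbot⟩
    rw [Finset.mem_image]
    refine ⟨v, ?_, rfl⟩
    rw [Set.Finite.mem_toFinset]
    exact nodal_of_dvd hP h00 b t v hnot' hle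
  · intro p hp _
    obtain ⟨v, -, rfl⟩ := Finset.mem_image.mp hp
    have : Ideal.absNorm v.asIdeal ≠ 0 := by
      rw [Ne, Ideal.absNorm_eq_zero_iff]
      exact v.ne_bot
    omega

/-- Every value is taken at most `natDegree P` times. -/
theorem Dval_fibre {h : Rg A} {P : Polynomial (Rg A)} (hP : CritPoly.{u} A h P)
    (b : Idx A → 𝓞 K) (hh : eval₂ (Int.castRingHom (𝓞 K)) b h ≠ 0) (e : 𝓞 K)
    (S : Finset (𝓞 K)) (hS : ∀ t ∈ S, Dval P b t = e) : S.card ≤ P.natDegree := by
  classical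
  -- the leading coefficient does not vanish
  set ι := algebraMap (𝓞 K) K with hι
  have hinj : Function.Injective ι := FaithfulSMul.algebraMap_injective (𝓞 K) K
  have hhK : eval₂ (Int.castRingHom K) (fun u => ι (b u)) h ≠ 0 := by
    rw [← D1_eval₂ ι b h]
    exact (map_ne_zero_iff ι hinj).mpr hh
  have hlc := (hP.2.2.2 K (fun u => ι (b u)) hhK).1
  rw [← D1_eval₂ ι b] at hlc
  have hlc' : eval₂ (Int.castRingHom (𝓞 K)) b P.leadingCoeff ≠ 0 := fun h0 => hlc (by
    rw [h0, map_zero])
  have hcoeff : (spec P b).coeff P.natDegree = eval₂ (Int.castRingHom (𝓞 K)) b P.leadingCoeff := by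
    rw [spec, Polynomial.coeff_map]
    rfl
  have hdeg : (spec P b).natDegree = P.natDegree := by
    refine le_antisymm Polynomial.natDegree_map_le ?_
    refine Polynomial.le_natDegree_of_ne_zero ?_
    rw [hcoeff]
    exact hlc'
  set Q : Polynomial (𝓞 K) := spec P b - Polynomial.C e with hQ
  have hQdeg : Q.natDegree = P.natDegree := by
    rw [hQ, Polynomial.natDegree_sub_C, hdeg]
  have hQ0 : Q ≠ 0 := by
    intro h0
    rw [h0, Polynomial.natDegree_zero] at hQdeg
    have := hP.2.1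
    omega
  have hsub : S.image (fun t => -t) ⊆ Q.roots.toFinset := by
    intro z hz
    obtain ⟨t, ht, rfl⟩ := Finset.mem_image.mp hz
    rw [Multiset.mem_toFinset, Polynomial.mem_roots hQ0, Polynomial.IsRoot.def, hQ,
      Polynomial.eval_sub, Polynomial.eval_C, sub_eq_zero]
    exact hS t ht
  calc S.card = (S.image (fun t => -t)).card :=
        (Finset.card_image_of_injective S neg_injective).symm
    _ ≤ Q.roots.toFinset.card := Finset.card_le_card hsub
    _ ≤ Multiset.card Q.roots := Multiset.toFinset_card_le _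
    _ ≤ Q.natDegree := Polynomial.card_roots' Q
    _ = P.natDegree := hQdeg

end FreyTor
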