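import Mathlib
import Pool.Agent.Lib.MP_6babc4_nt.AvgDefs

/-!
# Frey's inequality for almost all curves in toric families: definitions

`A` is a finite set of exponents `(i, j)`, and the coefficient vector `a : A → R` stands for the
polynomial `F(x, y) = ∑_{(i, j) ∈ A} a_{ij} x^i y^j`.
-/

open NumberField MeasureTheory IsDedekindDomain

namespace FreyTor

universe u

section Poly

variable {R : Type*} [CommRing R] {A : Finset (ℕ × ℕ)}

/-- The value `F(x, y)`. -/
def val (a : A → R) (x y : R) : R := ∑ w : A, a w * x ^ w.1.1 * y ^ w.1.2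

/-- The partial derivative `F_x(x, y)`. -/
def dx (a : A → R) (x y : R) : R := ∑ w : A, a w * ((w.1.1 : R) * x ^ (w.1.1 - 1)) * y ^ w.1.2

/-- The partial derivative `F_y(x, y)`. -/
def dy (a : A → R) (x y : R) : R := ∑ w : A, a w * x ^ w.1.1 * ((w.1.2 : R) * y ^ (w.1.2 - 1))

/-- The partial derivative `F_xx(x, y)`. -/
def dxx (a : A → R) (x y : R) : R :=
  ∑ w : A, a w * ((w.1.1 : R) * ((w.1.1 - 1 : ℕ) : R) * x ^ (w.1.1 - 2)) * y ^ w.1.2

/-- The partial derivative `F_xy(x, y)`. -/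
def dxy (a : A → R) (x y : R) : R :=
  ∑ w : A, a w * ((w.1.1 : R) * x ^ (w.1.1 - 1)) * ((w.1.2 : R) * y ^ (w.1.2 - 1))

/-- The partial derivative `F_yy(x, y)`. -/
def dyy (a : A → R) (x y : R) : R :=
  ∑ w : A, a w * x ^ w.1.1 * ((w.1.2 : R) * ((w.1.2 - 1 : ℕ) : R) * y ^ (w.1.2 - 2))

/-- The Hessian determinant `F_xx F_yy - F_xy ^ 2` at `(x, y)`. -/
def hess (a : A → R) (x y : R) : R := dxx a x y * dyy a x y - dxy a x y ^ 2

end Poly

/-- The lattice points in the interior of the convex hull of `A`. -/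
noncomputable def inner (A : Finset (ℕ × ℕ)) : Finset (ℕ × ℕ) := by
  classical
  exact ((Finset.range (A.sup Prod.fst)) ×ˢ (Finset.range (A.sup Prod.snd))).filter fun w =>
    ((w.1 : ℝ), (w.2 : ℝ)) ∈
      interior (convexHull ℝ ((fun u : ℕ × ℕ => ((u.1 : ℝ), (u.2 : ℝ))) '' (A : Set (ℕ × ℕ))))

variable {A : Finset (ℕ × ℕ)}

/-- The value at `(x, y)` of the polynomial `P_c = ∑ c_{ij} x^(i - 1) y^(j - 1)`, the sum over the
interior lattice points; the differential form of `c` is `P_c dx / F_y`. -/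
noncomputable def form (c : inner A → ℂ) (x y : ℂ) : ℂ :=
  ∑ w : inner A, c w * x ^ (w.1.1 - 1) * y ^ (w.1.2 - 1)

/-- The squared `L²` norm `(i/2) ∫ ω ∧ conj ω` of the form `ω = P_c dx / F_y` on the curve
`F = 0`: the integral over `x ∈ ℂ` of the sum of `|P_c / F_y|²` over the points `(x, y)` of the
curve. -/
noncomputable def normSq (F : A → ℂ) (c : inner A → ℂ) : ENNReal :=
  ∫⁻ x : ℂ, ∑' y : {y : ℂ // val F x y = 0}, ENNReal.ofReal (‖form c x y‖ ^ 2 / ‖dy F x y‖ ^ 2)

/-- The volume of the unit ball of the norm `normSq F ^ (1/2)` on `ℂ ^ g`. It is `π ^ g / g!`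
divided by the determinant of the Gram matrix of the forms `x^(i-1) y^(j-1) dx / F_y`. -/
noncomputable def ballVol (F : A → ℂ) : ℝ :=
  (volume {c : inner A → ℂ | normSq F c ≤ 1}).toReal

variable {K : Type u} [Field K] [NumberField K]

/-- The height of `F`: `1 / (2 [K : ℚ])` times the sum over all the complex embeddings `σ` of the
logarithm of the volume of the unit ball of the forms of `σ F`. -/
noncomputable def height (a : A → 𝓞 K) : ℝ :=
  (1 / (2 * (Module.finrank ℚ K : ℝ))) *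
    ∑ σ : K →+* ℂ, Real.log (ballVol fun w => σ (algebraMap (𝓞 K) K (a w)))

/-- The finite place `v` is *nodal* for `F`: over some extension field `k` of the residue field
there is a point `(x, y)` with `x, y ≠ 0` at which `F = F_x = F_y = 0` and the Hessian determinant
is not zero: an ordinary double point of the reduction of the curve `F = 0`. -/
def Nodal (a : A → 𝓞 K) (v : HeightOneSpectrum (𝓞 K)) : Prop :=
  ∃ (k : Type u) (_ : Field k) (φ : 𝓞 K →+* k) (x y : k), RingHom.ker φ = v.asIdeal ∧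
    x ≠ 0 ∧ y ≠ 0 ∧ val (fun w => φ (a w)) x y = 0 ∧ dx (fun w => φ (a w)) x y = 0 ∧
    dy (fun w => φ (a w)) x y = 0 ∧ hess (fun w => φ (a w)) x y ≠ 0

/-- The product of the norms of the nodal places of `F`. -/
noncomputable def nodalConductor (a : A → 𝓞 K) : ℕ :=
  ∏ᶠ (v : HeightOneSpectrum (𝓞 K)) (_ : Nodal a v), Ideal.absNorm v.asIdeal

/-- Frey's inequality for `F`, with constants `κ` and `c`. -/
def Frey (κ c : ℝ) (a : A → 𝓞 K) : Prop :=
  height a ≤ κ * Real.log (nodalConductor a) + c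

/-- The coefficient vectors with `|σ (a_{ij})| ≤ H ^ (1 - l₁ i - l₂ j)` for all the complex
embeddings `σ`. -/
def Family (K : Type u) [Field K] [NumberField K] (A : Finset (ℕ × ℕ)) (l₁ l₂ H : ℝ) :
    Set (A → 𝓞 K) :=
  {a | ∀ w : A, a w ∈ FreyAvg.Box K (H ^ (1 - l₁ * (w.1.1 : ℝ) - l₂ * (w.1.2 : ℝ)))}

/-- The coefficient vector of `F = t + G`, where `G` has the coefficients `b` and no constant
term. -/
def pencil {R : Type*} (b : (A.erase (0, 0) : Finset (ℕ × ℕ)) → R) (t : R) : A → R :=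
  fun w => if h : w.1 = (0, 0) then t else b ⟨w.1, Finset.mem_erase.mpr ⟨h, w.2⟩⟩

end FreyTor
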