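import Mathlib

/-!
# TF/E1: extension of a specialisation (commutative algebra)

PROOF. Let `Ω = FractionRing R'`; `R → R' → Ω` is injective and `Ω` is algebraic over `R`. The
finitely many elements `s`, `θ` and `δ⁻¹` of `Ω` are algebraic over `R`, so there is `0 ≠ h ∈ R`
with `h z` integral over `R` for each of them (`exists_integral_multiple`), that is, they are all
integral over `R_h = Localization.Away h`. Let `B` be the integral closure of `R_h` in `Ω`; it
contains the image of `R'` (generators) and `δ⁻¹`. `R_h` is integrally closed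
(`IsIntegrallyClosed` of a localisation), so with `p = minpoly R_h θ` (monic) the kernel of
`R_h[T] → B, T ↦ θ` is `(p)` (`minpoly.isIntegrallyClosed_dvd`). Choose `N` with `h ^ N p` having
coefficients in `R` (`IsLocalization.integerNormalization` or `exist_integer_multiples`) and let `P`
be the lift, `P.leadingCoeff = h ^ N`.
Let `ψ h ≠ 0` and `z` a root of `P.map ψ`. `ψ` extends to `R_h → k`, `z` is a root of the image of
`p`, so `e : R_h[T] → AlgebraicClosure k`, `T ↦ z`, kills `p`, hence the kernel of
`q : R_h[T] → B`. `B` is integral over `R_h[T]` (through `q`), so by lying over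
(`Ideal.exists_ideal_over_prime_of_isIntegral`) there is a prime `Q` of `B` with
`q⁻¹(Q) = ker e`; `B / Q` is an integral domain, integral over `R_h[T] / ker e`, which embeds in
`AlgebraicClosure k`; `IsAlgClosed.lift` gives `B / Q → AlgebraicClosure k`, so a ring
homomorphism `B → AlgebraicClosure k` extending `e`; compose with `R' → B`. `Ψ δ ≠ 0` because `δ`
is a unit of `B`.
-/

open Polynomial

namespace FreyTor

universe u₁ u₂ w

/-- extension of a homomorphism to an algebraically closed field along an integral homomorphism -/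
theorem E1_int_ext {A : Type u₁} {B : Type u₂} {M : Type w} [CommRing A] [CommRing B] [Algebra A B]
    [Algebra.IsIntegral A B] [Field M] [IsAlgClosed M] (e : A →+* M)
    (he : RingHom.ker (algebraMap A B) ≤ RingHom.ker e) :
    ∃ Ψ : B →+* M, ∀ a, Ψ (algebraMap A B a) = e a := by
  have hP : (RingHom.ker e).IsPrime := RingHom.ker_isPrime e
  obtain ⟨Q, -, hQ, hQP⟩ := Ideal.exists_ideal_over_prime_of_isIntegral (RingHom.ker e) (⊥ : Ideal B)
    (by rw [← RingHom.ker_eq_comap_bot]; exact he)
  have hover : Q.LiesOver (RingHom.ker e) := ⟨hQP.symm⟩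
  let e' : (A ⧸ RingHom.ker e) →+* M := RingHom.kerLift e
  have he' : Function.Injective e' := RingHom.kerLift_injective e
  let _ : Algebra (A ⧸ RingHom.ker e) M := e'.toAlgebra
  have : FaithfulSMul (A ⧸ RingHom.ker e) M :=
    (faithfulSMul_iff_algebraMap_injective _ _).2 he'
  have : Module.IsTorsionFree (A ⧸ RingHom.ker e) M := inferInstance
  have : Module.IsTorsionFree (A ⧸ RingHom.ker e) (B ⧸ Q) := inferInstance
  have : Algebra.IsAlgebraic (A ⧸ RingHom.ker e) (B ⧸ Q) := inferInstance
  let L : (B ⧸ Q) →ₐ[A ⧸ RingHom.ker e] M := IsAlgClosed.lift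
  refine ⟨L.toRingHom.comp (Ideal.Quotient.mk Q), fun a => ?_⟩
  have h1 : Ideal.Quotient.mk Q (algebraMap A B a) =
      algebraMap (A ⧸ RingHom.ker e) (B ⧸ Q) (Ideal.Quotient.mk _ a) := rfl
  change L (Ideal.Quotient.mk Q (algebraMap A B a)) = _
  rw [h1, AlgHom.commutes]
  rfl

theorem E1_core {A : Type u₁} {Ω : Type u₂} {M : Type w} [CommRing A] [IsDomain A]
    [IsIntegrallyClosed A] [Field Ω] [Algebra A Ω] [FaithfulSMul A Ω] [Field M] [IsAlgClosed M]
    (θ : Ω) (hθ : IsIntegral A θ) (ψ : A →+* M) (z : M) (hz : (minpoly A θ).eval₂ ψ z = 0) :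
    ∃ Ψ : integralClosure A Ω →+* M, (∀ r, Ψ (algebraMap A (integralClosure A Ω) r) = ψ r) ∧
      Ψ ⟨θ, hθ⟩ = z := by
  let q : A[X] →ₐ[A] integralClosure A Ω := aeval (⟨θ, hθ⟩ : integralClosure A Ω)
  let e : A[X] →+* M := eval₂RingHom ψ z
  let _ : Algebra A[X] (integralClosure A Ω) := q.toRingHom.toAlgebra
  have htower : IsScalarTower A A[X] (integralClosure A Ω) :=
    IsScalarTower.of_algebraMap_eq fun r => (q.commutes r).symm
  have hint : Algebra.IsIntegral A[X] (integralClosure A Ω) :=
    ⟨fun x => IsIntegral.tower_top (R := A) (integralClosure.isIntegral x)⟩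
  have hker : RingHom.ker (algebraMap A[X] (integralClosure A Ω)) ≤ RingHom.ker e := by
    intro f hf
    have h1 : q f = 0 := hf
    have h2 : aeval θ f = 0 := by
      have h3 := congrArg (algebraMap (integralClosure A Ω) Ω) h1
      rw [map_zero] at h3
      rw [← h3]
      exact Polynomial.aeval_algebraMap_apply Ω (⟨θ, hθ⟩ : integralClosure A Ω) f
    obtain ⟨g, rfl⟩ := minpoly.isIntegrallyClosed_dvd hθ h2
    rw [RingHom.mem_ker, map_mul]
    change (minpoly A θ).eval₂ ψ z * _ = 0
    rw [hz, zero_mul]
  obtain ⟨Ψ, hΨ⟩ := E1_int_ext e hker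
  refine ⟨Ψ, fun r => ?_, ?_⟩
  · have h1 := hΨ (C r)
    have h2 : algebraMap A[X] (integralClosure A Ω) (C r) = algebraMap A (integralClosure A Ω) r :=
      q.commutes r
    rw [h2] at h1
    rw [h1]
    exact eval₂_C _ _
  · have h1 := hΨ X
    have h2 : algebraMap A[X] (integralClosure A Ω) X = ⟨θ, hθ⟩ := aeval_X _
    rw [h2] at h1
    rw [h1]
    exact eval₂_X _ _

theorem ext_lemma {R : Type u₁} {R' : Type u₂} [CommRing R] [IsDomain R] [IsIntegrallyClosed R]
    [CommRing R'] [IsDomain R'] (φ : R →+* R') (hφ : Function.Injective φ)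
    (halg : ∀ z : R', ∃ q : R[X], q ≠ 0 ∧ q.eval₂ φ z = 0) (s : Finset R')
    (hs : ∀ z : R', z ∈ Subring.closure (Set.range φ ∪ (s : Set R'))) (θ δ : R') (hδ : δ ≠ 0) :
    ∃ (h : R) (P : R[X]), h ≠ 0 ∧ 0 < P.natDegree ∧ P.eval₂ φ θ = 0 ∧
      ∀ (k : Type w) [Field k] (ψ : R →+* k), ψ h ≠ 0 → ψ P.leadingCoeff ≠ 0 ∧
        ∀ z : k, (P.map ψ).IsRoot z → ∃ Ψ : R' →+* AlgebraicClosure k,
          (∀ r, Ψ (φ r) = algebraMap k (AlgebraicClosure k) (ψ r)) ∧
          Ψ θ = algebraMap k (AlgebraicClosure k) z ∧ Ψ δ ≠ 0 := by
  classical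
  let _ : Algebra R R' := φ.toAlgebra
  have hfaith : FaithfulSMul R R' := (faithfulSMul_iff_algebraMap_injective R R').2 hφ
  have halg' : Algebra.IsAlgebraic R R' := ⟨fun z => by
    obtain ⟨q, hq, hqz⟩ := halg z
    exact ⟨q, hq, hqz⟩⟩
  have hinjF : Function.Injective (algebraMap R' (FractionRing R')) :=
    IsFractionRing.injective R' (FractionRing R')
  have halgΩ : Algebra.IsAlgebraic R (FractionRing R') :=
    (IsFractionRing.isAlgebraic_iff' R R' (FractionRing R')).1 halg'
  obtain ⟨h, hh0, hint⟩ := Algebra.IsAlgebraic.exists_integral_multiples R (A := FractionRing R')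
    (s.image (algebraMap R' (FractionRing R')) ∪
      {algebraMap R' (FractionRing R') θ, (algebraMap R' (FractionRing R') δ)⁻¹})
  have hM : Submonoid.powers h ≤ nonZeroDivisors R := powers_le_nonZeroDivisors_of_noZeroDivisors hh0
  have hdom : IsDomain (Localization.Away h) :=
    IsLocalization.isDomain_of_le_nonZeroDivisors (Localization.Away h) hM
  have hic : IsIntegrallyClosed (Localization.Away h) :=
    isIntegrallyClosed_of_isLocalization (Localization.Away h) _ hM
  have hinj : Function.Injective (algebraMap R (Localization.Away h)) :=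
    IsLocalization.injective (Localization.Away h) hM
  have hinjΩ : Function.Injective (algebraMap R (FractionRing R')) := by
    rw [IsScalarTower.algebraMap_eq R R' (FractionRing R')]
    exact hinjF.comp hφ
  have hu : IsUnit (algebraMap R (FractionRing R') h) :=
    IsUnit.mk0 _ (by rw [Ne, map_eq_zero_iff _ hinjΩ]; exact hh0)
  let _ : Algebra (Localization.Away h) (FractionRing R') := (IsLocalization.Away.lift h hu).toAlgebra
  have htower : IsScalarTower R (Localization.Away h) (FractionRing R') :=
    IsScalarTower.of_algebraMap_eq fun r => (IsLocalization.Away.lift_eq h hu r).symm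
  have hinj2 : Function.Injective (algebraMap (Localization.Away h) (FractionRing R')) :=
    IsLocalization.injective_of_map_algebraMap_zero (R := R) (S := Localization.Away h)
      (M := Submonoid.powers h) _ fun x hx => by
      rw [← IsScalarTower.algebraMap_apply, map_eq_zero_iff _ hinjΩ] at hx
      rw [hx, map_zero]
  have hfaith2 : FaithfulSMul (Localization.Away h) (FractionRing R') :=
    (faithfulSMul_iff_algebraMap_injective _ _).2 hinj2
  -- the relevant elements are integral over the localisation
  have hint2 : ∀ z ∈ (s.image (algebraMap R' (FractionRing R')) ∪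
      {algebraMap R' (FractionRing R') θ, (algebraMap R' (FractionRing R') δ)⁻¹}),
      IsIntegral (Localization.Away h) z := by
    intro z hz
    have h1 : IsIntegral (Localization.Away h) (h • z) :=
      IsIntegral.tower_top (R := R) (hint z hz)
    obtain ⟨v, hv⟩ := IsLocalization.Away.algebraMap_isUnit (S := Localization.Away h) h
    have h2 : z = ((v⁻¹ : (Localization.Away h)ˣ) : Localization.Away h) • (h • z) := by
      rw [← algebraMap_smul (Localization.Away h) h z, ← hv, smul_smul, Units.inv_mul, one_smul]
    rw [h2]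
    exact h1.smul _
  have hθ : IsIntegral (Localization.Away h) (algebraMap R' (FractionRing R') θ) :=
    hint2 _ (Finset.mem_union_right _ (by simp))
  have hδi : IsIntegral (Localization.Away h) (algebraMap R' (FractionRing R') δ)⁻¹ :=
    hint2 _ (Finset.mem_union_right _ (by simp))
  have hall : ∀ z : R', algebraMap R' (FractionRing R') z ∈
      integralClosure (Localization.Away h) (FractionRing R') := by
    have hle : Subring.closure (Set.range φ ∪ (s : Set R')) ≤
        (integralClosure (Localization.Away h) (FractionRing R')).toSubring.comap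
          (algebraMap R' (FractionRing R')) := by
      rw [Subring.closure_le]
      rintro z (⟨r, rfl⟩ | hz)
      · change algebraMap R' (FractionRing R') (algebraMap R R' r) ∈
          integralClosure (Localization.Away h) (FractionRing R')
        rw [← IsScalarTower.algebraMap_apply,
          IsScalarTower.algebraMap_apply R (Localization.Away h) (FractionRing R')]
        exact Subalgebra.algebraMap_mem _ _
      · exact hint2 _ (Finset.mem_union_left _ (Finset.mem_image_of_mem _ hz))
    exact fun z => hle (hs z)
  let j : R' →+* integralClosure (Localization.Away h) (FractionRing R') :=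
    (algebraMap R' (FractionRing R')).codRestrict _ hall
  have hjφ : ∀ r, j (φ r) = algebraMap (Localization.Away h)
      (integralClosure (Localization.Away h) (FractionRing R'))
        (algebraMap R (Localization.Away h) r) := by
    intro r
    apply Subtype.ext
    change algebraMap R' (FractionRing R') (algebraMap R R' r) =
      algebraMap (Localization.Away h) (FractionRing R') (algebraMap R (Localization.Away h) r)
    rw [← IsScalarTower.algebraMap_apply, ← IsScalarTower.algebraMap_apply]
  -- the polynomial
  obtain ⟨b, ⟨N, rfl⟩, hb⟩ := IsLocalization.integerNormalization_spec (Submonoid.powers h)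
    (minpoly (Localization.Away h) (algebraMap R' (FractionRing R') θ))
  set P : R[X] := IsLocalization.integerNormalization (Submonoid.powers h)
    (minpoly (Localization.Away h) (algebraMap R' (FractionRing R') θ)) with hPdef
  have hmonic := minpoly.monic hθ
  have hN0 : algebraMap R (Localization.Away h) (h ^ N) ≠ 0 := by
    rw [Ne, map_eq_zero_iff _ hinj]
    exact pow_ne_zero _ hh0
  have hb' : P.map (algebraMap R (Localization.Away h)) =
      C (algebraMap R (Localization.Away h) (h ^ N)) *
        minpoly (Localization.Away h) (algebraMap R' (FractionRing R') θ) := by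
    rw [hb, ← algebraMap_smul (Localization.Away h) (h ^ N), smul_eq_C_mul]
  have hdeg : P.natDegree =
      (minpoly (Localization.Away h) (algebraMap R' (FractionRing R') θ)).natDegree := by
    rw [← natDegree_map_eq_of_injective hinj P, hb', natDegree_C_mul hN0]
  have hlead : P.leadingCoeff = h ^ N := by
    apply hinj
    rw [← leadingCoeff_map_of_injective hinj, hb', leadingCoeff_mul, leadingCoeff_C,
      hmonic.leadingCoeff, mul_one]
  refine ⟨h, P, hh0, ?_, ?_, ?_⟩
  · rw [hdeg]
    exact minpoly.natDegree_pos hθ
  · apply hinjF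
    rw [map_zero, hom_eval₂]
    have h1 : (algebraMap R' (FractionRing R')).comp φ =
        (algebraMap (Localization.Away h) (FractionRing R')).comp
          (algebraMap R (Localization.Away h)) := by
      rw [← IsScalarTower.algebraMap_eq R (Localization.Away h) (FractionRing R')]
      exact (IsScalarTower.algebraMap_eq R R' (FractionRing R')).symm
    rw [h1, ← eval₂_map, hb', eval₂_mul]
    have h2 := minpoly.aeval (Localization.Away h) (algebraMap R' (FractionRing R') θ)
    rw [aeval_def] at h2
    rw [h2, mul_zero]
  · intro k _ ψ hψ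
    refine ⟨by rw [hlead, map_pow]; exact pow_ne_zero _ hψ, fun z hz => ?_⟩
    let ψ' : Localization.Away h →+* k := IsLocalization.Away.lift h (IsUnit.mk0 _ hψ)
    have hψ' : ∀ r, ψ' (algebraMap R (Localization.Away h) r) = ψ r := fun r =>
      IsLocalization.Away.lift_eq h (IsUnit.mk0 _ hψ) r
    have hψ'' : ψ'.comp (algebraMap R (Localization.Away h)) = ψ := RingHom.ext hψ'
    have hroot : ((minpoly (Localization.Away h) (algebraMap R' (FractionRing R') θ)).eval₂ ψ' z)
        = 0 := by
      rw [IsRoot.def, ← hψ'', ← Polynomial.map_map, hb', eval_map, eval₂_mul, eval₂_C, hψ',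
        map_pow] at hz
      exact (mul_eq_zero.1 hz).resolve_left (pow_ne_zero _ hψ)
    obtain ⟨Ψ, hΨ, hΨθ⟩ := E1_core (M := AlgebraicClosure k) _ hθ
      ((algebraMap k (AlgebraicClosure k)).comp ψ') (algebraMap k (AlgebraicClosure k) z)
      (by rw [← hom_eval₂, hroot, map_zero])
    refine ⟨Ψ.comp j, fun r => ?_, hΨθ, ?_⟩
    · rw [RingHom.comp_apply, hjφ, hΨ, RingHom.comp_apply, hψ']
    · intro h0
      have h1 : j δ * (⟨_, hδi⟩ : integralClosure (Localization.Away h) (FractionRing R')) = 1 := by
        apply Subtype.ext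
        change algebraMap R' (FractionRing R') δ * (algebraMap R' (FractionRing R') δ)⁻¹ = 1
        exact mul_inv_cancel₀ (by rw [Ne, map_eq_zero_iff _ hinjF]; exact hδ)
      have h2 := congrArg Ψ h1
      rw [map_mul, map_one] at h2
      rw [RingHom.comp_apply] at h0
      rw [h0, zero_mul] at h2
      exact zero_ne_one h2

end FreyTor
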