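import Pool.Agent.Lib.MP_6babc4_nt.TF.H3

/-!
# TF/H4: upper bound for the height

PROOF. By `norm_lower`, `normSq F c ≤ 1` implies `‖c w‖ ≤ r_w := c₀^(-1/2) T / (ρ₁^w.1 ρ₂^w.2)` for
every `w`, so the ball is contained in the product of the closed discs, of volume
`∏ π r_w²` (`MeasureTheory.volume_pi_...`, `Complex.volume_closedBall`), and
`ballVol F ≤ ∏ (π / c₀) (T / (ρ₁^w.1 ρ₂^w.2))²`. Take the logarithm (if `ballVol = 0` then
`Real.log 0 = 0`; the right side is `≥ 0` because `T / (ρ₁^w.1 ρ₂^w.2) ≥ 1` and we may enlarge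
`π / c₀` to be `≥ 1`). Add over the `[K : ℚ]` embeddings (`FreyAvg.card_embeddings`).
-/

open MeasureTheory NumberField Polynomial

namespace FreyTor

variable {A : Finset (ℕ × ℕ)} {K : Type*} [Field K] [NumberField K]

/-- the volume of the unit ball -/
theorem H4_ballVol (F : A → ℂ) {c₀ ρ₁ ρ₂ T : ℝ} (hc₀ : 0 < c₀) (h1 : 0 < ρ₁) (h2 : 0 < ρ₂)
    (hT : 0 < T)
    (hnorm : ∀ c : inner A → ℂ,
      ENNReal.ofReal (c₀ * ∑ w : inner A, (‖c w‖ * (ρ₁ ^ w.1.1 * ρ₂ ^ w.1.2 / T)) ^ 2) ≤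
        normSq F c) :
    ballVol F ≤ ∏ w : inner A, (Real.pi / c₀ * (T / (ρ₁ ^ w.1.1 * ρ₂ ^ w.1.2)) ^ 2) := by
  set q : inner A → ℝ := fun w => ρ₁ ^ w.1.1 * ρ₂ ^ w.1.2 with hq
  have hq0 : ∀ w, 0 < q w := fun w => by positivity
  set r : inner A → ℝ := fun w => (Real.sqrt c₀)⁻¹ * (T / q w) with hr
  have hs0 : 0 < Real.sqrt c₀ := Real.sqrt_pos.2 hc₀
  have hr0 : ∀ w, 0 < r w := fun w => mul_pos (inv_pos.2 hs0) (div_pos hT (hq0 w))
  have hsub : {c : inner A → ℂ | normSq F c ≤ 1} ⊆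
      Set.pi Set.univ (fun w : inner A => Metric.closedBall (0 : ℂ) (r w)) := by
    intro c hc w _
    rw [mem_closedBall_zero_iff]
    have h3 : ENNReal.ofReal (c₀ * ∑ w : inner A, (‖c w‖ * (q w / T)) ^ 2) ≤ ENNReal.ofReal 1 := by
      rw [ENNReal.ofReal_one]
      exact (hnorm c).trans hc
    have h4 : c₀ * ∑ w : inner A, (‖c w‖ * (q w / T)) ^ 2 ≤ 1 :=
      (ENNReal.ofReal_le_ofReal_iff zero_le_one).1 h3
    have h5 : (‖c w‖ * (q w / T)) ^ 2 ≤ ∑ w : inner A, (‖c w‖ * (q w / T)) ^ 2 :=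
      Finset.single_le_sum (f := fun w => (‖c w‖ * (q w / T)) ^ 2) (fun i _ => sq_nonneg _)
        (Finset.mem_univ w)
    have h6 : (Real.sqrt c₀ * (‖c w‖ * (q w / T))) ^ 2 ≤ 1 ^ 2 := by
      rw [mul_pow, Real.sq_sqrt hc₀.le, one_pow]
      exact (mul_le_mul_of_nonneg_left h5 hc₀.le).trans h4
    have h7 : Real.sqrt c₀ * (‖c w‖ * (q w / T)) ≤ 1 :=
      (abs_le_of_sq_le_sq' h6 zero_le_one).2
    have h8 : ‖c w‖ * (Real.sqrt c₀ * (q w / T)) ≤ 1 := by
      calc ‖c w‖ * (Real.sqrt c₀ * (q w / T)) = Real.sqrt c₀ * (‖c w‖ * (q w / T)) := by ring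
        _ ≤ 1 := h7
    have h9 : 0 < Real.sqrt c₀ * (q w / T) := mul_pos hs0 (div_pos (hq0 w) hT)
    have h10 : r w = 1 / (Real.sqrt c₀ * (q w / T)) := by
      rw [hr]
      have := hq0 w
      field_simp
    rw [h10, le_div_iff₀ h9]
    exact h8
  have hvol : volume (Set.pi Set.univ (fun w : inner A => Metric.closedBall (0 : ℂ) (r w)))
      = ENNReal.ofReal (∏ w : inner A, (Real.pi / c₀ * (T / q w) ^ 2)) := by
    rw [volume_pi_pi, ENNReal.ofReal_prod_of_nonneg (fun w _ => by positivity)]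
    refine Finset.prod_congr rfl fun w _ => ?_
    rw [Complex.volume_closedBall]
    have h3 : (NNReal.pi : ENNReal) = ENNReal.ofReal Real.pi := by
      rw [ENNReal.ofReal, Real.toNNReal_of_nonneg Real.pi_pos.le]
      rfl
    rw [h3, ← ENNReal.ofReal_pow (hr0 w).le, ← ENNReal.ofReal_mul (by positivity)]
    congr 1
    rw [hr]
    simp only
    rw [mul_pow, inv_pow, Real.sq_sqrt hc₀.le]
    ring
  unfold ballVol
  have h11 := measure_mono (μ := (volume : Measure (inner A → ℂ))) hsub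
  rw [hvol] at h11
  have h12 : 0 ≤ ∏ w : inner A, (Real.pi / c₀ * (T / q w) ^ 2) :=
    Finset.prod_nonneg fun w _ => by positivity
  exact ENNReal.toReal_le_of_le_ofReal h12 h11

theorem height_le (A : Finset (ℕ × ℕ)) (h01 : (0, 1) ∈ A) : ∃ C : ℝ, 0 < C ∧
    ∀ (K : Type*) [Field K] [NumberField K] (ρ₁ ρ₂ T : ℝ), 0 < ρ₁ → 0 < ρ₂ → 0 < T →
      (∀ w ∈ inner A, ρ₁ ^ w.1 * ρ₂ ^ w.2 ≤ T) → ∀ a : A → 𝓞 K,
      (∀ (w : A) (σ : K →+* ℂ), ‖σ (algebraMap (𝓞 K) K (a w))‖ * ρ₁ ^ w.1.1 * ρ₂ ^ w.1.2 ≤ T) →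
      (∀ σ : K →+* ℂ, {x : ℂ | ¬ ((yPoly (A := A)
          (fun w => σ (algebraMap (𝓞 K) K (a w))) x).natDegree = A.sup Prod.snd ∧
        (yPoly (A := A) (fun w => σ (algebraMap (𝓞 K) K (a w))) x).Separable)}.Finite) →
      height a ≤ ∑ w ∈ inner A,
        (Real.log T - w.1 * Real.log ρ₁ - w.2 * Real.log ρ₂) + C := by
  obtain ⟨c₀, hc₀, hnorm⟩ := norm_lower A h01
  set L : ℝ := Real.log (max (Real.pi / c₀) 1) with hL
  have hL0 : 0 ≤ L := Real.log_nonneg (le_max_right _ _)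
  refine ⟨(inner A).card * L / 2 + 1, by positivity, ?_⟩
  intro K _ _ ρ₁ ρ₂ T h1 h2 hT hin a hbox hfin
  set S : ℝ := ∑ w ∈ inner A, (Real.log T - w.1 * Real.log ρ₁ - w.2 * Real.log ρ₂) with hS
  have hterm : ∀ w ∈ inner A, Real.log (T / (ρ₁ ^ w.1 * ρ₂ ^ w.2))
      = Real.log T - w.1 * Real.log ρ₁ - w.2 * Real.log ρ₂ := by
    intro w _
    rw [Real.log_div hT.ne' (by positivity), Real.log_mul (by positivity) (by positivity),
      Real.log_pow, Real.log_pow]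
    ring
  have hterm0 : ∀ w ∈ inner A, 0 ≤ Real.log (T / (ρ₁ ^ w.1 * ρ₂ ^ w.2)) := by
    intro w hw
    apply Real.log_nonneg
    rw [le_div_iff₀ (by positivity), one_mul]
    exact hin w hw
  have hS0 : 0 ≤ S := by
    rw [hS]
    refine Finset.sum_nonneg fun w hw => ?_
    rw [← hterm w hw]
    exact hterm0 w hw
  have hone : ∀ σ : K →+* ℂ, Real.log (ballVol fun w : A => σ (algebraMap (𝓞 K) K (a w)))
      ≤ (inner A).card * L + 2 * S := by
    intro σ
    have h3 := H4_ballVol (fun w : A => σ (algebraMap (𝓞 K) K (a w))) hc₀ h1 h2 hT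
      (hnorm ρ₁ ρ₂ T h1 h2 hT _ (fun w => hbox w σ) (hfin σ))
    have h0 : 0 ≤ ballVol (fun w : A => σ (algebraMap (𝓞 K) K (a w))) := ENNReal.toReal_nonneg
    have hR0 : 0 ≤ (inner A).card * L + 2 * S := by positivity
    rcases h0.lt_or_eq with hp | hz
    · refine (Real.log_le_log hp h3).trans ?_
      rw [Real.log_prod (fun w _ => by positivity)]
      have h4 : ∀ w : inner A, Real.log (Real.pi / c₀ * (T / (ρ₁ ^ w.1.1 * ρ₂ ^ w.1.2)) ^ 2)
          ≤ L + 2 * (Real.log T - w.1.1 * Real.log ρ₁ - w.1.2 * Real.log ρ₂) := by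
        intro w
        rw [Real.log_mul (by positivity) (by positivity), Real.log_pow, hterm w.1 w.2]
        have h5 : Real.log (Real.pi / c₀) ≤ L :=
          Real.log_le_log (by positivity) (le_max_left _ _)
        push_cast
        linarith
      refine (Finset.sum_le_sum fun w _ => h4 w).trans ?_
      rw [Finset.sum_add_distrib, Finset.sum_const, Finset.card_univ, Fintype.card_coe,
        nsmul_eq_mul, ← Finset.mul_sum, hS,
        ← Finset.sum_coe_sort (inner A)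
          (fun w => Real.log T - w.1 * Real.log ρ₁ - w.2 * Real.log ρ₂)]
    · rw [← hz, Real.log_zero]
      exact hR0
  have hn : (0 : ℝ) < Module.finrank ℚ K := by exact_mod_cast (Module.finrank_pos (R := ℚ) (M := K))
  unfold height
  have h6 : ∑ σ : K →+* ℂ, Real.log (ballVol fun w : A => σ (algebraMap (𝓞 K) K (a w)))
      ≤ (Module.finrank ℚ K : ℝ) * ((inner A).card * L + 2 * S) := by
    refine (Finset.sum_le_sum fun σ _ => hone σ).trans ?_
    rw [Finset.sum_const, Finset.card_univ, NumberField.Embeddings.card K ℂ, nsmul_eq_mul]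
  calc (1 / (2 * (Module.finrank ℚ K : ℝ))) *
        ∑ σ : K →+* ℂ, Real.log (ballVol fun w : A => σ (algebraMap (𝓞 K) K (a w)))
      ≤ (1 / (2 * (Module.finrank ℚ K : ℝ))) *
        ((Module.finrank ℚ K : ℝ) * ((inner A).card * L + 2 * S)) :=
        mul_le_mul_of_nonneg_left h6 (by positivity)
    _ = S + (inner A).card * L / 2 := by
        field_simp
        ring
    _ ≤ S + ((inner A).card * L / 2 + 1) := by linarith

end FreyTor
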