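import Pool.Agent.Lib.MP_6babc4_nt.TF.H0
import Pool.Agent.Lib.MP_6babc4_nt.TF.J0
import Pool.Agent.Lib.MP_6babc4_nt.AvgCount

/-!
# TF/H5: `F(x, ·)` is separable of degree `n` for all but finitely many `x`

`n = A.sup snd ≥ 1` and `top b = ∑_{u ∈ I, u.2 = n} b_u`, the coefficient of `Y^n` in `F(1, Y)`
(`(0, 0)` has second coordinate `0 < n`).

PROOF. `yPoly (pencil b t) 1 = C t + G` with `G = yPoly (pencil b 0) 1` of degree `n` (coefficient
`top b ≠ 0`). By `FreyAvg.dres_values` the set `E` of `t` with `dres n (C t + G) = 0` has at most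
`n - 1` elements (for `n = 1` a polynomial of degree one is separable). For `t ∉ E` and every `σ`:
the polynomial in `x` which is the coefficient of `Y^n` in `F^σ(x, Y)`, and the polynomial `dres n`
of `F^σ(X, Y) ∈ ℂ[X][Y]` in `X`, are not zero at `x = 1`, so they have finitely many zeros; outside
them `yPoly F^σ x` has degree `n` and is separable.
-/

open Polynomial NumberField

namespace FreyTor

variable {A : Finset (ℕ × ℕ)} {K : Type*} [Field K] [NumberField K]

/-- The coefficient of `Y ^ n` in `F(1, Y)`, as a polynomial in the coefficients. -/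
noncomputable def topPoly (A : Finset (ℕ × ℕ)) : Rg A := by
  classical
  exact ∑ u : Idx A, if u.1.2 = A.sup Prod.snd then MvPolynomial.X u else 0

lemma H5_one_le (h01 : (0, 1) ∈ A) : 1 ≤ A.sup Prod.snd :=
  Finset.le_sup (f := Prod.snd) h01

lemma H5_exists (h01 : (0, 1) ∈ A) : ∃ u : Idx A, u.1.2 = A.sup Prod.snd := by
  obtain ⟨p, hp, h⟩ := Finset.exists_mem_eq_sup A ⟨_, h01⟩ Prod.snd
  have h1 := H5_one_le h01
  refine ⟨⟨p, Finset.mem_erase.2 ⟨?_, hp⟩⟩, h.symm⟩
  rintro rfl
  rw [h] at h1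
  exact absurd h1 (by decide)

theorem topPoly_ne_zero (h01 : (0, 1) ∈ A) : topPoly A ≠ 0 := by
  classical
  intro h
  have h1 := congrArg (MvPolynomial.eval (fun _ : Idx A => (1 : ℤ))) h
  unfold topPoly at h1
  rw [map_sum, map_zero] at h1
  have h2 : ∀ u : Idx A, MvPolynomial.eval (fun _ : Idx A => (1 : ℤ))
      (if u.1.2 = A.sup Prod.snd then MvPolynomial.X u else 0) =
      if u.1.2 = A.sup Prod.snd then 1 else 0 := by
    intro u
    split_ifs
    · rw [MvPolynomial.eval_X]
    · rw [map_zero]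
  rw [Finset.sum_congr rfl fun u _ => h2 u] at h1
  obtain ⟨u, hu⟩ := H5_exists h01
  rw [Finset.sum_eq_zero_iff_of_nonneg (fun u _ => by split_ifs <;> norm_num)] at h1
  have h3 := h1 u (Finset.mem_univ u)
  rw [if_pos hu] at h3
  exact one_ne_zero h3

lemma H5_map {R S : Type*} [CommRing R] [CommRing S] (φ : R →+* S) (F : A → R) (x : R) :
    (yPoly F x).map φ = yPoly (fun w => φ (F w)) (φ x) := by
  unfold yPoly
  rw [Polynomial.map_sum]
  refine Finset.sum_congr rfl fun w _ => ?_
  rw [Polynomial.map_mul, Polynomial.map_pow, map_C, map_X, map_mul, map_pow]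

lemma H5_coeff {R : Type*} [CommRing R] (F : A → R) (x : R) (n : ℕ) :
    (yPoly F x).coeff n = ∑ w : A, if w.1.2 = n then F w * x ^ w.1.1 else 0 := by
  unfold yPoly
  rw [finsetSum_coeff]
  refine Finset.sum_congr rfl fun w _ => ?_
  rw [coeff_C_mul_X_pow]
  by_cases h : w.1.2 = n
  · rw [if_pos h, if_pos h.symm]
  · rw [if_neg h, if_neg (fun h' => h h'.symm)]

lemma H5_pencil {R : Type*} [CommRing R] (h00 : (0, 0) ∈ A) (b : Idx A → R) (t : R) :
    yPoly (A := A) (pencil b t) 1 = C t + yPoly (A := A) (pencil b 0) 1 := by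
  rw [← sub_eq_iff_eq_add]
  unfold yPoly
  rw [← Finset.sum_sub_distrib, Finset.sum_eq_single (⟨(0, 0), h00⟩ : A)]
  · simp [pencil]
  · intro w _ hw
    have h : w.1 ≠ (0, 0) := fun h => hw (Subtype.ext h)
    simp [pencil, h]
  · intro h
    exact absurd (Finset.mem_univ _) h

lemma H5_top {R : Type*} [CommRing R] (h01 : (0, 1) ∈ A) (b : Idx A → R) :
    (yPoly (A := A) (pencil b 0) 1).coeff (A.sup Prod.snd) =
      MvPolynomial.eval₂ (Int.castRingHom R) b (topPoly A) := by
  classical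
  have h1 := H5_one_le h01
  have h2 : MvPolynomial.eval₂ (Int.castRingHom R) b (topPoly A) =
      ∑ u : Idx A, if u.1.2 = A.sup Prod.snd then b u else 0 := by
    unfold topPoly
    rw [MvPolynomial.eval₂_sum]
    refine Finset.sum_congr rfl fun u _ => ?_
    split_ifs
    · rw [MvPolynomial.eval₂_X]
    · rw [MvPolynomial.eval₂_zero]
  rw [h2, H5_coeff]
  set g : ℕ × ℕ → R := fun p => if h : p ∈ A.erase (0, 0) then
    (if p.2 = A.sup Prod.snd then b ⟨p, h⟩ else 0) else 0 with hg
  have h3 : ∀ w : A, (if w.1.2 = A.sup Prod.snd then pencil b 0 w * 1 ^ w.1.1 else 0) = g w.1 := by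
    intro w
    rw [one_pow, mul_one, hg]
    by_cases hw : w.1 = (0, 0)
    · have h4 : w.1.2 ≠ A.sup Prod.snd := by
        rw [hw]
        show 0 ≠ _
        omega
      have h5 : w.1 ∉ A.erase (0, 0) := fun h => (Finset.mem_erase.1 h).1 hw
      rw [if_neg h4]
      show _ = dite _ _ _
      rw [dif_neg h5]
    · have h5 : w.1 ∈ A.erase (0, 0) := Finset.mem_erase.2 ⟨hw, w.2⟩
      show _ = dite _ _ _
      rw [dif_pos h5]
      have h6 : pencil b 0 w = b ⟨w.1, h5⟩ := by
        unfold pencil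
        rw [dif_neg hw]
      rw [h6]
  have h4 : ∀ u : Idx A, (if u.1.2 = A.sup Prod.snd then b u else 0) = g u.1 := by
    intro u
    show _ = dite _ _ _
    rw [dif_pos u.2]
  rw [Finset.sum_congr rfl fun w _ => h3 w, Finset.sum_congr rfl fun u _ => h4 u,
    Finset.sum_coe_sort A g, Finset.sum_coe_sort (A.erase (0, 0)) g]
  refine (Finset.sum_erase A ?_).symm
  rw [hg]
  exact dif_neg (fun h => (Finset.mem_erase.1 h).1 rfl)

lemma H5_sep {F : ℂ[X]} {n : ℕ} (hn : 1 ≤ n) (hdeg : F.natDegree = n)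
    (h : FreyAvg.dres n F ≠ 0) : F.Separable := by
  rw [separable_def]
  refine isCoprime_of_irreducible_dvd ?_ ?_
  · rintro ⟨h0, -⟩
    rw [h0, natDegree_zero] at hdeg
    omega
  · intro q hq h1 h2
    exact h (FreyAvg.dres_eq_zero_of_common hn hdeg.le hq.not_isUnit h1 h2)

lemma H5_dres_one {F : ℂ[X]} (hdeg : F.natDegree = 1) : FreyAvg.dres 1 F ≠ 0 := by
  intro h0
  obtain ⟨q, hq, -, hq2⟩ := FreyAvg.exists_common_of_dres_eq_zero le_rfl hdeg
    (by norm_num) h0
  have h1 := FreyAvg.natDegree_derivative_of le_rfl hdeg (k := ℂ) (by norm_num)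
  have h2 : derivative F ≠ 0 := by
    intro h2
    have h3 : (derivative F).coeff 0 = 0 := by rw [h2, coeff_zero]
    rw [coeff_derivative, zero_add, Nat.cast_zero, zero_add, mul_one] at h3
    have h4 : F.leadingCoeff = 0 := by rw [leadingCoeff, hdeg, h3]
    rw [leadingCoeff_eq_zero] at h4
    rw [h4, natDegree_zero] at hdeg
    exact absurd hdeg (by norm_num)
  have h3 := natDegree_le_of_dvd hq2 h2
  rw [h1] at h3
  exact absurd hq.natDegree_pos (by omega)

theorem sep_finite (h00 : (0, 0) ∈ A) (h01 : (0, 1) ∈ A) (b : Idx A → 𝓞 K)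
    (hb : MvPolynomial.eval₂ (Int.castRingHom (𝓞 K)) b (topPoly A) ≠ 0) :
    ∃ E : Finset (𝓞 K), E.card ≤ A.sup Prod.snd ∧ ∀ t ∉ E, ∀ σ : K →+* ℂ,
      {x : ℂ | ¬ ((yPoly (A := A) (fun w => σ (algebraMap (𝓞 K) K (pencil b t w))) x).natDegree =
          A.sup Prod.snd ∧
        (yPoly (A := A) (fun w => σ (algebraMap (𝓞 K) K (pencil b t w))) x).Separable)}.Finite := by
  classical
  have hn := H5_one_le h01
  have hGc := H5_top h01 b
  have hGn : (yPoly (A := A) (pencil b 0) 1).natDegree = A.sup Prod.snd :=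
    natDegree_eq_of_le_of_coeff_ne_zero (natDegree_yPoly_le _ _) (by rw [hGc]; exact hb)
  set n := A.sup Prod.snd with hndef
  set G : (𝓞 K)[X] := yPoly (A := A) (pencil b 0) 1 with hG
  -- the exceptional set
  have hE : {t : 𝓞 K | FreyAvg.dres n (C t + G) = 0}.Finite ∧
      {t : 𝓞 K | FreyAvg.dres n (C t + G) = 0}.ncard ≤ n := by
    have σ₀ : K →+* ℂ := Classical.arbitrary _
    by_cases h2 : 2 ≤ n
    · have h3 := FreyAvg.dres_values (FreyAvg.emb σ₀) (FreyAvg.emb_injective σ₀) h2 hGn 0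
      exact ⟨h3.1, h3.2.trans (by omega)⟩
    · have h3 : {t : 𝓞 K | FreyAvg.dres n (C t + G) = 0} = ∅ := by
        rw [Set.eq_empty_iff_forall_notMem]
        intro t ht
        have h4 : FreyAvg.dres n (C t + G) = 0 := ht
        have hn1 : n = 1 := by omega
        rw [hn1] at h4
        have h5 : FreyAvg.dres 1 ((C t + G).map (FreyAvg.emb σ₀)) = 0 := by
          rw [FreyAvg.dres_map, h4, map_zero]
        refine H5_dres_one ?_ h5
        rw [natDegree_map_eq_of_injective (FreyAvg.emb_injective σ₀), natDegree_C_add, hGn, hn1]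
      rw [h3]
      exact ⟨Set.finite_empty, by rw [Set.ncard_empty]; exact Nat.zero_le _⟩
  refine ⟨hE.1.toFinset, ?_, ?_⟩
  · rw [← Set.ncard_eq_toFinset_card _ hE.1]
    exact hE.2
  intro t ht σ
  have ht0 : FreyAvg.dres n (C t + G) ≠ 0 := by
    intro h
    exact ht (hE.1.mem_toFinset.2 h)
  set a : A → ℂ := fun w => σ (algebraMap (𝓞 K) K (pencil b t w)) with ha
  -- the polynomial `F^σ(X, Y)`
  set P : ℂ[X][X] := yPoly (A := A) (fun w => C (a w)) X with hP
  have hPx : ∀ x : ℂ, P.map (evalRingHom x) = yPoly a x := by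
    intro x
    rw [hP, H5_map]
    simp only [coe_evalRingHom, eval_C, eval_X]
  have h1 : yPoly a 1 = (C t + G).map (FreyAvg.emb σ) := by
    rw [hG, ← H5_pencil h00, H5_map, map_one]
    rfl
  have hQ : P.coeff n * FreyAvg.dres n P ≠ 0 := by
    intro h0
    have h2 : ((P.coeff n) * FreyAvg.dres n P).eval 1 = 0 := by rw [h0, eval_zero]
    rw [eval_mul, mul_eq_zero] at h2
    rcases h2 with h2 | h2
    · have h3 : (P.map (evalRingHom (1 : ℂ))).coeff n = 0 := by
        rw [coeff_map]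
        exact h2
      rw [hPx, h1, coeff_map, coeff_add, coeff_C, if_neg (by omega), zero_add, hGc] at h3
      exact hb (FreyAvg.emb_injective σ (by rw [h3, map_zero]))
    · have h3 : FreyAvg.dres n (P.map (evalRingHom (1 : ℂ))) = 0 := by
        rw [FreyAvg.dres_map]
        exact h2
      rw [hPx, h1, FreyAvg.dres_map] at h3
      exact ht0 (FreyAvg.emb_injective σ (by rw [h3, map_zero]))
  refine Set.Finite.subset (Finset.finite_toSet (P.coeff n * FreyAvg.dres n P).roots.toFinset) ?_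
  intro x hx
  rw [Finset.mem_coe, Multiset.mem_toFinset, mem_roots hQ, IsRoot.def]
  by_contra hcon
  rw [eval_mul, mul_eq_zero, not_or] at hcon
  apply hx
  have h2 : (yPoly a x).natDegree = n := by
    refine natDegree_eq_of_le_of_coeff_ne_zero (natDegree_yPoly_le _ _) ?_
    rw [← hPx, coeff_map]
    exact hcon.1
  refine ⟨h2, H5_sep hn h2 ?_⟩
  rw [← hPx, FreyAvg.dres_map]
  exact hcon.2

end FreyTor
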