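import Pool.Agent.Lib.MP_6babc4_nt.TF.D1
import Pool.Agent.Lib.MP_6babc4_nt.TF.CA
import Pool.Agent.Lib.MP_6babc4_nt.TF.H4
import Pool.Agent.Lib.MP_6babc4_nt.TF.H5

/-!
# TF/F1: the exceptions in a pencil

PROOF. Take `h₀, P` from `universal` and `h = h₀ * topPoly A`. Let `s` be the sum over the interior
points of `1 - l₁ i - l₂ j` (all terms are `≥ μ > 0` by `inner_weight`), `R = H ^ (s / κ) ≥ 1`,
`c = max (C of height_le) (constants)`. Let `t ∈ Box K H` be outside the finite set `E` of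
`sep_finite` (at most `n` elements), with `D(t) = Dval P b t ≠ 0` (outside at most `natDegree P`
elements, `Dval_fibre` with `e = 0`), and `nodalConductor (pencil b t) > R`. With `ρ₁ = H ^ l₁`,
`ρ₂ = H ^ l₂`, `T = H` the hypothesis of `height_le` is the box condition, and
`height ≤ s log H + C = κ log R + C ≤ κ log (nodalConductor) + C`: no exception. The number of `t`
with `D(t) ≠ 0` and `nodalConductor ≤ R` is `≤ C R H ^ ε` by `count_abs` with `J = h₀(b)`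
(`eval_box`, `evalP_box`, `prod_le`, `Dval_fibre`).
-/

open NumberField MvPolynomial

namespace FreyTor

universe u

/-- The sum over the interior lattice points of the weights `1 - l₁ i - l₂ j`. -/
noncomputable def wsum (A : Finset (ℕ × ℕ)) (l₁ l₂ : ℝ) : ℝ :=
  ∑ w ∈ inner A, (1 - l₁ * (w.1 : ℝ) - l₂ * (w.2 : ℝ))

theorem pencil_count (K : Type u) [Field K] [NumberField K] (A : Finset (ℕ × ℕ))
    (h00 : (0, 0) ∈ A) (h01 : (0, 1) ∈ A) {h₀ : Rg A} {P : Polynomial (Rg A)}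
    (hP : CritPoly.{u} A h₀ P) (l₁ l₂ μ : ℝ) (hl₁ : 0 ≤ l₁) (hl₂ : 0 ≤ l₂) (hμ : 0 < μ)
    (hA : ∀ u ∈ A, l₁ * (u.1 : ℝ) + l₂ * (u.2 : ℝ) + μ ≤ 1) (κ ε : ℝ) (hκ : 0 < κ) (hε : 0 < ε) :
    ∃ c : ℝ, 0 < c ∧ ∀ H : ℝ, 1 ≤ H → ∀ b : Idx A → 𝓞 K,
      (∀ u : Idx A, b u ∈ FreyAvg.Box K (H ^ (1 - l₁ * (u.1.1 : ℝ) - l₂ * (u.1.2 : ℝ)))) →
      eval₂ (Int.castRingHom (𝓞 K)) b (h₀ * topPoly A) ≠ 0 →
      ({t ∈ FreyAvg.Box K H | ¬ Frey κ c (pencil (A := A) b t)}.ncard : ℝ) ≤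
        c * H ^ (wsum A l₁ l₂ / κ + ε) := by
  classical
  obtain ⟨C₁, hC₁, hheight⟩ := height_le.{u} A h01
  obtain ⟨Ch, kh, hCh, hhbox⟩ := eval_box (K := K) h₀
  obtain ⟨CP, kP, hCP, hPbox⟩ := evalP_box (K := K) P
  set A₀ : ℝ := max Ch CP with hA₀
  set k₀ : ℕ := max kh kP with hk₀
  obtain ⟨C₂, hC₂, hcount⟩ := count_abs (K := K) hε P.natDegree A₀ k₀
  set s : ℝ := wsum A l₁ l₂ with hs
  have hs0 : 0 ≤ s := by
    rw [hs, wsum]
    refine Finset.sum_nonneg fun w hw => ?_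
    have := inner_weight hA hw
    linarith
  refine ⟨C₁ + ((A.sup Prod.snd : ℕ) + P.natDegree + C₂), by positivity, ?_⟩
  intro H hH b hb hne
  have hH0 : (0 : ℝ) < H := lt_of_lt_of_le one_pos hH
  rw [eval₂_mul] at hne
  have hh : eval₂ (Int.castRingHom (𝓞 K)) b h₀ ≠ 0 := left_ne_zero_of_mul hne
  have htop : eval₂ (Int.castRingHom (𝓞 K)) b (topPoly A) ≠ 0 := right_ne_zero_of_mul hne
  have hbH : ∀ u : Idx A, b u ∈ FreyAvg.Box K H := by
    intro u σ
    refine (hb u σ).trans ?_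
    calc H ^ (1 - l₁ * (u.1.1 : ℝ) - l₂ * (u.1.2 : ℝ)) ≤ H ^ (1 : ℝ) := by
          apply Real.rpow_le_rpow_of_exponent_le hH
          have h1 : 0 ≤ l₁ * (u.1.1 : ℝ) := by positivity
          have h2 : 0 ≤ l₂ * (u.1.2 : ℝ) := by positivity
          linarith
      _ = H := Real.rpow_one H
  have hmono : ∀ (C : ℝ) (k : ℕ), 0 < C → C ≤ A₀ → k ≤ k₀ → C * H ^ k ≤ A₀ * H ^ k₀ := by
    intro C k hC hCA hk
    have h1 : H ^ k ≤ H ^ k₀ := pow_le_pow_right₀ hH hk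
    have h2 : (0 : ℝ) < H ^ k := by positivity
    calc C * H ^ k ≤ A₀ * H ^ k := mul_le_mul_of_nonneg_right hCA h2.le
      _ ≤ A₀ * H ^ k₀ := mul_le_mul_of_nonneg_left h1 (hC.le.trans hCA)
  have hJ : eval₂ (Int.castRingHom (𝓞 K)) b h₀ ∈ FreyAvg.Box K (A₀ * H ^ k₀) := fun σ =>
    (hhbox H hH b hbH σ).trans (hmono Ch kh hCh (le_max_left _ _) (le_max_left _ _))
  have hDbox : ∀ t ∈ FreyAvg.Box K H, Dval P b t ∈ FreyAvg.Box K (A₀ * H ^ k₀) := by
    intro t ht σ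
    refine le_trans ?_ (hmono CP kP hCP (le_max_right _ _) (le_max_right _ _))
    exact hPbox H hH b hbH t ht σ
  have hfib : ∀ e : 𝓞 K, ∀ S : Finset (𝓞 K), (∀ t ∈ S, Dval P b t = e) →
      S.card ≤ P.natDegree := fun e S hS => Dval_fibre hP b hh e S hS
  obtain ⟨E, hEcard, hE⟩ := sep_finite h00 h01 b htop
  set R : ℝ := H ^ (s / κ) with hR
  have hR1 : 1 ≤ R := Real.one_le_rpow hH (div_nonneg hs0 hκ.le)
  have hBfin : (FreyAvg.Box K H).Finite := FreyAvg.box_finite H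
  set Z : Finset (𝓞 K) := hBfin.toFinset.filter (fun t => Dval P b t = 0) with hZ
  set S : Finset (𝓞 K) := hBfin.toFinset.filter (fun t => Dval P b t ≠ 0 ∧
      (∏ p ∈ FreyAvg.pr (Ideal.span {Dval P b t}) \
        FreyAvg.pr (Ideal.span {eval₂ (Int.castRingHom (𝓞 K)) b h₀}),
        ((Ideal.absNorm p : ℕ) : ℝ)) ≤ R) with hS
  have hZcard : Z.card ≤ P.natDegree :=
    hfib 0 Z (fun t ht => (Finset.mem_filter.1 ht).2)
  have hScard : (S.card : ℝ) ≤ C₂ * R * H ^ ε := by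
    refine hcount H hH _ hh hJ (Dval P b) hDbox hfib R hR1 S fun t ht => ?_
    have h1 := Finset.mem_filter.1 ht
    exact ⟨hBfin.mem_toFinset.1 h1.1, h1.2.1, h1.2.2⟩
  set c : ℝ := C₁ + ((A.sup Prod.snd : ℕ) + P.natDegree + C₂) with hc
  -- the exceptional set is contained in `E ∪ Z ∪ S`
  have hsub : {t ∈ FreyAvg.Box K H | ¬ Frey κ c (pencil (A := A) b t)} ⊆
      ((E ∪ Z ∪ S : Finset (𝓞 K)) : Set (𝓞 K)) := by
    rintro t ⟨ht, hfrey⟩
    by_contra hnot
    rw [Finset.mem_coe, Finset.mem_union, Finset.mem_union, not_or, not_or] at hnot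
    obtain ⟨⟨hnE, hnZ⟩, hnS⟩ := hnot
    have hD : Dval P b t ≠ 0 := by
      intro h0
      exact hnZ (Finset.mem_filter.2 ⟨hBfin.mem_toFinset.2 ht, h0⟩)
    have hprod : R < ∏ p ∈ FreyAvg.pr (Ideal.span {Dval P b t}) \
        FreyAvg.pr (Ideal.span {eval₂ (Int.castRingHom (𝓞 K)) b h₀}),
        ((Ideal.absNorm p : ℕ) : ℝ) := by
      by_contra hle
      exact hnS (Finset.mem_filter.2 ⟨hBfin.mem_toFinset.2 ht, hD, not_lt.1 hle⟩)
    have hle := prod_le hP h00 b t hh hD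
    have hnc : R < (nodalConductor (A := A) (pencil b t) : ℝ) := by
      refine lt_of_lt_of_le hprod ?_
      have h1 : ((∏ p ∈ FreyAvg.pr (Ideal.span {Dval P b t}) \
          FreyAvg.pr (Ideal.span {eval₂ (Int.castRingHom (𝓞 K)) b h₀}),
          Ideal.absNorm p : ℕ) : ℝ) ≤ (nodalConductor (A := A) (pencil b t) : ℝ) := by
        exact_mod_cast hle
      rw [Nat.cast_prod] at h1
      exact h1
    apply hfrey
    have hl1 : (0 : ℝ) < H ^ l₁ := Real.rpow_pos_of_pos hH0 _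
    have hl2 : (0 : ℝ) < H ^ l₂ := Real.rpow_pos_of_pos hH0 _
    have hpow : ∀ i j : ℕ, (H ^ l₁) ^ i * (H ^ l₂) ^ j = H ^ (l₁ * (i : ℝ) + l₂ * (j : ℝ)) := by
      intro i j
      rw [Real.rpow_add hH0, Real.rpow_mul hH0.le, Real.rpow_mul hH0.le, Real.rpow_natCast,
        Real.rpow_natCast]
    have hin : ∀ w ∈ inner A, (H ^ l₁) ^ w.1 * (H ^ l₂) ^ w.2 ≤ H := by
      intro w hw
      rw [hpow]
      calc H ^ (l₁ * (w.1 : ℝ) + l₂ * (w.2 : ℝ)) ≤ H ^ (1 : ℝ) := by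
            apply Real.rpow_le_rpow_of_exponent_le hH
            have := inner_weight hA hw
            linarith
        _ = H := Real.rpow_one H
    have hbox : ∀ (w : A) (σ : K →+* ℂ),
        ‖σ (algebraMap (𝓞 K) K (pencil (A := A) b t w))‖ * (H ^ l₁) ^ w.1.1 * (H ^ l₂) ^ w.1.2
          ≤ H := by
      intro w σ
      by_cases hw : w.1 = (0, 0)
      · have h1 : pencil (A := A) b t w = t := by simp [pencil, hw]
        rw [h1, hw]
        simp only [pow_zero, mul_one]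
        exact ht σ
      · have h1 : pencil (A := A) b t w = b ⟨w.1, Finset.mem_erase.mpr ⟨hw, w.2⟩⟩ := by
          simp [pencil, hw]
        rw [h1, mul_assoc, hpow]
        have h2 := hb ⟨w.1, Finset.mem_erase.mpr ⟨hw, w.2⟩⟩ σ
        calc ‖σ (algebraMap (𝓞 K) K (b ⟨w.1, Finset.mem_erase.mpr ⟨hw, w.2⟩⟩))‖ *
              H ^ (l₁ * (w.1.1 : ℝ) + l₂ * (w.1.2 : ℝ))
            ≤ H ^ (1 - l₁ * (w.1.1 : ℝ) - l₂ * (w.1.2 : ℝ)) *
              H ^ (l₁ * (w.1.1 : ℝ) + l₂ * (w.1.2 : ℝ)) :=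
              mul_le_mul_of_nonneg_right h2 (Real.rpow_nonneg hH0.le _)
          _ = H ^ (1 : ℝ) := by
              rw [← Real.rpow_add hH0]
              congr 1
              ring
          _ = H := Real.rpow_one H
    have hht := hheight K (H ^ l₁) (H ^ l₂) H hl1 hl2 hH0 hin (pencil (A := A) b t) hbox
      (fun σ => hE t hnE σ)
    have hsum : ∑ w ∈ inner A, (Real.log H - w.1 * Real.log (H ^ l₁) - w.2 * Real.log (H ^ l₂))
        = s * Real.log H := by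
      rw [hs, wsum, Finset.sum_mul]
      refine Finset.sum_congr rfl fun w _ => ?_
      rw [Real.log_rpow hH0, Real.log_rpow hH0]
      ring
    rw [hsum] at hht
    unfold Frey
    have hlogR : Real.log R = s / κ * Real.log H := Real.log_rpow hH0 _
    have h3 : Real.log R ≤ Real.log (nodalConductor (A := A) (pencil b t)) :=
      Real.log_le_log (lt_of_lt_of_le one_pos hR1) hnc.le
    have h4 : s * Real.log H ≤ κ * Real.log (nodalConductor (A := A) (pencil b t)) := by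
      have h5 : κ * Real.log R = s * Real.log H := by
        rw [hlogR]
        field_simp
      rw [← h5]
      exact mul_le_mul_of_nonneg_left h3 hκ.le
    have h6 : C₁ ≤ c := by
      rw [hc]
      have : (0 : ℝ) ≤ ((A.sup Prod.snd : ℕ) : ℝ) + P.natDegree + C₂ := by positivity
      linarith
    linarith
  have hcard : ({t ∈ FreyAvg.Box K H | ¬ Frey κ c (pencil (A := A) b t)}.ncard : ℝ) ≤
      (A.sup Prod.snd : ℕ) + P.natDegree + C₂ * R * H ^ ε := by
    have h1 : {t ∈ FreyAvg.Box K H | ¬ Frey κ c (pencil (A := A) b t)}.ncard ≤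
        (E ∪ Z ∪ S).card := by
      rw [← Set.ncard_coe_finset]
      exact Set.ncard_le_ncard hsub (Finset.finite_toSet _)
    have h2 : (E ∪ Z ∪ S).card ≤ E.card + Z.card + S.card :=
      (Finset.card_union_le _ _).trans (Nat.add_le_add_right (Finset.card_union_le _ _) _)
    have h3 : ((E ∪ Z ∪ S).card : ℝ) ≤ E.card + Z.card + S.card := by exact_mod_cast h2
    have h4 : (E.card : ℝ) ≤ (A.sup Prod.snd : ℕ) := by exact_mod_cast hEcard
    have h5 : (Z.card : ℝ) ≤ P.natDegree := by exact_mod_cast hZcard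
    have h6 : ({t ∈ FreyAvg.Box K H | ¬ Frey κ c (pencil (A := A) b t)}.ncard : ℝ) ≤
        (E ∪ Z ∪ S).card := by exact_mod_cast h1
    linarith
  have hQ : R * H ^ ε = H ^ (s / κ + ε) := by rw [hR, ← Real.rpow_add hH0]
  have hQ1 : 1 ≤ H ^ (s / κ + ε) :=
    Real.one_le_rpow hH (add_nonneg (div_nonneg hs0 hκ.le) hε.le)
  refine hcard.trans ?_
  rw [mul_assoc, hQ, hc]
  have h7 : (0 : ℝ) ≤ ((A.sup Prod.snd : ℕ) : ℝ) + P.natDegree := by positivity
  nlinarith [mul_nonneg h7 (sub_nonneg.2 hQ1), mul_nonneg hC₁.le (le_trans zero_le_one hQ1)]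

end FreyTor
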