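import Pool.Agent.Lib.MP_6babc4_nt.TF.F1
import Pool.Agent.Lib.MP_6babc4_nt.TF.C3

/-!
# TF/F2: the main theorem

PROOF. `Family K A l₁ l₂ H` is in bijection with the pairs `(b, t)`, `b` in the product `S` of the
boxes of the `u ∈ I`, `t ∈ Box K H`, through `pencil`. Exceptions with `h(b) ≠ 0`: at most
`#S * c H^(s/κ + ε) ≤ #S * #Box K H * (c / cb) H^(s/κ - d + ε)` (`FreyAvg.box_card_ge`); `b` with
`h(b) = 0`: at most `C / (cb H^(d μ)) * #S` by `zeros_le`, because every box has at least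
`cb (H ^ (1 - l₁ i - l₂ j)) ^ d ≥ cb H ^ (d μ)` elements. `Frey κ c a` is monotone in `c`.
-/

open NumberField MvPolynomial

namespace FreyTor

universe u

section Pairs

variable {K : Type*} [Field K] [NumberField K]

open Classical in
/-- From the pencils to the pairs. -/
theorem F2_pairs {ι : Type*} [Fintype ι] (q : MvPolynomial ι ℤ) {C s E : ℝ} (S₀ : Finset (𝓞 K))
    (S : ι → Finset (𝓞 K))
    (hz : (((Fintype.piFinset S).filter
        (fun b => eval₂ (Int.castRingHom (𝓞 K)) b q = 0)).card : ℝ) ≤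
        C / s * ∏ i, ((S i).card : ℝ))
    (hE : 0 ≤ E) (Bad : 𝓞 K → (ι → 𝓞 K) → Prop)
    (hbad : ∀ b : ι → 𝓞 K, (∀ i, b i ∈ S i) → eval₂ (Int.castRingHom (𝓞 K)) b q ≠ 0 →
      ({t | t ∈ S₀ ∧ Bad t b}.ncard : ℝ) ≤ E) :
    ({x : 𝓞 K × (ι → 𝓞 K) | x.1 ∈ S₀ ∧ ∀ i, x.2 i ∈ S i}.ncard : ℝ) =
      (S₀.card : ℝ) * ∏ i, ((S i).card : ℝ) ∧
    ({x : 𝓞 K × (ι → 𝓞 K) | x.1 ∈ S₀ ∧ ∀ i, x.2 i ∈ S i}).Finite ∧
    ({x : 𝓞 K × (ι → 𝓞 K) | (x.1 ∈ S₀ ∧ ∀ i, x.2 i ∈ S i) ∧ Bad x.1 x.2}.ncard : ℝ) ≤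
      (E + C / s * (S₀.card : ℝ)) * ∏ i, ((S i).card : ℝ) := by
  set T := Fintype.piFinset S with hT
  have hTcard : (T.card : ℝ) = ∏ i, ((S i).card : ℝ) := by
    rw [hT, Fintype.card_piFinset]
    push_cast
    rfl
  have hset : {x : 𝓞 K × (ι → 𝓞 K) | x.1 ∈ S₀ ∧ ∀ i, x.2 i ∈ S i} =
      ((S₀ ×ˢ T : Finset (𝓞 K × (ι → 𝓞 K))) : Set (𝓞 K × (ι → 𝓞 K))) := by
    ext x
    rw [Finset.mem_coe, Finset.mem_product, hT, Fintype.mem_piFinset]
    rfl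
  set W := (S₀ ×ˢ T).filter (fun x => Bad x.1 x.2) with hW
  have hsetW : {x : 𝓞 K × (ι → 𝓞 K) | (x.1 ∈ S₀ ∧ ∀ i, x.2 i ∈ S i) ∧ Bad x.1 x.2} =
      (W : Set (𝓞 K × (ι → 𝓞 K))) := by
    ext x
    rw [hW, Finset.mem_coe, Finset.mem_filter, Finset.mem_product, hT, Fintype.mem_piFinset]
    rfl
  refine ⟨?_, ?_, ?_⟩
  · rw [hset, Set.ncard_coe_finset, Finset.card_product, Nat.cast_mul, hTcard]
  · rw [hset]
    exact Finset.finite_toSet _
  rw [hsetW, Set.ncard_coe_finset]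
  have hmaps : ∀ x ∈ W, x.2 ∈ T := by
    intro x hx
    exact (Finset.mem_product.mp (Finset.mem_filter.mp hx).1).2
  have hsum : (W.card : ℝ) = ∑ a ∈ T, ((W.filter (fun x => x.2 = a)).card : ℝ) := by
    exact_mod_cast Finset.card_eq_sum_card_fiberwise hmaps
  have hfib : ∀ a ∈ T, ((W.filter (fun x => x.2 = a)).card : ℝ) ≤
      ((S₀.filter (fun t => Bad t a)).card : ℝ) := by
    intro a _
    have : (W.filter (fun x => x.2 = a)).card ≤ (S₀.filter (fun t => Bad t a)).card := by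
      refine Finset.card_le_card_of_injOn (fun x => x.1) ?_ ?_
      · intro x hx
        rw [Finset.mem_coe, Finset.mem_filter, hW, Finset.mem_filter, Finset.mem_product] at hx
        rw [Finset.mem_coe, Finset.mem_filter]
        obtain ⟨⟨⟨h1, h2⟩, h3⟩, h4⟩ := hx
        rw [← h4]
        exact ⟨h1, h3⟩
      · intro x hx y hy hxy
        rw [Finset.mem_coe, Finset.mem_filter] at hx hy
        exact Prod.ext hxy (hx.2.trans hy.2.symm)
    exact_mod_cast this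
  have hbad' : ∀ b ∈ T, eval₂ (Int.castRingHom (𝓞 K)) b q ≠ 0 →
      ((S₀.filter (fun t => Bad t b)).card : ℝ) ≤ E := by
    intro b hb hq
    have h1 := hbad b (fun i => Fintype.mem_piFinset.mp hb i) hq
    have h2 : {t | t ∈ S₀ ∧ Bad t b} =
        ((S₀.filter (fun t => Bad t b) : Finset (𝓞 K)) : Set (𝓞 K)) := by
      ext t
      rw [Finset.mem_coe, Finset.mem_filter]
      rfl
    rwa [h2, Set.ncard_coe_finset] at h1
  have hsplit := Finset.sum_filter_add_sum_filter_not T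
    (fun a => eval₂ (Int.castRingHom (𝓞 K)) a q = 0)
    (fun a => ((W.filter (fun x => x.2 = a)).card : ℝ))
  have hs1 : ∑ a ∈ T.filter (fun a => eval₂ (Int.castRingHom (𝓞 K)) a q = 0),
      ((W.filter (fun x => x.2 = a)).card : ℝ) ≤
      C / s * (∏ i, ((S i).card : ℝ)) * (S₀.card : ℝ) := by
    calc _ ≤ ∑ _a ∈ T.filter (fun a => eval₂ (Int.castRingHom (𝓞 K)) a q = 0),
            (S₀.card : ℝ) := by
          refine Finset.sum_le_sum fun a ha => ?_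
          refine (hfib a (Finset.mem_filter.mp ha).1).trans ?_
          exact_mod_cast Finset.card_filter_le _ _
      _ = ((T.filter (fun a => eval₂ (Int.castRingHom (𝓞 K)) a q = 0)).card : ℝ) *
            (S₀.card : ℝ) := by
          rw [Finset.sum_const, nsmul_eq_mul]
      _ ≤ _ := mul_le_mul_of_nonneg_right hz (Nat.cast_nonneg _)
  have hs2 : ∑ a ∈ T.filter (fun a => ¬ eval₂ (Int.castRingHom (𝓞 K)) a q = 0),
      ((W.filter (fun x => x.2 = a)).card : ℝ) ≤ E * ∏ i, ((S i).card : ℝ) := by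
    calc _ ≤ ∑ _a ∈ T.filter (fun a => ¬ eval₂ (Int.castRingHom (𝓞 K)) a q = 0), E := by
          refine Finset.sum_le_sum fun a ha => ?_
          obtain ⟨h1, h2⟩ := Finset.mem_filter.mp ha
          exact (hfib a h1).trans (hbad' a h1 h2)
      _ = ((T.filter (fun a => ¬ eval₂ (Int.castRingHom (𝓞 K)) a q = 0)).card : ℝ) * E := by
          rw [Finset.sum_const, nsmul_eq_mul]
      _ ≤ (T.card : ℝ) * E := by
          have := Finset.card_filter_le T (fun a => ¬ eval₂ (Int.castRingHom (𝓞 K)) a q = 0)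
          gcongr
      _ = _ := by rw [hTcard, mul_comm]
  rw [hsum, ← hsplit]
  refine (add_le_add hs1 hs2).trans (le_of_eq ?_)
  ring

end Pairs

lemma F2_frey_mono {K : Type u} [Field K] [NumberField K] {A : Finset (ℕ × ℕ)} {κ c c' : ℝ}
    (h : c ≤ c') {a : A → 𝓞 K} (hf : Frey κ c a) : Frey κ c' a := by
  unfold Frey at hf ⊢
  linarith

lemma F2_pencil_zero {R : Type*} [CommRing R] {A : Finset (ℕ × ℕ)} (h00 : (0, 0) ∈ A)
    (b : Idx A → R) (t : R) : pencil (A := A) b t ⟨(0, 0), h00⟩ = t := by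
  simp [pencil]

lemma F2_pencil_idx {R : Type*} [CommRing R] {A : Finset (ℕ × ℕ)}
    (b : Idx A → R) (t : R) (u : Idx A) :
    pencil (A := A) b t ⟨u.1, Finset.mem_of_mem_erase u.2⟩ = b u := by
  have h : (u.1 : ℕ × ℕ) ≠ (0, 0) := Finset.ne_of_mem_erase u.2
  simp [pencil, h]

lemma F2_pencil_surj {R : Type*} [CommRing R] {A : Finset (ℕ × ℕ)} (h00 : (0, 0) ∈ A)
    (a : A → R) : pencil (A := A) (fun u : Idx A => a ⟨u.1, Finset.mem_of_mem_erase u.2⟩)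
      (a ⟨(0, 0), h00⟩) = a := by
  ext w
  by_cases h : w.1 = (0, 0)
  · have hw : w = ⟨(0, 0), h00⟩ := Subtype.ext h
    rw [hw, F2_pencil_zero]
  · simp [pencil, h]

lemma F2_pencil_inj {R : Type*} [CommRing R] {A : Finset (ℕ × ℕ)} (h00 : (0, 0) ∈ A) :
    Function.Injective (fun x : R × (Idx A → R) => pencil (A := A) x.2 x.1) := by
  intro x y hxy
  have h : pencil (A := A) x.2 x.1 = pencil (A := A) y.2 y.1 := hxy
  refine Prod.ext ?_ ?_
  · have := congrFun h ⟨(0, 0), h00⟩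
    rwa [F2_pencil_zero, F2_pencil_zero] at this
  · ext u
    have := congrFun h ⟨u.1, Finset.mem_of_mem_erase u.2⟩
    rw [F2_pencil_idx, F2_pencil_idx] at this
    rw [this]

theorem main (A : Finset (ℕ × ℕ))
    (h00 : (0, 0) ∈ A) (h10 : (1, 0) ∈ A) (h01 : (0, 1) ∈ A) (h11 : (1, 1) ∈ A) :
    ∃ h : Rg A, h ≠ 0 ∧ ∀ (K : Type u) [Field K] [NumberField K] (l₁ l₂ μ : ℝ), 0 ≤ l₁ →
      0 ≤ l₂ → 0 < μ → (∀ u ∈ A, l₁ * (u.1 : ℝ) + l₂ * (u.2 : ℝ) + μ ≤ 1) →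
      ∀ κ ε : ℝ, 0 < κ → 0 < ε → ∃ c : ℝ, ∀ H : ℝ, 1 ≤ H →
      (FreyAvg.Box K H).Finite ∧ (Family K A l₁ l₂ H).Finite ∧
      ({a ∈ Family K A l₁ l₂ H | ¬ Frey κ c a}.ncard : ℝ) ≤
        c * (H ^ (wsum A l₁ l₂ / κ - Module.finrank ℚ K + ε) +
          H ^ (-((Module.finrank ℚ K : ℝ) * μ))) * ((Family K A l₁ l₂ H).ncard : ℝ) ∧
      ∀ b : Idx A → 𝓞 K,
        (∀ u : Idx A, b u ∈ FreyAvg.Box K (H ^ (1 - l₁ * (u.1.1 : ℝ) - l₂ * (u.1.2 : ℝ)))) →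
        eval₂ (Int.castRingHom (𝓞 K)) b h ≠ 0 →
        ({t ∈ FreyAvg.Box K H | ¬ Frey κ c (pencil (A := A) b t)}.ncard : ℝ) ≤
          c * H ^ (wsum A l₁ l₂ / κ - Module.finrank ℚ K + ε) *
            ((FreyAvg.Box K H).ncard : ℝ) := by
  obtain ⟨h₀, P, hh₀, hP1, hP2, hP3⟩ := universal.{u} h10 h01 h11
  have hP : CritPoly.{u} A h₀ P := ⟨hh₀, hP1, hP2, hP3⟩
  have hq0 : h₀ * topPoly A ≠ 0 := mul_ne_zero hh₀ (topPoly_ne_zero h01)
  refine ⟨h₀ * topPoly A, hq0, ?_⟩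
  intro K _ _ l₁ l₂ μ hl₁ hl₂ hμ hA κ ε hκ hε
  obtain ⟨c₁, hc₁, hpen⟩ := pencil_count K A h00 h01 hP l₁ l₂ μ hl₁ hl₂ hμ hA κ ε hκ hε
  obtain ⟨cb, hcb, hbox⟩ := FreyAvg.box_card_ge (K := K)
  obtain ⟨C, hC, hzer⟩ := zeros_le (K := K) (h₀ * topPoly A) hq0
  set d := Module.finrank ℚ K with hd
  set θ : ℝ := wsum A l₁ l₂ / κ with hθ
  set q := h₀ * topPoly A with hq
  set c : ℝ := c₁ + (c₁ + C) / cb with hc
  have hc1 : c₁ ≤ c := by
    have : 0 ≤ (c₁ + C) / cb := by positivity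
    linarith
  have hc2 : c₁ / cb ≤ c := by
    have h1 : c₁ / cb ≤ (c₁ + C) / cb := by gcongr; linarith
    linarith
  have hc3 : C / cb ≤ c := by
    have h1 : C / cb ≤ (c₁ + C) / cb := by gcongr; linarith
    linarith
  refine ⟨c, ?_⟩
  intro H hH
  have hH0 : 0 < H := by linarith
  have hcard : cb * H ^ (d : ℝ) ≤ ((FreyAvg.Box K H).ncard : ℝ) := by
    rw [Real.rpow_natCast]
    exact hbox H hH
  -- one pencil
  have hone : ∀ b : Idx A → 𝓞 K,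
      (∀ u : Idx A, b u ∈ FreyAvg.Box K (H ^ (1 - l₁ * (u.1.1 : ℝ) - l₂ * (u.1.2 : ℝ)))) →
      eval₂ (Int.castRingHom (𝓞 K)) b q ≠ 0 →
      ({t ∈ FreyAvg.Box K H | ¬ Frey κ c (pencil (A := A) b t)}.ncard : ℝ) ≤
        c₁ * H ^ (θ + ε) := by
    intro b hb hbq
    refine le_trans ?_ (hpen H hH b hb hbq)
    have h1 : {t ∈ FreyAvg.Box K H | ¬ Frey κ c (pencil (A := A) b t)} ⊆
        {t ∈ FreyAvg.Box K H | ¬ Frey κ c₁ (pencil (A := A) b t)} :=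
      fun t ht => ⟨ht.1, fun h => ht.2 (F2_frey_mono hc1 h)⟩
    exact_mod_cast Set.ncard_le_ncard h1 ((FreyAvg.box_finite H).subset fun t ht => ht.1)
  have hexp : H ^ (θ + ε) = H ^ (θ - d + ε) * H ^ (d : ℝ) := by
    rw [← Real.rpow_add hH0]
    congr 1
    ring
  have hX0 : 0 ≤ H ^ (θ - d + ε) := Real.rpow_nonneg hH0.le _
  have hpencil : ∀ b : Idx A → 𝓞 K,
      (∀ u : Idx A, b u ∈ FreyAvg.Box K (H ^ (1 - l₁ * (u.1.1 : ℝ) - l₂ * (u.1.2 : ℝ)))) →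
      eval₂ (Int.castRingHom (𝓞 K)) b q ≠ 0 →
      ({t ∈ FreyAvg.Box K H | ¬ Frey κ c (pencil (A := A) b t)}.ncard : ℝ) ≤
        c * H ^ (θ - d + ε) * ((FreyAvg.Box K H).ncard : ℝ) := by
    intro b hb hbq
    refine (hone b hb hbq).trans ?_
    calc c₁ * H ^ (θ + ε) = c₁ / cb * H ^ (θ - d + ε) * (cb * H ^ (d : ℝ)) := by
          rw [hexp]
          field_simp
      _ ≤ c * H ^ (θ - d + ε) * ((FreyAvg.Box K H).ncard : ℝ) := by
          gcongr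
  -- the boxes
  have hge1 : ∀ u ∈ A, μ ≤ 1 - l₁ * (u.1 : ℝ) - l₂ * (u.2 : ℝ) := by
    intro u hu
    have := hA u hu
    linarith
  let S₀ : Finset (𝓞 K) := (FreyAvg.box_finite (K := K) H).toFinset
  let S : Idx A → Finset (𝓞 K) := fun u =>
    (FreyAvg.box_finite (K := K) (H ^ (1 - l₁ * (u.1.1 : ℝ) - l₂ * (u.1.2 : ℝ)))).toFinset
  have hS₀ : ∀ t, t ∈ S₀ ↔ t ∈ FreyAvg.Box K H := fun t => Set.Finite.mem_toFinset _
  have hS : ∀ u t, t ∈ S u ↔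
      t ∈ FreyAvg.Box K (H ^ (1 - l₁ * (u.1.1 : ℝ) - l₂ * (u.1.2 : ℝ))) :=
    fun u t => Set.Finite.mem_toFinset _
  have hS₀card : (S₀.card : ℝ) = ((FreyAvg.Box K H).ncard : ℝ) := by
    rw [Set.ncard_eq_toFinset_card _ (FreyAvg.box_finite H)]
  set s : ℝ := cb * H ^ ((d : ℝ) * μ) with hs
  have hs0 : 0 < s := by positivity
  have hSs : ∀ u, s ≤ ((S u).card : ℝ) := by
    intro u
    have hw := hge1 u.1 (Finset.mem_of_mem_erase u.2)
    have h1 : 1 ≤ H ^ (1 - l₁ * (u.1.1 : ℝ) - l₂ * (u.1.2 : ℝ)) :=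
      Real.one_le_rpow hH (hμ.le.trans hw)
    have h2 := hbox _ h1
    rw [Set.ncard_eq_toFinset_card _ (FreyAvg.box_finite _)] at h2
    refine le_trans ?_ h2
    rw [hs, ← Real.rpow_natCast, ← Real.rpow_mul hH0.le]
    have h3 : (d : ℝ) * μ ≤ (1 - l₁ * (u.1.1 : ℝ) - l₂ * (u.1.2 : ℝ)) * (d : ℝ) := by
      rw [mul_comm]
      gcongr
    have h4 := Real.rpow_le_rpow_of_exponent_le hH h3
    exact mul_le_mul_of_nonneg_left h4 hcb.le
  have hz := hzer S s hs0 hSs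
  obtain ⟨htot, hfin, hbadc⟩ := F2_pairs (K := K) q S₀ S hz
    (E := c₁ * H ^ (θ + ε)) (by positivity)
    (fun t b => ¬ Frey κ c (pencil (A := A) b t)) (by
      intro b hb hbq
      have h1 := hone b (fun u => (hS u _).mp (hb u)) hbq
      have h2 : {t | t ∈ S₀ ∧ ¬ Frey κ c (pencil (A := A) b t)} =
          {t ∈ FreyAvg.Box K H | ¬ Frey κ c (pencil (A := A) b t)} := by
        ext t
        exact and_congr_left' (hS₀ t)
      rw [h2]
      exact h1)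
  set Φ : 𝓞 K × (Idx A → 𝓞 K) → (A → 𝓞 K) := fun x => pencil (A := A) x.2 x.1 with hΦ
  have hΦinj : Function.Injective Φ := F2_pencil_inj h00
  have hmem : ∀ x : 𝓞 K × (Idx A → 𝓞 K),
      Φ x ∈ Family K A l₁ l₂ H ↔ (x.1 ∈ S₀ ∧ ∀ i, x.2 i ∈ S i) := by
    intro x
    constructor
    · intro hx
      refine ⟨?_, fun u => ?_⟩
      · have := hx ⟨(0, 0), h00⟩
        rw [hΦ] at this
        simp only [F2_pencil_zero] at this
        rw [hS₀]
        simpa using this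
      · have := hx ⟨u.1, Finset.mem_of_mem_erase u.2⟩
        rw [hΦ] at this
        simp only [F2_pencil_idx] at this
        rw [hS]
        exact this
    · rintro ⟨h1, h2⟩ w
      by_cases hw : w.1 = (0, 0)
      · have hw' : w = ⟨(0, 0), h00⟩ := Subtype.ext hw
        rw [hw', hΦ]
        simp only [F2_pencil_zero]
        rw [hS₀] at h1
        simpa using h1
      · have h3 := h2 ⟨w.1, Finset.mem_erase.mpr ⟨hw, w.2⟩⟩
        rw [hS] at h3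
        have h4 : Φ x w = x.2 ⟨w.1, Finset.mem_erase.mpr ⟨hw, w.2⟩⟩ := by
          rw [hΦ]
          simp [pencil, hw]
        rw [h4]
        exact h3
  have himg : Family K A l₁ l₂ H =
      Φ '' {x : 𝓞 K × (Idx A → 𝓞 K) | x.1 ∈ S₀ ∧ ∀ i, x.2 i ∈ S i} := by
    ext a
    constructor
    · intro ha
      refine ⟨(a ⟨(0, 0), h00⟩, fun u : Idx A => a ⟨u.1, Finset.mem_of_mem_erase u.2⟩), ?_,
        F2_pencil_surj h00 a⟩
      rw [Set.mem_ofPred_eq, ← hmem]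
      rw [hΦ]
      simp only
      rw [F2_pencil_surj h00 a]
      exact ha
    · rintro ⟨x, hx, rfl⟩
      exact (hmem x).mpr hx
  have himgbad : {a ∈ Family K A l₁ l₂ H | ¬ Frey κ c a} =
      Φ '' {x : 𝓞 K × (Idx A → 𝓞 K) | (x.1 ∈ S₀ ∧ ∀ i, x.2 i ∈ S i) ∧
        ¬ Frey κ c (pencil (A := A) x.2 x.1)} := by
    ext a
    constructor
    · rintro ⟨ha1, ha2⟩
      rw [himg] at ha1
      obtain ⟨x, hx, rfl⟩ := ha1
      exact ⟨x, ⟨hx, ha2⟩, rfl⟩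
    · rintro ⟨x, ⟨hx1, hx2⟩, rfl⟩
      exact ⟨(hmem x).mpr hx1, hx2⟩
  refine ⟨FreyAvg.box_finite H, ?_, ?_, hpencil⟩
  · rw [himg]
    exact hfin.image _
  have hncard : ((Family K A l₁ l₂ H).ncard : ℝ) =
      (S₀.card : ℝ) * ∏ i, ((S i).card : ℝ) := by
    rw [himg, Set.ncard_image_of_injective _ hΦinj]
    exact htot
  rw [himgbad, Set.ncard_image_of_injective _ hΦinj, hncard]
  refine hbadc.trans ?_
  have hprod0 : 0 ≤ ∏ i, ((S i).card : ℝ) := Finset.prod_nonneg fun _ _ => Nat.cast_nonneg _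
  have hS₀0 : (0 : ℝ) ≤ S₀.card := Nat.cast_nonneg _
  have hA1 : c₁ * H ^ (θ + ε) ≤ c * H ^ (θ - d + ε) * (S₀.card : ℝ) := by
    rw [hS₀card]
    calc c₁ * H ^ (θ + ε) = c₁ / cb * H ^ (θ - d + ε) * (cb * H ^ (d : ℝ)) := by
          rw [hexp]
          field_simp
      _ ≤ c * H ^ (θ - d + ε) * ((FreyAvg.Box K H).ncard : ℝ) := by
          gcongr
  have hA2 : C / s * (S₀.card : ℝ) ≤ c * H ^ (-((d : ℝ) * μ)) * (S₀.card : ℝ) := by
    have h1 : C / s = C / cb * H ^ (-((d : ℝ) * μ)) := by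
      rw [hs, Real.rpow_neg hH0.le]
      field_simp
    rw [h1]
    have h2 : 0 ≤ H ^ (-((d : ℝ) * μ)) := Real.rpow_nonneg hH0.le _
    gcongr
  calc (c₁ * H ^ (θ + ε) + C / s * (S₀.card : ℝ)) * ∏ i, ((S i).card : ℝ)
      ≤ (c * H ^ (θ - d + ε) * (S₀.card : ℝ) + c * H ^ (-((d : ℝ) * μ)) * (S₀.card : ℝ)) *
          ∏ i, ((S i).card : ℝ) :=
        mul_le_mul_of_nonneg_right (add_le_add hA1 hA2) hprod0
    _ = _ := by ring

end FreyTor
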