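import Pool.Agent.Lib.MP_6babc4_nt.TF.Defs

/-!
# TF/H0: interior lattice points, and the polynomials `F(x, ·)`

PROOFS. `inner_bounds`: an open set contained in the half plane `{p | 0 ≤ p.1}` is contained in
`{p | 0 < p.1}`; the convex hull of `A` is contained in the half planes `0 ≤ p.1`, `0 ≤ p.2`,
`p.2 ≤ A.sup snd` (`convexHull_min`, half spaces are convex), and in
`{p | l₁ p.1 + l₂ p.2 + μ ≤ 1}`.
-/

open Polynomial

namespace FreyTor

variable {A : Finset (ℕ × ℕ)}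

theorem H0_mem {w : ℕ × ℕ} (hw : w ∈ inner A) :
    w.1 < A.sup Prod.fst ∧ w.2 < A.sup Prod.snd ∧ ((w.1 : ℝ), (w.2 : ℝ)) ∈
      interior (convexHull ℝ ((fun u : ℕ × ℕ => ((u.1 : ℝ), (u.2 : ℝ))) '' (A : Set (ℕ × ℕ)))) := by
  classical
  unfold inner at hw
  simp only [Finset.mem_filter, Finset.mem_product, Finset.mem_range] at hw
  exact ⟨hw.1.1, hw.1.2, hw.2⟩

theorem H0_pos {w : ℕ × ℕ} (hw : w ∈ inner A) : 0 < w.1 ∧ 0 < w.2 := by
  obtain ⟨-, -, h⟩ := H0_mem hw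
  have hsub : convexHull ℝ ((fun u : ℕ × ℕ => ((u.1 : ℝ), (u.2 : ℝ))) '' (A : Set (ℕ × ℕ)))
      ⊆ Set.Ici (0 : ℝ) ×ˢ Set.Ici (0 : ℝ) := by
    refine convexHull_min ?_ ((convex_Ici 0).prod (convex_Ici 0))
    rintro _ ⟨u, -, rfl⟩
    simp only [Set.mem_prod, Set.mem_Ici]
    exact ⟨Nat.cast_nonneg u.1, Nat.cast_nonneg u.2⟩
  have h2 := interior_mono hsub h
  rw [interior_prod_eq, interior_Ici] at h2
  obtain ⟨h3, h4⟩ := h2
  simp only [Set.mem_Ioi, Nat.cast_pos] at h3 h4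
  exact ⟨h3, h4⟩

theorem inner_bounds {w : ℕ × ℕ} (hw : w ∈ inner A) :
    1 ≤ w.1 ∧ 1 ≤ w.2 ∧ w.2 + 1 ≤ A.sup Prod.snd :=
  ⟨(H0_pos hw).1, (H0_pos hw).2, (H0_mem hw).2.1⟩

theorem inner_weight {l₁ l₂ μ : ℝ} (hA : ∀ u ∈ A, l₁ * (u.1 : ℝ) + l₂ * (u.2 : ℝ) + μ ≤ 1)
    {w : ℕ × ℕ} (hw : w ∈ inner A) : l₁ * (w.1 : ℝ) + l₂ * (w.2 : ℝ) + μ ≤ 1 := by
  obtain ⟨-, -, h⟩ := H0_mem hw
  have hlin : IsLinearMap ℝ (fun p : ℝ × ℝ => l₁ * p.1 + l₂ * p.2) := by
    constructor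
    · intro p q
      simp only [Prod.fst_add, Prod.snd_add]
      ring
    · intro c p
      simp only [Prod.smul_fst, Prod.smul_snd, smul_eq_mul]
      ring
  have hsub : convexHull ℝ ((fun u : ℕ × ℕ => ((u.1 : ℝ), (u.2 : ℝ))) '' (A : Set (ℕ × ℕ)))
      ⊆ {p : ℝ × ℝ | l₁ * p.1 + l₂ * p.2 ≤ 1 - μ} := by
    refine convexHull_min ?_ (convex_halfSpace_le hlin (1 - μ))
    rintro _ ⟨u, hu, rfl⟩
    have := hA u hu
    simp only [Set.mem_ofPred_eq]
    linarith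
  have h2 := hsub (interior_subset h)
  simp only [Set.mem_ofPred_eq] at h2
  linarith

/-- The polynomial `F(x, Y)` in `Y`. -/
noncomputable def yPoly {R : Type*} [CommRing R] (F : A → R) (x : R) : R[X] :=
  ∑ w : A, C (F w * x ^ w.1.1) * X ^ w.1.2

theorem eval_yPoly {R : Type*} [CommRing R] (F : A → R) (x y : R) :
    (yPoly F x).eval y = val F x y := by
  unfold yPoly val
  rw [eval_finsetSum]
  refine Finset.sum_congr rfl fun w _ => ?_
  rw [eval_mul, eval_C, eval_pow, eval_X]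

theorem eval_derivative_yPoly {R : Type*} [CommRing R] (F : A → R) (x y : R) :
    (derivative (yPoly F x)).eval y = dy F x y := by
  unfold yPoly dy
  rw [derivative_sum, eval_finsetSum]
  refine Finset.sum_congr rfl fun w _ => ?_
  rw [derivative_C_mul_X_pow, eval_mul, eval_C, eval_pow, eval_X, mul_assoc]

theorem natDegree_yPoly_le {R : Type*} [CommRing R] (F : A → R) (x : R) :
    (yPoly F x).natDegree ≤ A.sup Prod.snd := by
  unfold yPoly
  refine natDegree_sum_le_of_forall_le _ _ fun w _ => ?_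
  exact (natDegree_C_mul_X_pow_le _ _).trans (Finset.le_sup (f := Prod.snd) w.2)

/-- The polynomial `P_c(x, Y)` in `Y`. -/
noncomputable def yForm (c : inner A → ℂ) (x : ℂ) : ℂ[X] :=
  ∑ w : inner A, C (c w * x ^ (w.1.1 - 1)) * X ^ (w.1.2 - 1)

theorem eval_yForm (c : inner A → ℂ) (x y : ℂ) : (yForm c x).eval y = form c x y := by
  unfold yForm form
  rw [eval_finsetSum]
  refine Finset.sum_congr rfl fun w _ => ?_
  rw [eval_mul, eval_C, eval_pow, eval_X]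

theorem natDegree_yForm_lt (c : inner A → ℂ) (x : ℂ) (h01 : (0, 1) ∈ A) :
    (yForm c x).natDegree < A.sup Prod.snd := by
  have h1 : 1 ≤ A.sup Prod.snd := Finset.le_sup (f := Prod.snd) h01
  have h2 : (yForm c x).natDegree ≤ A.sup Prod.snd - 1 := by
    unfold yForm
    refine natDegree_sum_le_of_forall_le _ _ fun w _ => ?_
    refine (natDegree_C_mul_X_pow_le _ _).trans ?_
    have := (inner_bounds w.2).2.2
    omega
  omega

end FreyTor
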