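import Mathlib

/-!
# TF/H1: residues bound coefficients (one variable)

PROOF. Let `y_1, .., y_n` be the roots of `q` (distinct), `r_i = p(y_i) / q'(y_i)`. Then
`p = ∑ r_i * (q / (X - y_i))` (both sides are polynomials of degree `< n` that agree at the `n` roots).
The coefficients `b_j` of `q / (X - y)` satisfy `b_(k-1) = q_k + y b_k`; for `|y| ≤ ρ` one uses this
downwards from `b_n = 0`, for `|y| ≥ ρ` upwards from `-y b_0 = q_0`, and gets
`|b_j| ρ^j ≤ n M / ρ`.
-/

open Polynomial

namespace FreyTor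

theorem H1_quot (n : ℕ) (ρ M : ℝ) (hρ : 0 < ρ) (hM : 0 ≤ M) (q g : ℂ[X]) (y : ℂ)
    (hg : q = (X - C y) * g) (hq : ∀ j, ‖q.coeff j‖ * ρ ^ j ≤ M) (hn : ∀ j, n ≤ j → g.coeff j = 0)
    (j : ℕ) : ‖g.coeff j‖ * ρ ^ j ≤ n * (M / ρ) := by
  have hMρ : 0 ≤ M / ρ := by positivity
  have hrec : ∀ k, g.coeff k = q.coeff (k + 1) + y * g.coeff (k + 1) := by
    intro k
    rw [hg, sub_mul, coeff_sub, coeff_X_mul, coeff_C_mul]; ring
  have hzero : q.coeff 0 = -(y * g.coeff 0) := by
    rw [hg, sub_mul, coeff_sub, coeff_C_mul]; simp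
  by_cases hj : n ≤ j
  · rw [hn j hj, norm_zero, zero_mul]; positivity
  push Not at hj
  rcases le_or_gt ‖y‖ ρ with hy | hy
  · -- downwards
    have key : ∀ d k, k + d = n → ‖g.coeff k‖ * ρ ^ k ≤ d * (M / ρ) := by
      intro d
      induction d with
      | zero => intro k hk; rw [hn k (by omega)]; simp
      | succ d ih =>
        intro k hk
        have h1 := ih (k + 1) (by omega)
        have h2 := hq (k + 1)
        have h3 : ‖g.coeff k‖ ≤ ‖q.coeff (k + 1)‖ + ρ * ‖g.coeff (k + 1)‖ := by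
          rw [hrec k]
          refine (norm_add_le _ _).trans ?_
          rw [norm_mul]
          gcongr
        have h4 : ‖g.coeff k‖ * ρ ^ k ≤
            (‖q.coeff (k + 1)‖ * ρ ^ (k + 1)) / ρ + ‖g.coeff (k + 1)‖ * ρ ^ (k + 1) := by
          calc ‖g.coeff k‖ * ρ ^ k
              ≤ (‖q.coeff (k + 1)‖ + ρ * ‖g.coeff (k + 1)‖) * ρ ^ k := by gcongr
            _ = _ := by rw [pow_succ]; field_simp
        have h5 : (‖q.coeff (k + 1)‖ * ρ ^ (k + 1)) / ρ ≤ M / ρ := by gcongr
        push_cast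
        linarith
    have := key (n - j) j (by omega)
    refine this.trans ?_
    have : ((n - j : ℕ) : ℝ) ≤ n := by exact_mod_cast Nat.sub_le n j
    gcongr
  · -- upwards
    have hy0 : 0 < ‖y‖ := hρ.trans hy
    have key : ∀ k, ‖g.coeff k‖ * ρ ^ k ≤ (k + 1 : ℕ) * (M / ρ) := by
      intro k
      induction k with
      | zero =>
        have h1 := hq 0
        rw [hzero, norm_neg, norm_mul, pow_zero, mul_one] at h1
        rw [pow_zero, mul_one, zero_add, Nat.cast_one, one_mul, le_div_iff₀ hρ]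
        calc ‖g.coeff 0‖ * ρ ≤ ‖g.coeff 0‖ * ‖y‖ := by gcongr
          _ = ‖y‖ * ‖g.coeff 0‖ := mul_comm _ _
          _ ≤ M := h1
      | succ k ih =>
        have h1 := hq (k + 1)
        have h2 : ‖y‖ * ‖g.coeff (k + 1)‖ ≤ ‖g.coeff k‖ + ‖q.coeff (k + 1)‖ := by
          rw [← norm_mul]
          have : y * g.coeff (k + 1) = g.coeff k - q.coeff (k + 1) := by rw [hrec k]; ring
          rw [this]
          exact norm_sub_le _ _
        have h3 : ρ * ‖g.coeff (k + 1)‖ ≤ ‖g.coeff k‖ + ‖q.coeff (k + 1)‖ :=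
          (mul_le_mul_of_nonneg_right hy.le (norm_nonneg _)).trans h2
        have h4 : ‖g.coeff (k + 1)‖ * ρ ^ (k + 1) ≤
            ‖g.coeff k‖ * ρ ^ k + (‖q.coeff (k + 1)‖ * ρ ^ (k + 1)) / ρ := by
          calc ‖g.coeff (k + 1)‖ * ρ ^ (k + 1) = (ρ * ‖g.coeff (k + 1)‖) * ρ ^ k := by
                rw [pow_succ]; ring
            _ ≤ (‖g.coeff k‖ + ‖q.coeff (k + 1)‖) * ρ ^ k := by gcongr
            _ = _ := by rw [pow_succ]; field_simp
        have h5 : (‖q.coeff (k + 1)‖ * ρ ^ (k + 1)) / ρ ≤ M / ρ := by gcongr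
        push_cast at ih ⊢
        linarith
    refine (key j).trans ?_
    have : ((j + 1 : ℕ) : ℝ) ≤ n := by exact_mod_cast hj
    gcongr

theorem coeff_le_residues (n : ℕ) : ∃ C : ℝ, 0 < C ∧ ∀ (ρ M : ℝ), 0 < ρ → 0 ≤ M →
    ∀ q p : ℂ[X], q.natDegree = n → q.Separable → (∀ j, ‖q.coeff j‖ * ρ ^ j ≤ M) →
      p.natDegree < n → ∀ j, ‖p.coeff j‖ * ρ ^ j ≤
        C * (M / ρ) * ∑ y ∈ q.roots.toFinset, ‖p.eval y‖ / ‖(derivative q).eval y‖ := by
  classical
  refine ⟨n + 1, by positivity, ?_⟩
  intro ρ M hρ hM q p hqn hsep hq hp j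
  have hq0 : q ≠ 0 := hsep.ne_zero
  have hroot : ∀ y ∈ q.roots.toFinset, q.eval y = 0 := by
    intro y hy
    rw [Multiset.mem_toFinset] at hy
    exact (mem_roots hq0).1 hy
  have hder : ∀ y ∈ q.roots.toFinset, (derivative q).eval y ≠ 0 := by
    intro y hy h0
    obtain ⟨a, b, hab⟩ := hsep
    have h1 := congrArg (eval y) hab
    rw [eval_add, eval_mul, eval_mul, hroot y hy, h0, mul_zero, mul_zero, add_zero, eval_one] at h1
    exact zero_ne_one h1
  have hcard : q.roots.toFinset.card = n := by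
    rw [Multiset.toFinset_card_of_nodup (nodup_roots hsep), ← hqn]
    exact (splits_iff_card_roots.1 (IsAlgClosed.splits q))
  -- quotients
  have hex : ∀ y : ℂ, ∃ g : ℂ[X], q.eval y = 0 → q = (X - C y) * g := by
    intro y
    by_cases h : q.eval y = 0
    · obtain ⟨g, hg⟩ := dvd_iff_isRoot.2 h
      exact ⟨g, fun _ => hg⟩
    · exact ⟨0, fun h' => absurd h' h⟩
  choose g hg using hex
  have hgdeg : ∀ y ∈ q.roots.toFinset, (g y).natDegree + 1 = n ∧ g y ≠ 0 := by
    intro y hy
    have h1 := hg y (hroot y hy)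
    have hg0 : g y ≠ 0 := by
      intro h0
      rw [h0, mul_zero] at h1
      exact hq0 h1
    refine ⟨?_, hg0⟩
    have h2 := congrArg natDegree h1
    rw [hqn, natDegree_mul (X_sub_C_ne_zero y) hg0, natDegree_X_sub_C] at h2
    omega
  have hlt : ∀ y ∈ q.roots.toFinset, ∀ k, n ≤ k → (g y).coeff k = 0 := by
    intro y hy k hk
    apply coeff_eq_zero_of_natDegree_lt
    have := (hgdeg y hy).1
    omega
  set r : ℂ → ℂ := fun y => p.eval y / (derivative q).eval y with hr
  have hmain : p = ∑ y ∈ q.roots.toFinset, C (r y) * g y := by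
    apply eq_of_degrees_lt_of_eval_finset_eq q.roots.toFinset
    · rw [hcard]
      exact lt_of_le_of_lt degree_le_natDegree (by exact_mod_cast hp)
    · rw [hcard]
      refine lt_of_le_of_lt (degree_sum_le _ _) ?_
      rw [Finset.sup_lt_iff (by exact WithBot.bot_lt_coe n)]
      intro y hy
      refine lt_of_le_of_lt degree_le_natDegree ?_
      have h1 := (hgdeg y hy).1
      have h2 := natDegree_C_mul_le (r y) (g y)
      exact_mod_cast (by omega : (C (r y) * g y).natDegree < n)
    · intro z hz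
      rw [eval_finsetSum, Finset.sum_eq_single z]
      · rw [eval_mul, eval_C]
        have h1 : (derivative q).eval z = (g z).eval z := by
          have h2 := hg z (hroot z hz)
          have h3 := congrArg derivative h2
          rw [derivative_mul, derivative_X_sub_C, one_mul] at h3
          rw [h3, eval_add, eval_mul, eval_sub, eval_X, eval_C, sub_self, zero_mul, add_zero]
        rw [hr]
        simp only
        rw [← h1, div_mul_cancel₀ _ (hder z hz)]
      · intro y hy hyz
        rw [eval_mul, eval_C]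
        have h1 := congrArg (eval z) (hg y (hroot y hy))
        rw [hroot z hz, eval_mul, eval_sub, eval_X, eval_C] at h1
        rcases mul_eq_zero.1 h1.symm with h | h
        · exact absurd (sub_eq_zero.1 h).symm hyz
        · rw [h, mul_zero]
      · intro h; exact absurd hz h
  have hcoeff : p.coeff j = ∑ y ∈ q.roots.toFinset, r y * (g y).coeff j := by
    conv_lhs => rw [hmain]
    rw [finsetSum_coeff]
    refine Finset.sum_congr rfl fun y _ => ?_
    rw [coeff_C_mul]
  rw [hcoeff]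
  calc ‖∑ y ∈ q.roots.toFinset, r y * (g y).coeff j‖ * ρ ^ j
      ≤ (∑ y ∈ q.roots.toFinset, ‖r y‖ * ‖(g y).coeff j‖) * ρ ^ j := by
        gcongr
        refine (norm_sum_le _ _).trans (le_of_eq ?_)
        refine Finset.sum_congr rfl fun y _ => norm_mul _ _
    _ = ∑ y ∈ q.roots.toFinset, ‖r y‖ * (‖(g y).coeff j‖ * ρ ^ j) := by
        rw [Finset.sum_mul]
        refine Finset.sum_congr rfl fun y _ => by ring
    _ ≤ ∑ y ∈ q.roots.toFinset, ‖r y‖ * ((n + 1) * (M / ρ)) := by
        refine Finset.sum_le_sum fun y hy => ?_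
        refine mul_le_mul_of_nonneg_left ?_ (norm_nonneg _)
        refine (H1_quot n ρ M hρ hM q (g y) y (hg y (hroot y hy)) hq (hlt y hy) j).trans ?_
        have : 0 ≤ M / ρ := by positivity
        nlinarith
    _ = _ := by
        rw [← Finset.sum_mul, mul_comm]
        congr 1
        refine Finset.sum_congr rfl fun y _ => ?_
        rw [hr]; simp only [norm_div]

end FreyTor
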