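import Pool.Agent.Lib.MP_6babc4_nt.AvgArch

/-!
# TF/H2: the mean of a polynomial on a disc

The Gram matrix of the monomials on the unit disc (`FreyAvg.disc_form`), and scaling.
-/

open MeasureTheory

namespace FreyTor

theorem disc_lower (m : ℕ) : ∃ c : ℝ, 0 < c ∧ ∀ (ρ : ℝ), 0 < ρ → ∀ a : ℕ → ℂ,
    ENNReal.ofReal (c * ρ ^ 2 * ∑ i ∈ Finset.range m, ‖a i‖ ^ 2 * ρ ^ (2 * i)) ≤
      ∫⁻ x in Metric.closedBall (0 : ℂ) ρ,
        ENNReal.ofReal (‖∑ i ∈ Finset.range m, a i * x ^ i‖ ^ 2) := by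
  refine ⟨FreyAvg.lam0 m, FreyAvg.lam0_pos m, fun ρ hρ a => ?_⟩
  have hcont : Continuous (fun x : ℂ => ‖∑ i ∈ Finset.range m, a i * x ^ i‖ ^ 2) := by fun_prop
  have hint : IntegrableOn (fun x : ℂ => ‖∑ i ∈ Finset.range m, a i * x ^ i‖ ^ 2)
      (Metric.closedBall (0 : ℂ) ρ) :=
    hcont.continuousOn.integrableOn_compact (isCompact_closedBall _ _)
  rw [← ofReal_integral_eq_lintegral_ofReal hint
    (Filter.Eventually.of_forall fun x => by positivity)]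
  apply ENNReal.ofReal_le_ofReal
  have hscale := MeasureTheory.Measure.setIntegral_comp_smul_of_pos volume
    (fun x : ℂ => ‖∑ i ∈ Finset.range m, a i * x ^ i‖ ^ 2) (Metric.closedBall (0 : ℂ) 1) hρ
  rw [Complex.finrank_real_complex, smul_eq_mul, smul_unitClosedBall_of_nonneg hρ.le] at hscale
  have h1 := FreyAvg.disc_form (g := m) (fun i => (starRingEnd ℂ) (a i * (ρ : ℂ) ^ (i : ℕ)))
  have h2 : ∫ z, ‖FreyAvg.pc (fun i : Fin m => (starRingEnd ℂ) (a i * (ρ : ℂ) ^ (i : ℕ))) z‖ ^ 2 *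
      FreyAvg.wd z = ∫ x in Metric.closedBall (0 : ℂ) 1,
        ‖∑ i ∈ Finset.range m, a i * (ρ • x) ^ i‖ ^ 2 := by
    rw [← integral_indicator Metric.isClosed_closedBall.measurableSet]
    refine integral_congr_ae (Filter.Eventually.of_forall fun z => ?_)
    have h3 : FreyAvg.pc (fun i : Fin m => (starRingEnd ℂ) (a i * (ρ : ℂ) ^ (i : ℕ))) z =
        ∑ i ∈ Finset.range m, a i * (ρ • z) ^ i := by
      rw [Finset.sum_range]
      unfold FreyAvg.pc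
      refine Finset.sum_congr rfl fun i _ => ?_
      rw [Complex.conj_conj, Complex.real_smul, mul_pow, mul_assoc]
    show ‖FreyAvg.pc (fun i : Fin m => (starRingEnd ℂ) (a i * (ρ : ℂ) ^ (i : ℕ))) z‖ ^ 2 *
      FreyAvg.wd z = (Metric.closedBall (0 : ℂ) 1).indicator
        (fun x => ‖∑ i ∈ Finset.range m, a i * (ρ • x) ^ i‖ ^ 2) z
    rw [h3]
    unfold FreyAvg.wd
    by_cases hz : z ∈ Metric.closedBall (0 : ℂ) 1
    · rw [Set.indicator_of_mem hz, Set.indicator_of_mem hz, Pi.one_apply, mul_one]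
    · rw [Set.indicator_of_notMem hz, Set.indicator_of_notMem hz, mul_zero]
  rw [h2, hscale] at h1
  have h4 : ∑ i : Fin m, ‖(starRingEnd ℂ) (a i * (ρ : ℂ) ^ (i : ℕ))‖ ^ 2 =
      ∑ i ∈ Finset.range m, ‖a i‖ ^ 2 * ρ ^ (2 * i) := by
    rw [Finset.sum_range]
    refine Finset.sum_congr rfl fun i _ => ?_
    rw [RCLike.norm_conj, norm_mul, norm_pow, Complex.norm_real, Real.norm_of_nonneg hρ.le, mul_pow,
      ← pow_mul, mul_comm (i : ℕ) 2]
  rw [h4] at h1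
  have h5 : 0 < ρ ^ 2 := by positivity
  calc FreyAvg.lam0 m * ρ ^ 2 * ∑ i ∈ Finset.range m, ‖a i‖ ^ 2 * ρ ^ (2 * i)
      = ρ ^ 2 * (FreyAvg.lam0 m * ∑ i ∈ Finset.range m, ‖a i‖ ^ 2 * ρ ^ (2 * i)) := by ring
    _ ≤ ρ ^ 2 * ((ρ ^ 2)⁻¹ * ∫ x in Metric.closedBall (0 : ℂ) ρ,
        ‖∑ i ∈ Finset.range m, a i * x ^ i‖ ^ 2) := by
        gcongr
    _ = _ := by rw [← mul_assoc, mul_inv_cancel₀ h5.ne', one_mul]

end FreyTor
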