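import Pool.Agent.Lib.MP_6babc4_nt.TF.H0
import Pool.Agent.Lib.MP_6babc4_nt.TF.H1
import Pool.Agent.Lib.MP_6babc4_nt.TF.H2

/-!
# TF/H3: lower bound for the norm

PROOF. `n = A.sup snd ≥ 1`. Let `|x| ≤ ρ₁`, `x` not in the finite bad set. The coefficients of
`q = yPoly F x` satisfy `|q_j| ρ₂^j ≤ #A * T`. By `coeff_le_residues` with `p = yForm c x`
(`p_j = ∑_{w.2 = j + 1} c_w x^(w.1 - 1)`):
`|p_j| ρ₂^j ≤ C (#A T / ρ₂) ∑_y |form c x y| / |dy F x y|`, the sum over the roots, at most `n` of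
them, so by Cauchy-Schwarz `∑_y |form|² / |dy|² ≥ c ρ₂² T^(-2) |p_j|² ρ₂^(2j)` for every `j`; add
over `0 ≤ j < n`. The `tsum` over `{y // val F x y = 0}` is at least the finite sum over the roots
(`ENNReal.sum_le_tsum`). Integrate over `|x| ≤ ρ₁` (`lintegral_mono_ae`, a finite set is null; no
measurability is needed for the lower bound) and use `disc_lower` for every `j` with
`a_i = c_(i + 1, j + 1)` (or `0`). The result is
`∑_w |c_w|² ρ₁^(2 (w.1 - 1)) ρ₂^(2 (w.2 - 1)) * ρ₁² ρ₂² / T² = ∑_w |c_w|² (ρ₁^w.1 ρ₂^w.2 / T)²`.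
-/

open MeasureTheory Polynomial

namespace FreyTor

variable {A : Finset (ℕ × ℕ)}

theorem H3_coeff_yPoly (F : A → ℂ) (x : ℂ) (j : ℕ) :
    (yPoly F x).coeff j = ∑ w : A, if w.1.2 = j then F w * x ^ w.1.1 else 0 := by
  rw [yPoly, Polynomial.finsetSum_coeff]
  refine Finset.sum_congr rfl fun w _ => ?_
  rw [Polynomial.coeff_C_mul, Polynomial.coeff_X_pow]
  by_cases h : w.1.2 = j
  · rw [if_pos h.symm, if_pos h, mul_one]
  · rw [if_neg (Ne.symm h), if_neg h, mul_zero]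

theorem H3_coeff_yForm (c : inner A → ℂ) (x : ℂ) (j : ℕ) :
    (yForm c x).coeff j =
      ∑ w : inner A, if w.1.2 - 1 = j then c w * x ^ (w.1.1 - 1) else 0 := by
  rw [yForm, Polynomial.finsetSum_coeff]
  refine Finset.sum_congr rfl fun w _ => ?_
  rw [Polynomial.coeff_C_mul, Polynomial.coeff_X_pow]
  by_cases h : w.1.2 - 1 = j
  · rw [if_pos h.symm, if_pos h, mul_one]
  · rw [if_neg (Ne.symm h), if_neg h, mul_zero]

/-- The coefficient of `x ^ i y ^ j` in `P_c`. -/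
noncomputable def H3_a (c : inner A → ℂ) (j i : ℕ) : ℂ :=
  ∑ w : inner A, if w.1.1 - 1 = i ∧ w.1.2 - 1 = j then c w else 0

theorem H3_a_eq (c : inner A → ℂ) (w : inner A) : H3_a c (w.1.2 - 1) (w.1.1 - 1) = c w := by
  rw [H3_a, Finset.sum_eq_single w]
  · simp
  · intro u _ hu
    rw [if_neg]
    rintro ⟨h1, h2⟩
    apply hu
    have hw' := inner_bounds w.2
    have hu' := inner_bounds u.2
    apply Subtype.ext
    apply Prod.ext
    · omega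
    · omega
  · intro h
    exact absurd (Finset.mem_univ _) h

theorem H3_fst_lt (w : inner A) : w.1.1 - 1 < A.sup Prod.fst + 1 := by
  classical
  have h := w.2
  unfold inner at h
  rw [Finset.mem_filter, Finset.mem_product, Finset.mem_range, Finset.mem_range] at h
  omega

theorem H3_coeff_sum (c : inner A → ℂ) (x : ℂ) (j : ℕ) :
    (yForm c x).coeff j =
      ∑ i ∈ Finset.range (A.sup Prod.fst + 1), H3_a c j i * x ^ i := by
  rw [H3_coeff_yForm]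
  simp only [H3_a, Finset.sum_mul]
  rw [Finset.sum_comm]
  refine Finset.sum_congr rfl fun w _ => ?_
  rw [Finset.sum_eq_single (w.1.1 - 1)]
  · by_cases h : w.1.2 - 1 = j
    · rw [if_pos h, if_pos ⟨rfl, h⟩]
    · rw [if_neg h, if_neg (fun h' => h h'.2), zero_mul]
  · intro i _ hi
    rw [if_neg (fun h' => hi h'.1.symm), zero_mul]
  · intro h
    exact absurd (Finset.mem_range.mpr (H3_fst_lt w)) h

theorem H3_coeff_bound (F : A → ℂ) {ρ₁ ρ₂ T : ℝ} (h2 : 0 < ρ₂)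
    (hT : 0 < T) (hF : ∀ w : A, ‖F w‖ * ρ₁ ^ w.1.1 * ρ₂ ^ w.1.2 ≤ T) {x : ℂ} (hx : ‖x‖ ≤ ρ₁)
    (j : ℕ) : ‖(yPoly F x).coeff j‖ * ρ₂ ^ j ≤ (A.card : ℝ) * T := by
  have key : ‖(yPoly F x).coeff j‖ * ρ₂ ^ j ≤ ∑ _w : A, T := by
    rw [H3_coeff_yPoly]
    calc ‖∑ w : A, if w.1.2 = j then F w * x ^ w.1.1 else 0‖ * ρ₂ ^ j
        ≤ (∑ w : A, ‖if w.1.2 = j then F w * x ^ w.1.1 else 0‖) * ρ₂ ^ j :=
          mul_le_mul_of_nonneg_right (norm_sum_le _ _) (by positivity)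
      _ = ∑ w : A, ‖if w.1.2 = j then F w * x ^ w.1.1 else 0‖ * ρ₂ ^ j := Finset.sum_mul _ _ _
      _ ≤ ∑ _w : A, T := by
          refine Finset.sum_le_sum fun w _ => ?_
          by_cases h : w.1.2 = j
          · rw [if_pos h, norm_mul, norm_pow, ← h]
            refine le_trans ?_ (hF w)
            have : ‖x‖ ^ w.1.1 ≤ ρ₁ ^ w.1.1 := pow_le_pow_left₀ (norm_nonneg _) hx _
            gcongr
          · rw [if_neg h, norm_zero, zero_mul]
            exact hT.le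
  refine key.trans (le_of_eq ?_)
  rw [Finset.sum_const, Finset.card_univ, Fintype.card_coe, nsmul_eq_mul]

/-- The pointwise lower bound for the sum over the roots. -/
theorem H3_point (n : ℕ) (hn : A.sup Prod.snd = n) (h01 : (0, 1) ∈ A) {C : ℝ} (hC : 0 < C)
    (hres : ∀ (ρ M : ℝ), 0 < ρ → 0 ≤ M →
      ∀ q p : ℂ[X], q.natDegree = n → q.Separable → (∀ j, ‖q.coeff j‖ * ρ ^ j ≤ M) →
      p.natDegree < n → ∀ j, ‖p.coeff j‖ * ρ ^ j ≤
        C * (M / ρ) * ∑ y ∈ q.roots.toFinset, ‖p.eval y‖ / ‖(derivative q).eval y‖)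
    (F : A → ℂ) {ρ₁ ρ₂ T : ℝ} (h2 : 0 < ρ₂)
    (hT : 0 < T) (hF : ∀ w : A, ‖F w‖ * ρ₁ ^ w.1.1 * ρ₂ ^ w.1.2 ≤ T) {x : ℂ} (hx : ‖x‖ ≤ ρ₁)
    (hdeg : (yPoly F x).natDegree = n) (hsep : (yPoly F x).Separable) (c : inner A → ℂ) :
    ∑ j ∈ Finset.range n, ‖(yForm c x).coeff j‖ ^ 2 * ρ₂ ^ (2 * j) ≤
      (n : ℝ) ^ 2 * C ^ 2 * (A.card : ℝ) ^ 2 * T ^ 2 / ρ₂ ^ 2 *
        ∑ y ∈ (yPoly F x).roots.toFinset, ‖form c x y‖ ^ 2 / ‖dy F x y‖ ^ 2 := by
  set S : ℝ := ∑ y ∈ (yPoly F x).roots.toFinset, ‖form c x y‖ ^ 2 / ‖dy F x y‖ ^ 2 with hS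
  have hcard : (((yPoly F x).roots.toFinset.card : ℕ) : ℝ) ≤ n := by
    have h3 : (yPoly F x).roots.toFinset.card ≤ n :=
      (Multiset.toFinset_card_le _).trans ((Polynomial.card_roots' _).trans hdeg.le)
    exact_mod_cast h3
  have hS0 : 0 ≤ S := Finset.sum_nonneg fun y _ => by positivity
  have hCS : (∑ y ∈ (yPoly F x).roots.toFinset, ‖form c x y‖ / ‖dy F x y‖) ^ 2 ≤ n * S := by
    have h4 := sq_sum_le_card_mul_sum_sq (s := (yPoly F x).roots.toFinset)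
      (f := fun y => ‖form c x y‖ / ‖dy F x y‖)
    refine h4.trans ?_
    have h5 : ∑ y ∈ (yPoly F x).roots.toFinset, (‖form c x y‖ / ‖dy F x y‖) ^ 2 = S := by
      rw [hS]
      refine Finset.sum_congr rfl fun y _ => ?_
      rw [div_pow]
    rw [h5]
    exact mul_le_mul_of_nonneg_right hcard hS0
  have hj : ∀ j ∈ Finset.range n, ‖(yForm c x).coeff j‖ ^ 2 * ρ₂ ^ (2 * j) ≤
      C ^ 2 * (A.card : ℝ) ^ 2 * T ^ 2 / ρ₂ ^ 2 * (n * S) := by
    intro j _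
    have h6 := hres ρ₂ ((A.card : ℝ) * T) h2 (by positivity) (yPoly F x) (yForm c x) hdeg hsep
      (fun j => H3_coeff_bound F h2 hT hF hx j)
      (by rw [← hn]; exact natDegree_yForm_lt c x h01) j
    simp only [eval_yForm, eval_derivative_yPoly] at h6
    have h7 : (‖(yForm c x).coeff j‖ * ρ₂ ^ j) ^ 2 ≤
        (C * ((A.card : ℝ) * T / ρ₂) *
          ∑ y ∈ (yPoly F x).roots.toFinset, ‖form c x y‖ / ‖dy F x y‖) ^ 2 :=
      pow_le_pow_left₀ (by positivity) h6 2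
    calc ‖(yForm c x).coeff j‖ ^ 2 * ρ₂ ^ (2 * j) = (‖(yForm c x).coeff j‖ * ρ₂ ^ j) ^ 2 := by
          rw [mul_pow, ← pow_mul, Nat.mul_comm j 2]
      _ ≤ _ := h7
      _ = C ^ 2 * (A.card : ℝ) ^ 2 * T ^ 2 / ρ₂ ^ 2 *
          (∑ y ∈ (yPoly F x).roots.toFinset, ‖form c x y‖ / ‖dy F x y‖) ^ 2 := by
          rw [mul_pow, mul_pow, div_pow, mul_pow]
          ring
      _ ≤ C ^ 2 * (A.card : ℝ) ^ 2 * T ^ 2 / ρ₂ ^ 2 * (n * S) :=
          mul_le_mul_of_nonneg_left hCS (by positivity)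
  refine (Finset.sum_le_sum hj).trans (le_of_eq ?_)
  rw [Finset.sum_const, Finset.card_range, nsmul_eq_mul]
  ring

theorem H3_tsum (F : A → ℂ) (c : inner A → ℂ) (x : ℂ) :
    ENNReal.ofReal
        (∑ y ∈ (yPoly F x).roots.toFinset, ‖form c x y‖ ^ 2 / ‖dy F x y‖ ^ 2) ≤
      ∑' y : {y : ℂ // val F x y = 0}, ENNReal.ofReal (‖form c x y‖ ^ 2 / ‖dy F x y‖ ^ 2) := by
  rw [ENNReal.ofReal_sum_of_nonneg (fun y _ => by positivity)]
  have h := tsum_subtype {y : ℂ | val F x y = 0}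
    (fun y => ENNReal.ofReal (‖form c x y‖ ^ 2 / ‖dy F x y‖ ^ 2))
  refine le_trans ?_ (le_of_eq h.symm)
  refine le_trans (le_of_eq ?_) (ENNReal.sum_le_tsum (yPoly F x).roots.toFinset)
  refine Finset.sum_congr rfl fun y hy => ?_
  rw [Set.indicator_of_mem]
  rw [Set.mem_ofPred_eq, ← eval_yPoly]
  rw [Multiset.mem_toFinset] at hy
  exact Polynomial.isRoot_of_mem_roots hy

theorem norm_lower (A : Finset (ℕ × ℕ)) (h01 : (0, 1) ∈ A) : ∃ c₀ : ℝ, 0 < c₀ ∧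
    ∀ (ρ₁ ρ₂ T : ℝ), 0 < ρ₁ → 0 < ρ₂ → 0 < T → ∀ F : A → ℂ,
      (∀ w : A, ‖F w‖ * ρ₁ ^ w.1.1 * ρ₂ ^ w.1.2 ≤ T) →
      {x : ℂ | ¬ ((yPoly F x).natDegree = A.sup Prod.snd ∧ (yPoly F x).Separable)}.Finite →
      ∀ c : inner A → ℂ,
        ENNReal.ofReal (c₀ * ∑ w : inner A, (‖c w‖ * (ρ₁ ^ w.1.1 * ρ₂ ^ w.1.2 / T)) ^ 2) ≤
          normSq F c := by
  obtain ⟨n, hn⟩ : ∃ n, A.sup Prod.snd = n := ⟨_, rfl⟩
  have hn1 : 1 ≤ n := by
    rw [← hn]
    exact Finset.le_sup (f := Prod.snd) h01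
  obtain ⟨C, hC, hres⟩ := coeff_le_residues n
  obtain ⟨c₂, hc₂, hdisc⟩ := disc_lower (A.sup Prod.fst + 1)
  have hA : 0 < A.card := Finset.card_pos.mpr ⟨_, h01⟩
  have hA' : (0 : ℝ) < A.card := by exact_mod_cast hA
  have hn' : (0 : ℝ) < n := by exact_mod_cast hn1
  refine ⟨c₂ / ((n : ℝ) ^ 2 * C ^ 2 * (A.card : ℝ) ^ 2), by positivity, ?_⟩
  intro ρ₁ ρ₂ T h1 h2 hT F hF hfin c
  set D : ℝ := (n : ℝ) ^ 2 * C ^ 2 * (A.card : ℝ) ^ 2 * T ^ 2 / ρ₂ ^ 2 with hD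
  have hD0 : 0 < D := by positivity
  -- the pointwise bound
  have hpt : ∀ x : ℂ, ‖x‖ ≤ ρ₁ →
      (yPoly F x).natDegree = A.sup Prod.snd ∧ (yPoly F x).Separable →
      ∑ j ∈ Finset.range n, ENNReal.ofReal (ρ₂ ^ (2 * j) / D) *
        ENNReal.ofReal (‖∑ i ∈ Finset.range (A.sup Prod.fst + 1), H3_a c j i * x ^ i‖ ^ 2) ≤
      ∑' y : {y : ℂ // val F x y = 0},
        ENNReal.ofReal (‖form c x y‖ ^ 2 / ‖dy F x y‖ ^ 2) := by
    intro x hx hgood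
    refine le_trans ?_ (H3_tsum F c x)
    have h3 := H3_point n hn h01 hC hres F h2 hT hF hx (hgood.1.trans hn) hgood.2 c
    rw [← hD] at h3
    have h4 : ∑ j ∈ Finset.range n, ENNReal.ofReal (ρ₂ ^ (2 * j) / D) *
        ENNReal.ofReal (‖∑ i ∈ Finset.range (A.sup Prod.fst + 1), H3_a c j i * x ^ i‖ ^ 2) =
        ENNReal.ofReal ((∑ j ∈ Finset.range n,
          ‖(yForm c x).coeff j‖ ^ 2 * ρ₂ ^ (2 * j)) / D) := by
      rw [Finset.sum_div, ENNReal.ofReal_sum_of_nonneg (fun y _ => by positivity)]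
      refine Finset.sum_congr rfl fun j _ => ?_
      rw [← ENNReal.ofReal_mul (by positivity), H3_coeff_sum]
      congr 1
      ring
    rw [h4]
    apply ENNReal.ofReal_le_ofReal
    rw [div_le_iff₀ hD0]
    linarith [h3]
  -- integrate
  have hint : ∑ j ∈ Finset.range n, ENNReal.ofReal (ρ₂ ^ (2 * j) / D) *
      ENNReal.ofReal (c₂ * ρ₁ ^ 2 * ∑ i ∈ Finset.range (A.sup Prod.fst + 1),
        ‖H3_a c j i‖ ^ 2 * ρ₁ ^ (2 * i)) ≤ normSq F c := by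
    have h5 : ∑ j ∈ Finset.range n, ENNReal.ofReal (ρ₂ ^ (2 * j) / D) *
        ENNReal.ofReal (c₂ * ρ₁ ^ 2 * ∑ i ∈ Finset.range (A.sup Prod.fst + 1),
          ‖H3_a c j i‖ ^ 2 * ρ₁ ^ (2 * i)) ≤
        ∑ j ∈ Finset.range n, ENNReal.ofReal (ρ₂ ^ (2 * j) / D) *
          ∫⁻ x in Metric.closedBall (0 : ℂ) ρ₁, ENNReal.ofReal
            (‖∑ i ∈ Finset.range (A.sup Prod.fst + 1), H3_a c j i * x ^ i‖ ^ 2) :=
      Finset.sum_le_sum fun j _ => mul_le_mul_right (hdisc ρ₁ h1 (H3_a c j)) _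
    refine h5.trans ?_
    have hmeas : ∀ j : ℕ, Measurable fun x : ℂ => ENNReal.ofReal
        (‖∑ i ∈ Finset.range (A.sup Prod.fst + 1), H3_a c j i * x ^ i‖ ^ 2) := by
      intro j
      apply ENNReal.measurable_ofReal.comp
      apply Continuous.measurable
      fun_prop
    have h6 : ∑ j ∈ Finset.range n, ENNReal.ofReal (ρ₂ ^ (2 * j) / D) *
          ∫⁻ x in Metric.closedBall (0 : ℂ) ρ₁, ENNReal.ofReal
            (‖∑ i ∈ Finset.range (A.sup Prod.fst + 1), H3_a c j i * x ^ i‖ ^ 2) =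
        ∫⁻ x in Metric.closedBall (0 : ℂ) ρ₁, ∑ j ∈ Finset.range n,
          ENNReal.ofReal (ρ₂ ^ (2 * j) / D) * ENNReal.ofReal
            (‖∑ i ∈ Finset.range (A.sup Prod.fst + 1), H3_a c j i * x ^ i‖ ^ 2) := by
      rw [lintegral_finsetSum _ (fun j _ => (hmeas j).const_mul _)]
      refine Finset.sum_congr rfl fun j _ => ?_
      rw [lintegral_const_mul _ (hmeas j)]
    rw [h6, normSq]
    refine le_trans ?_ (setLIntegral_le_lintegral (Metric.closedBall (0 : ℂ) ρ₁) _)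
    apply lintegral_mono_ae
    have hnull : ∀ᵐ x : ℂ ∂(volume.restrict (Metric.closedBall (0 : ℂ) ρ₁)),
        x ∉ {x : ℂ | ¬ ((yPoly F x).natDegree = A.sup Prod.snd ∧ (yPoly F x).Separable)} := by
      apply ae_restrict_of_ae
      exact measure_eq_zero_iff_ae_notMem.mp (hfin.measure_zero volume)
    have hball : ∀ᵐ x : ℂ ∂(volume.restrict (Metric.closedBall (0 : ℂ) ρ₁)),
        x ∈ Metric.closedBall (0 : ℂ) ρ₁ :=
      ae_restrict_mem Metric.isClosed_closedBall.measurableSet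
    filter_upwards [hnull, hball] with x hx1 hx2
    have hx3 : ‖x‖ ≤ ρ₁ := by simpa using hx2
    have hx4 : (yPoly F x).natDegree = A.sup Prod.snd ∧ (yPoly F x).Separable := by
      by_contra hcon
      exact hx1 hcon
    exact hpt x hx3 hx4
  refine le_trans ?_ hint
  -- compare the sums
  have h7 : ∑ j ∈ Finset.range n, ENNReal.ofReal (ρ₂ ^ (2 * j) / D) *
      ENNReal.ofReal (c₂ * ρ₁ ^ 2 * ∑ i ∈ Finset.range (A.sup Prod.fst + 1),
        ‖H3_a c j i‖ ^ 2 * ρ₁ ^ (2 * i)) =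
      ENNReal.ofReal (∑ j ∈ Finset.range n, ∑ i ∈ Finset.range (A.sup Prod.fst + 1),
        c₂ * ρ₁ ^ 2 / D * (‖H3_a c j i‖ ^ 2 * ρ₁ ^ (2 * i) * ρ₂ ^ (2 * j))) := by
    rw [ENNReal.ofReal_sum_of_nonneg (fun j _ => Finset.sum_nonneg fun i _ => by positivity)]
    refine Finset.sum_congr rfl fun j _ => ?_
    rw [← ENNReal.ofReal_mul (by positivity)]
    congr 1
    rw [Finset.mul_sum, Finset.mul_sum]
    refine Finset.sum_congr rfl fun i _ => ?_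
    ring
  rw [h7]
  apply ENNReal.ofReal_le_ofReal
  rw [← Finset.sum_product']
  set f : ℕ × ℕ → ℝ := fun p =>
    c₂ * ρ₁ ^ 2 / D * (‖H3_a c p.1 p.2‖ ^ 2 * ρ₁ ^ (2 * p.2) * ρ₂ ^ (2 * p.1)) with hf
  have h8 : ∀ w : inner A, c₂ / ((n : ℝ) ^ 2 * C ^ 2 * (A.card : ℝ) ^ 2) *
      (‖c w‖ * (ρ₁ ^ w.1.1 * ρ₂ ^ w.1.2 / T)) ^ 2 = f (w.1.2 - 1, w.1.1 - 1) := by
    intro w
    rw [hf]
    simp only
    rw [H3_a_eq]
    obtain ⟨hw1, hw2, _⟩ := inner_bounds w.2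
    obtain ⟨a, ha⟩ : ∃ a, w.1.1 = a + 1 := ⟨w.1.1 - 1, by omega⟩
    obtain ⟨b, hb⟩ : ∃ b, w.1.2 = b + 1 := ⟨w.1.2 - 1, by omega⟩
    rw [ha, hb, Nat.add_sub_cancel, Nat.add_sub_cancel, hD]
    field_simp
    ring
  rw [Finset.mul_sum, Finset.sum_congr rfl (fun w _ => h8 w)]
  have hinj : Set.InjOn (fun w : inner A => (w.1.2 - 1, w.1.1 - 1))
      (Finset.univ : Finset (inner A)) := by
    intro u _ w _ huw
    simp only [Prod.mk.injEq] at huw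
    have hw' := inner_bounds w.2
    have hu' := inner_bounds u.2
    apply Subtype.ext
    apply Prod.ext
    · omega
    · omega
  rw [← Finset.sum_image (f := f) hinj]
  refine Finset.sum_le_sum_of_subset_of_nonneg ?_ ?_
  · intro p hp
    rw [Finset.mem_image] at hp
    obtain ⟨w, _, rfl⟩ := hp
    rw [Finset.mem_product, Finset.mem_range, Finset.mem_range]
    refine ⟨?_, H3_fst_lt w⟩
    have hw := (inner_bounds w.2).2.2
    have hw' := inner_bounds w.2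
    simp only
    omega
  · intro p _ _
    rw [hf]
    positivity

end FreyTor
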