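import Pool.Agent.Lib.MP_6babc4_nt.TF.J0

/-!
# TF/J1: `phi` is injective

PROOF. Write `x = X i10`, `y = X i01`, `φ = phi`.
(1) `hess (gco A) x y ≠ 0`: its constant-in-`(x, y)` part contains `- X_{(1,1)} ^ 2`; e.g. evaluate
at `x = y = 0`, `X_{(1,1)} = 1`, all other variables `0` (`eval₂`/`eval` of the explicit sums): the
value is `dxx * dyy - dxy ^ 2` with `dxx = 2 a_20 = 0`, `dyy = 0`, `dxy = 1`. (`map_sum` through
`dx`, `dy`: for a ring homomorphism `f`, `f (val a x y) = val (f ∘ a) (f x) (f y)` etc.; these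
lemmas `map_val, map_dx, map_dy, map_dxx, map_dxy, map_dyy, map_hess` are stated here first and are
used in other modules.)
(2) chain rule: for `q : Rg A` and every variable `j`:
`pderiv j (φ q) = ∑ u, φ (pderiv u q) * pderiv j (cco u)` (induction on `q`, or
`MvPolynomial.induction_on`).
(3) `pderiv i10 (dx (gco A) x y) = dxx (gco A) x y`, `pderiv i01 (dx ..) = dxy ..`,
`pderiv i10 (dy ..) = dxy ..`, `pderiv i01 (dy ..) = dyy ..` (the coefficients `gco` do not contain
the variables `i10`, `i01`).
(4) Let `φ q = 0`. Induction on `totalDegree q`. From (2) with `v_u = φ (pderiv u q)`: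
`0 = v_10 * (-dxx) + v_01 * (-dxy)`, `0 = v_10 * (-dxy) + v_01 * (-dyy)` (for `u ≠ i10, i01` the
derivative of `cco u = X u` with respect to `i10`, `i01` is `0`), so `hess * v_10 = hess * v_01 = 0`,
`v_10 = v_01 = 0`, and then for `j ≠ i10, i01`: `0 = v_j`. By induction all `pderiv u q = 0` (the
total degree drops), so `q` is constant (characteristic zero), and `φ (C c) = C c` gives `c = 0`.
-/

open MvPolynomial

namespace FreyTor

section Map

variable {R S : Type*} [CommRing R] [CommRing S] {A : Finset (ℕ × ℕ)}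

lemma map_val (f : R →+* S) (a : A → R) (x y : R) :
    f (val a x y) = val (fun w => f (a w)) (f x) (f y) := by
  simp [val, map_sum, map_mul, map_pow]

lemma map_dx (f : R →+* S) (a : A → R) (x y : R) :
    f (dx a x y) = dx (fun w => f (a w)) (f x) (f y) := by
  simp [dx, map_sum, map_mul, map_pow]

lemma map_dy (f : R →+* S) (a : A → R) (x y : R) :
    f (dy a x y) = dy (fun w => f (a w)) (f x) (f y) := by
  simp [dy, map_sum, map_mul, map_pow]

lemma map_dxx (f : R →+* S) (a : A → R) (x y : R) :
    f (dxx a x y) = dxx (fun w => f (a w)) (f x) (f y) := by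
  simp [dxx, map_sum, map_mul, map_pow]

lemma map_dxy (f : R →+* S) (a : A → R) (x y : R) :
    f (dxy a x y) = dxy (fun w => f (a w)) (f x) (f y) := by
  simp [dxy, map_sum, map_mul, map_pow]

lemma map_dyy (f : R →+* S) (a : A → R) (x y : R) :
    f (dyy a x y) = dyy (fun w => f (a w)) (f x) (f y) := by
  simp [dyy, map_sum, map_mul, map_pow]

lemma map_hess (f : R →+* S) (a : A → R) (x y : R) :
    f (hess a x y) = hess (fun w => f (a w)) (f x) (f y) := by
  simp [hess, map_dxx, map_dxy, map_dyy]

end Map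

variable {A : Finset (ℕ × ℕ)}

/-- the test point: `X_(1,1) = 1`, all other variables are `0` -/
noncomputable def J1_ev (A : Finset (ℕ × ℕ)) : Rg A →+* ℤ :=
  eval (fun u : Idx A => if u.1 = (1, 1) then 1 else 0)

lemma J1_ev_gco (w : A) : J1_ev A (gco A w) = if w.1 = (1, 1) then 1 else 0 := by
  unfold gco J1_ev
  split_ifs with h h1 h1
  · rw [h1] at h
    simp at h
  · rw [map_zero]
  · rw [eval_X, if_pos h1]
  · rw [eval_X, if_neg h1]

theorem hess_ne_zero (h10 : (1, 0) ∈ A) (h01 : (0, 1) ∈ A) (h11 : (1, 1) ∈ A) :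
    hess (gco A) (X (i10 h10)) (X (i01 h01)) ≠ 0 := by
  intro h0
  have h1 := congrArg (J1_ev A) h0
  rw [map_zero, map_hess] at h1
  have hx : J1_ev A (X (i10 h10)) = 0 := by
    unfold J1_ev
    rw [eval_X]
    exact if_neg (by simp [i10])
  have hy : J1_ev A (X (i01 h01)) = 0 := by
    unfold J1_ev
    rw [eval_X]
    exact if_neg (by simp [i01])
  rw [hx, hy] at h1
  have hdxx : dxx (fun w : A => J1_ev A (gco A w)) 0 0 = 0 := by
    unfold dxx
    refine Finset.sum_eq_zero fun w _ => ?_
    beta_reduce
    rw [J1_ev_gco]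
    split_ifs with hw
    · rw [hw]; simp
    · simp
  have hdyy : dyy (fun w : A => J1_ev A (gco A w)) 0 0 = 0 := by
    unfold dyy
    refine Finset.sum_eq_zero fun w _ => ?_
    beta_reduce
    rw [J1_ev_gco]
    split_ifs with hw
    · rw [hw]; simp
    · simp
  have hdxy : dxy (fun w : A => J1_ev A (gco A w)) 0 0 = 1 := by
    unfold dxy
    rw [Finset.sum_eq_single (⟨(1, 1), h11⟩ : A)]
    · beta_reduce
      rw [J1_ev_gco]; simp
    · intro w _ hw
      beta_reduce
      rw [J1_ev_gco, if_neg (fun h => hw (Subtype.ext h))]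
      simp
    · intro h; exact absurd (Finset.mem_univ _) h
  unfold hess at h1
  rw [hdxx, hdyy, hdxy] at h1
  norm_num at h1

lemma J1_D_dx (D : Derivation ℤ (Rg A) (Rg A)) (a : A → Rg A) (x y : Rg A)
    (ha : ∀ w, D (a w) = 0) :
    D (dx a x y) = dxx a x y * D x + dxy a x y * D y := by
  unfold dx dxx dxy
  rw [map_sum, Finset.sum_mul, Finset.sum_mul, ← Finset.sum_add_distrib]
  refine Finset.sum_congr rfl fun w _ => ?_
  rw [D.leibniz, D.leibniz, D.leibniz, D.leibniz_pow, D.leibniz_pow, ha, D.map_natCast,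
    Nat.sub_sub]
  simp only [smul_eq_mul, nsmul_eq_mul, mul_zero, add_zero]
  ring

lemma J1_D_dy (D : Derivation ℤ (Rg A) (Rg A)) (a : A → Rg A) (x y : Rg A)
    (ha : ∀ w, D (a w) = 0) :
    D (dy a x y) = dxy a x y * D x + dyy a x y * D y := by
  unfold dy dyy dxy
  rw [map_sum, Finset.sum_mul, Finset.sum_mul, ← Finset.sum_add_distrib]
  refine Finset.sum_congr rfl fun w _ => ?_
  rw [D.leibniz, D.leibniz, D.leibniz, D.leibniz_pow, D.leibniz_pow, ha, D.map_natCast,
    Nat.sub_sub]
  simp only [smul_eq_mul, nsmul_eq_mul, mul_zero, add_zero]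
  ring

/-- chain rule -/
lemma J1_chain (c : Idx A → Rg A) (j : Idx A) (q : Rg A) :
    pderiv j (aeval c q) = ∑ u, aeval c (pderiv u q) * pderiv j (c u) := by
  induction q using MvPolynomial.induction_on with
  | C a =>
    have h1 : aeval c (C a : Rg A) = C a := by
      rw [aeval_C]; rfl
    rw [h1, pderiv_C]
    refine (Finset.sum_eq_zero fun u _ => ?_).symm
    rw [pderiv_C, map_zero, zero_mul]
  | add p q hp hq =>
    rw [map_add, map_add, hp, hq, ← Finset.sum_add_distrib]
    refine Finset.sum_congr rfl fun u _ => ?_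
    rw [map_add, map_add, add_mul]
  | mul_X p i hp =>
    classical
    rw [map_mul, pderiv_mul, hp, aeval_X]
    have h1 : ∀ u : Idx A, aeval c (pderiv u (p * X i)) * pderiv j (c u) =
        (aeval c (pderiv u p) * pderiv j (c u)) * c i +
          aeval c p * (if i = u then pderiv j (c u) else 0) := by
      intro u
      rw [pderiv_mul, pderiv_X, map_add, map_mul, map_mul, aeval_X]
      by_cases h : i = u
      · subst h
        rw [if_pos rfl, Pi.single_eq_same, map_one]
        ring
      · rw [if_neg h, Pi.single_eq_of_ne h, map_zero]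
        ring
    rw [Finset.sum_congr rfl fun u _ => h1 u, Finset.sum_add_distrib, ← Finset.sum_mul,
      ← Finset.mul_sum]
    simp

lemma J1_pderiv_gco (j : Idx A) (hj : j.1 = (1, 0) ∨ j.1 = (0, 1)) (w : A) :
    pderiv j (gco A w) = 0 := by
  unfold gco
  split_ifs with h
  · rw [map_zero]
  · rw [pderiv_X_of_ne]
    intro h1
    apply h
    right
    rw [← h1] at hj
    exact hj

lemma J1_degree_lt (q : Rg A) (u : Idx A) (hq : 0 < q.totalDegree) :
    (pderiv u q).totalDegree < q.totalDegree := by
  classical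
  rw [MvPolynomial.totalDegree, Finset.sup_lt_iff hq]
  intro m hm
  rw [mem_support_iff, coeff_pderiv] at hm
  have h1 : m + Finsupp.single u 1 ∈ q.support := by
    rw [mem_support_iff]
    exact left_ne_zero_of_mul hm
  have h2 := le_totalDegree h1
  rw [Finsupp.sum_add_index' (fun _ => rfl) (fun _ _ _ => rfl), Finsupp.sum_single_index rfl] at h2
  omega

lemma J1_const (q : Rg A) (h : ∀ u, pderiv u q = 0) : q.totalDegree = 0 := by
  classical
  rw [← Nat.le_zero, MvPolynomial.totalDegree, Finset.sup_le_iff]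
  intro m hm
  have h0 : m = 0 := by
    ext u
    by_contra hu
    have h1 : (m - Finsupp.single u 1) + Finsupp.single u 1 = m :=
      Finsupp.sub_add_single_one_cancel hu
    have h2 := coeff_pderiv (i := u) q (m - Finsupp.single u 1)
    rw [h u, coeff_zero, h1] at h2
    rcases mul_eq_zero.1 h2.symm with h3 | h3
    · exact (mem_support_iff.1 hm) h3
    · exact absurd h3 (Nat.cast_add_one_ne_zero _)
  rw [h0]
  exact le_refl 0

theorem phi_injective (h10 : (1, 0) ∈ A) (h01 : (0, 1) ∈ A) (h11 : (1, 1) ∈ A) :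
    Function.Injective (phi h10 h01) := by
  classical
  rw [injective_iff_map_eq_zero]
  intro q
  induction hn : q.totalDegree using Nat.strong_induction_on generalizing q with
  | _ n ih =>
    intro hq
    have hH := hess_ne_zero h10 h01 h11
    have hne : i10 h10 ≠ i01 h01 := by
      intro h
      have := congrArg Subtype.val h
      simp [i10, i01] at this
    set x : Rg A := X (i10 h10) with hx
    set y : Rg A := X (i01 h01) with hy
    -- the values of the coefficients
    have hc10 : cco h10 h01 (i10 h10) = -dx (gco A) x y := if_pos rfl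
    have hc01 : cco h10 h01 (i01 h01) = -dy (gco A) x y := by
      unfold cco
      rw [if_neg hne.symm, if_pos rfl]
    have hcu : ∀ u, u ≠ i10 h10 → u ≠ i01 h01 → cco h10 h01 u = X u := by
      intro u h1 h2
      unfold cco
      rw [if_neg h1, if_neg h2]
    have hchain : ∀ j, 0 = ∑ u, phi h10 h01 (pderiv u q) * pderiv j (cco h10 h01 u) := by
      intro j
      have h1 := J1_chain (cco h10 h01) j q
      have h2 : aeval (cco h10 h01) q = 0 := hq
      rw [h2, map_zero] at h1
      exact h1
    have hx10 : pderiv (i10 h10) x = 1 := pderiv_X_self _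
    have hy10 : pderiv (i10 h10) y = 0 := pderiv_X_of_ne hne.symm
    have hx01 : pderiv (i01 h01) x = 0 := pderiv_X_of_ne hne
    have hy01 : pderiv (i01 h01) y = 1 := pderiv_X_self _
    have e1 : 0 = phi h10 h01 (pderiv (i10 h10) q) * (-dxx (gco A) x y) +
        phi h10 h01 (pderiv (i01 h01) q) * (-dxy (gco A) x y) := by
      have h1 := hchain (i10 h10)
      rw [Fintype.sum_eq_add (i10 h10) (i01 h01) hne] at h1
      · rw [hc10, hc01, map_neg, map_neg, J1_D_dx _ _ _ _ (J1_pderiv_gco _ (Or.inl rfl)),
          J1_D_dy _ _ _ _ (J1_pderiv_gco _ (Or.inl rfl)), hx10, hy10, mul_zero, mul_zero, mul_one,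
          mul_one, add_zero, add_zero] at h1
        exact h1
      · rintro u ⟨h2, h3⟩
        rw [hcu u h2 h3, pderiv_X_of_ne h2, mul_zero]
    have e2 : 0 = phi h10 h01 (pderiv (i10 h10) q) * (-dxy (gco A) x y) +
        phi h10 h01 (pderiv (i01 h01) q) * (-dyy (gco A) x y) := by
      have h1 := hchain (i01 h01)
      rw [Fintype.sum_eq_add (i10 h10) (i01 h01) hne] at h1
      · rw [hc10, hc01, map_neg, map_neg, J1_D_dx _ _ _ _ (J1_pderiv_gco _ (Or.inr rfl)),
          J1_D_dy _ _ _ _ (J1_pderiv_gco _ (Or.inr rfl)), hx01, hy01, mul_zero, mul_zero, mul_one,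
          mul_one, zero_add, zero_add] at h1
        exact h1
      · rintro u ⟨h2, h3⟩
        rw [hcu u h2 h3, pderiv_X_of_ne h3, mul_zero]
    have v10 : phi h10 h01 (pderiv (i10 h10) q) = 0 := by
      have h1 : hess (gco A) x y * phi h10 h01 (pderiv (i10 h10) q) = 0 := by
        unfold hess
        linear_combination (dyy (gco A) x y) * e1 - (dxy (gco A) x y) * e2
      exact (mul_eq_zero.1 h1).resolve_left hH
    have v01 : phi h10 h01 (pderiv (i01 h01) q) = 0 := by
      have h1 : hess (gco A) x y * phi h10 h01 (pderiv (i01 h01) q) = 0 := by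
        unfold hess
        linear_combination (dxx (gco A) x y) * e2 - (dxy (gco A) x y) * e1
      exact (mul_eq_zero.1 h1).resolve_left hH
    have vall : ∀ u, phi h10 h01 (pderiv u q) = 0 := by
      intro j
      by_cases hj1 : j = i10 h10
      · rw [hj1]; exact v10
      by_cases hj2 : j = i01 h01
      · rw [hj2]; exact v01
      have h1 := hchain j
      rw [Fintype.sum_eq_single j] at h1
      · rw [hcu j hj1 hj2, pderiv_X_self, mul_one] at h1
        exact h1.symm
      · intro u hu
        by_cases hu1 : u = i10 h10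
        · rw [hu1, v10, zero_mul]
        by_cases hu2 : u = i01 h01
        · rw [hu2, v01, zero_mul]
        rw [hcu u hu1 hu2, pderiv_X_of_ne hu, mul_zero]
    have hdeg : q.totalDegree = 0 := by
      by_contra hpos
      have hpos' : 0 < q.totalDegree := Nat.pos_of_ne_zero hpos
      exact hpos (J1_const q fun u =>
        ih _ (by rw [← hn]; exact J1_degree_lt q u hpos') _ rfl (vall u))
    rw [totalDegree_eq_zero_iff_eq_C] at hdeg
    rw [hdeg] at hq
    have h1 : phi h10 h01 (C (coeff 0 q)) = C (coeff 0 q) := by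
      change aeval (cco h10 h01) (C (coeff 0 q) : Rg A) = _
      rw [aeval_C]; rfl
    rw [h1] at hq
    rw [hdeg]
    exact hq

end FreyTor
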