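import Pool.Agent.Lib.MP_6babc4_nt.TF.J1

/-!
# TF/J2: `R'` is algebraic over `R`, and generated by `x, y`

PROOF. `cco : Idx A → Rg A` is algebraically independent over `ℤ` (`phi_injective`;
`algebraicIndependent_iff_injective_aeval`). The transcendence degree of `Rg A = MvPolynomial _ ℤ`
over `ℤ` is `#Idx A`, finite, so `cco` is a transcendence basis
(`AlgebraicIndependent.isTranscendenceBasis_of_lift_trdeg_le` or similar) and `Rg A` is algebraic
over `adjoin ℤ (range cco) = range φ` (`IsTranscendenceBasis.isAlgebraic`). Translate.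
Generation: `Rg A` is generated as a ring by the variables (`MvPolynomial.induction_on`): `X u` is
`φ (X u)` for `u ≠ i10, i01`.
-/

open MvPolynomial

namespace FreyTor

variable {A : Finset (ℕ × ℕ)}

theorem phi_algebraic (h10 : (1, 0) ∈ A) (h01 : (0, 1) ∈ A) (h11 : (1, 1) ∈ A) (z : Rg A) :
    ∃ q : Polynomial (Rg A), q ≠ 0 ∧ q.eval₂ (phi h10 h01) z = 0 := by
  have hind : AlgebraicIndependent ℤ (cco h10 h01) := by
    rw [algebraicIndependent_iff_injective_aeval]
    exact phi_injective h10 h01 h11
  have hle : Algebra.trdeg ℤ (Rg A) ≤ Cardinal.mk (Idx A) := by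
    rw [MvPolynomial.trdeg_of_isDomain, Cardinal.lift_id]
  have htb : IsTranscendenceBasis ℤ (cco h10 h01) :=
    hind.isTranscendenceBasis_of_trdeg_le_of_finite hle
  obtain ⟨q, hq0, hq⟩ := htb.isAlgebraic.isAlgebraic z
  have hinj : Function.Injective
      (hind.aevalEquiv.symm : Algebra.adjoin ℤ (Set.range (cco h10 h01)) →+* Rg A) :=
    hind.aevalEquiv.symm.injective
  refine ⟨q.map (hind.aevalEquiv.symm : Algebra.adjoin ℤ (Set.range (cco h10 h01)) →+* Rg A),
    ?_, ?_⟩
  · intro h
    apply hq0
    apply Polynomial.map_injective _ hinj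
    rw [h, Polynomial.map_zero]
  · rw [Polynomial.eval₂_map]
    have hcomp : (phi h10 h01).comp
        (hind.aevalEquiv.symm : Algebra.adjoin ℤ (Set.range (cco h10 h01)) →+* Rg A) =
        algebraMap (Algebra.adjoin ℤ (Set.range (cco h10 h01))) (Rg A) := by
      refine RingHom.ext fun a => ?_
      change aeval (cco h10 h01) (hind.aevalEquiv.symm a) =
        algebraMap (Algebra.adjoin ℤ (Set.range (cco h10 h01))) (Rg A) a
      rw [← hind.algebraMap_aevalEquiv, AlgEquiv.apply_symm_apply]
    rw [hcomp]
    exact hq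

open Classical in
theorem phi_generate (h10 : (1, 0) ∈ A) (h01 : (0, 1) ∈ A) (z : Rg A) :
    z ∈ Subring.closure (Set.range (phi h10 h01) ∪
      (({X (i10 h10), X (i01 h01)} : Finset (Rg A)) : Set (Rg A))) := by
  induction z using MvPolynomial.induction_on with
  | C a =>
    rw [eq_intCast (MvPolynomial.C : ℤ →+* Rg A) a]
    exact intCast_mem _ a
  | add p q hp hq => exact add_mem hp hq
  | mul_X p u hp =>
    refine mul_mem hp (Subring.subset_closure ?_)
    by_cases h1 : u = i10 h10
    · right
      rw [h1]
      simp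
    · by_cases h2 : u = i01 h01
      · right
        rw [h2]
        simp
      · left
        refine ⟨X u, ?_⟩
        change aeval (cco h10 h01) (X u) = X u
        rw [aeval_X]
        unfold cco
        rw [if_neg h1, if_neg h2]

end FreyTor
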