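import Pool.Agent.Lib.MP_6babc4_nt.TF.E1
import Pool.Agent.Lib.MP_6babc4_nt.TF.J2

/-!
# TF/U1: the universal polynomial of the critical values

PROOF. Apply `ext_lemma` to `φ = phi h10 h01` (`Rg A` is a domain and integrally closed, a UFD), the
two generators `x, y`, `θ = val (pencil (cco) 0) x y` and `δ = x * y * hess (gco A) x y`.
(i) Given a critical point `(x₀, y₀) ∈ k²` of the polynomial with coefficients `b`: let
`Ψ : Rg A →+* k` be `eval₂Hom (Int.castRingHom k)` of `u ↦ x₀` for `i10`, `y₀` for `i01`, `b u`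
otherwise. Then `Ψ ∘ φ = eval₂Hom _ b` (on `X i10`: `Ψ (-dx (gco) x y) = - dx (..) x₀ y₀ = b i10`
because `0 = dx (pencil b 0) x₀ y₀ = b i10 + dx (part of degree ≥ 2) x₀ y₀`), `Ψ θ = val (pencil b 0)
x₀ y₀`; apply `Ψ` to `P.eval₂ φ θ = 0`.
(ii) From `Ψ : Rg A →+* AlgebraicClosure k` with `Ψ ∘ φ = algebraMap ∘ ψ`, put `x₀ = Ψ x`,
`y₀ = Ψ y`: `dx (pencil b 0) x₀ y₀ = Ψ (dx (pencil cco 0) x y) = Ψ 0 = 0` etc. (`cco u = φ (X u)`, so
`Ψ (cco u) = algebraMap (b u)`), and `hess (pencil b 0) = hess` of the part of degree `≥ 2`.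
-/

open MvPolynomial

namespace FreyTor

universe w

variable {A : Finset (ℕ × ℕ)}

/-- The value at `-t` of the polynomial `P`, with its coefficients evaluated at `b`. -/
noncomputable def spec {k : Type*} [CommRing k] (P : Polynomial (Rg A)) (b : Idx A → k) :
    Polynomial k := P.map (eval₂Hom (Int.castRingHom k) b)

section Aux

variable {R : Type*} [CommRing R]

/-- the part of degree at least two -/
noncomputable def U1_part (b : Idx A → R) : A → R := fun w =>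
  if h : w.1 = (0, 0) ∨ w.1 = (1, 0) ∨ w.1 = (0, 1) then 0
  else b ⟨w.1, Finset.mem_erase.mpr ⟨fun h' => h (Or.inl h'), w.2⟩⟩

/-- the part of degree one -/
noncomputable def U1_lin (b : Idx A → R) : A → R := fun w =>
  if h : w.1 = (1, 0) ∨ w.1 = (0, 1) then
    b ⟨w.1, Finset.mem_erase.mpr ⟨fun h' => by rcases h with h | h <;> rw [h] at h' <;> simp at h',
      w.2⟩⟩
  else 0

lemma U1_split (b : Idx A → R) (w : A) :
    pencil (A := A) b 0 w = U1_lin b w + U1_part b w := by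
  unfold pencil U1_lin U1_part
  by_cases h0 : w.1 = (0, 0)
  · rw [dif_pos h0, dif_pos (Or.inl h0), dif_neg, add_zero]
    rw [h0]; simp
  · rw [dif_neg h0]
    by_cases h1 : w.1 = (1, 0) ∨ w.1 = (0, 1)
    · rw [dif_pos h1, dif_pos (Or.inr h1), add_zero]
    · rw [dif_neg h1, dif_neg, zero_add]
      rintro (h | h)
      · exact h0 h
      · exact h1 h

lemma U1_lin_10 (h10 : (1, 0) ∈ A) (b : Idx A → R) :
    U1_lin b ⟨(1, 0), h10⟩ = b (i10 h10) := by
  unfold U1_lin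
  rw [dif_pos (Or.inl rfl)]
  rfl

lemma U1_lin_01 (h01 : (0, 1) ∈ A) (b : Idx A → R) :
    U1_lin b ⟨(0, 1), h01⟩ = b (i01 h01) := by
  unfold U1_lin
  rw [dif_pos (Or.inr rfl)]
  rfl

lemma U1_sum_lin (h10 : (1, 0) ∈ A) (h01 : (0, 1) ∈ A) (b : Idx A → R) (f : A → R) :
    ∑ w : A, U1_lin b w * f w =
      b (i10 h10) * f ⟨(1, 0), h10⟩ + b (i01 h01) * f ⟨(0, 1), h01⟩ := by
  have hne : (⟨(1, 0), h10⟩ : A) ≠ ⟨(0, 1), h01⟩ := by
    intro h
    have := congrArg Subtype.val h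
    simp at this
  rw [← Finset.sum_subset (Finset.subset_univ {(⟨(1, 0), h10⟩ : A), ⟨(0, 1), h01⟩}),
    Finset.sum_pair hne, U1_lin_10, U1_lin_01]
  intro w _ hw
  unfold U1_lin
  rw [dif_neg, zero_mul]
  rintro (h | h)
  · exact hw (Finset.mem_insert.2 (Or.inl (Subtype.ext h)))
  · exact hw (Finset.mem_insert.2 (Or.inr (Finset.mem_singleton.2 (Subtype.ext h))))

lemma U1_dx (h10 : (1, 0) ∈ A) (h01 : (0, 1) ∈ A) (b : Idx A → R) (x y : R) :
    dx (pencil (A := A) b 0) x y = b (i10 h10) + dx (U1_part b) x y := by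
  unfold dx
  have h : ∀ w : A, pencil (A := A) b 0 w * ((w.1.1 : R) * x ^ (w.1.1 - 1)) * y ^ w.1.2 =
      U1_lin b w * (((w.1.1 : R) * x ^ (w.1.1 - 1)) * y ^ w.1.2) +
      U1_part b w * ((w.1.1 : R) * x ^ (w.1.1 - 1)) * y ^ w.1.2 := by
    intro w
    rw [U1_split]; ring
  rw [Finset.sum_congr rfl fun w _ => h w, Finset.sum_add_distrib,
    U1_sum_lin h10 h01 b fun w : A => ((w.1.1 : R) * x ^ (w.1.1 - 1)) * y ^ w.1.2]
  simp

lemma U1_dy (h10 : (1, 0) ∈ A) (h01 : (0, 1) ∈ A) (b : Idx A → R) (x y : R) :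
    dy (pencil (A := A) b 0) x y = b (i01 h01) + dy (U1_part b) x y := by
  unfold dy
  have h : ∀ w : A, pencil (A := A) b 0 w * x ^ w.1.1 * ((w.1.2 : R) * y ^ (w.1.2 - 1)) =
      U1_lin b w * (x ^ w.1.1 * ((w.1.2 : R) * y ^ (w.1.2 - 1))) +
      U1_part b w * x ^ w.1.1 * ((w.1.2 : R) * y ^ (w.1.2 - 1)) := by
    intro w
    rw [U1_split]; ring
  rw [Finset.sum_congr rfl fun w _ => h w, Finset.sum_add_distrib,
    U1_sum_lin h10 h01 b fun w : A => x ^ w.1.1 * ((w.1.2 : R) * y ^ (w.1.2 - 1))]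
  simp

lemma U1_dxx (h10 : (1, 0) ∈ A) (h01 : (0, 1) ∈ A) (b : Idx A → R) (x y : R) :
    dxx (pencil (A := A) b 0) x y = dxx (U1_part b) x y := by
  unfold dxx
  have h : ∀ w : A, pencil (A := A) b 0 w *
        ((w.1.1 : R) * ((w.1.1 - 1 : ℕ) : R) * x ^ (w.1.1 - 2)) * y ^ w.1.2 =
      U1_lin b w * (((w.1.1 : R) * ((w.1.1 - 1 : ℕ) : R) * x ^ (w.1.1 - 2)) * y ^ w.1.2) +
      U1_part b w * ((w.1.1 : R) * ((w.1.1 - 1 : ℕ) : R) * x ^ (w.1.1 - 2)) * y ^ w.1.2 := by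
    intro w
    rw [U1_split]; ring
  rw [Finset.sum_congr rfl fun w _ => h w, Finset.sum_add_distrib,
    U1_sum_lin h10 h01 b fun w : A =>
      ((w.1.1 : R) * ((w.1.1 - 1 : ℕ) : R) * x ^ (w.1.1 - 2)) * y ^ w.1.2]
  simp

lemma U1_dxy (h10 : (1, 0) ∈ A) (h01 : (0, 1) ∈ A) (b : Idx A → R) (x y : R) :
    dxy (pencil (A := A) b 0) x y = dxy (U1_part b) x y := by
  unfold dxy
  have h : ∀ w : A, pencil (A := A) b 0 w *
        ((w.1.1 : R) * x ^ (w.1.1 - 1)) * ((w.1.2 : R) * y ^ (w.1.2 - 1)) =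
      U1_lin b w * (((w.1.1 : R) * x ^ (w.1.1 - 1)) * ((w.1.2 : R) * y ^ (w.1.2 - 1))) +
      U1_part b w * ((w.1.1 : R) * x ^ (w.1.1 - 1)) * ((w.1.2 : R) * y ^ (w.1.2 - 1)) := by
    intro w
    rw [U1_split]; ring
  rw [Finset.sum_congr rfl fun w _ => h w, Finset.sum_add_distrib,
    U1_sum_lin h10 h01 b fun w : A =>
      ((w.1.1 : R) * x ^ (w.1.1 - 1)) * ((w.1.2 : R) * y ^ (w.1.2 - 1))]
  simp

lemma U1_dyy (h10 : (1, 0) ∈ A) (h01 : (0, 1) ∈ A) (b : Idx A → R) (x y : R) :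
    dyy (pencil (A := A) b 0) x y = dyy (U1_part b) x y := by
  unfold dyy
  have h : ∀ w : A, pencil (A := A) b 0 w * x ^ w.1.1 *
        ((w.1.2 : R) * ((w.1.2 - 1 : ℕ) : R) * y ^ (w.1.2 - 2)) =
      U1_lin b w * (x ^ w.1.1 * ((w.1.2 : R) * ((w.1.2 - 1 : ℕ) : R) * y ^ (w.1.2 - 2))) +
      U1_part b w * x ^ w.1.1 *
        ((w.1.2 : R) * ((w.1.2 - 1 : ℕ) : R) * y ^ (w.1.2 - 2)) := by
    intro w
    rw [U1_split]; ring
  rw [Finset.sum_congr rfl fun w _ => h w, Finset.sum_add_distrib,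
    U1_sum_lin h10 h01 b fun w : A =>
      x ^ w.1.1 * ((w.1.2 : R) * ((w.1.2 - 1 : ℕ) : R) * y ^ (w.1.2 - 2))]
  simp

lemma U1_hess (h10 : (1, 0) ∈ A) (h01 : (0, 1) ∈ A) (b : Idx A → R) (x y : R) :
    hess (pencil (A := A) b 0) x y = hess (U1_part b) x y := by
  unfold hess
  rw [U1_dxx h10 h01, U1_dxy h10 h01, U1_dyy h10 h01]

lemma U1_map_pencil {S : Type*} [CommRing S] (f : R →+* S) (b : Idx A → R) :
    (fun w => f (pencil (A := A) b 0 w)) = pencil (A := A) (fun u => f (b u)) 0 := by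
  funext w
  unfold pencil
  split_ifs
  · exact map_zero f
  · rfl

end Aux

lemma U1_i_ne (h10 : (1, 0) ∈ A) (h01 : (0, 1) ∈ A) : i01 h01 ≠ i10 h10 := by
  intro h
  have := congrArg Subtype.val h
  simp [i10, i01] at this

lemma U1_part_cco (h10 : (1, 0) ∈ A) (h01 : (0, 1) ∈ A) :
    U1_part (cco h10 h01) = gco A := by
  funext w
  unfold U1_part gco
  split_ifs with h
  · rfl
  · unfold cco
    rw [if_neg, if_neg]
    · intro h'
      exact h (Or.inr (Or.inr (congrArg Subtype.val h')))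
    · intro h'
      exact h (Or.inr (Or.inl (congrArg Subtype.val h')))

lemma U1_phi_X (h10 : (1, 0) ∈ A) (h01 : (0, 1) ∈ A) (u : Idx A) :
    phi h10 h01 (X u) = cco h10 h01 u := by
  unfold phi
  simp

lemma U1_dx_cco (h10 : (1, 0) ∈ A) (h01 : (0, 1) ∈ A) :
    dx (pencil (A := A) (cco h10 h01) 0) (X (i10 h10)) (X (i01 h01)) = 0 := by
  rw [U1_dx h10 h01, U1_part_cco]
  have : cco h10 h01 (i10 h10) = -dx (gco A) (X (i10 h10)) (X (i01 h01)) := by
    unfold cco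
    rw [if_pos rfl]
  rw [this]; ring

lemma U1_dy_cco (h10 : (1, 0) ∈ A) (h01 : (0, 1) ∈ A) :
    dy (pencil (A := A) (cco h10 h01) 0) (X (i10 h10)) (X (i01 h01)) = 0 := by
  rw [U1_dy h10 h01, U1_part_cco]
  have : cco h10 h01 (i01 h01) = -dy (gco A) (X (i10 h10)) (X (i01 h01)) := by
    unfold cco
    rw [if_neg (U1_i_ne h10 h01), if_pos rfl]
  rw [this]; ring

/-- the specialisation at a critical point -/
lemma U1_crit (h10 : (1, 0) ∈ A) (h01 : (0, 1) ∈ A) {k : Type*} [CommRing k] (b : Idx A → k)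
    (x y : k) (hx : dx (pencil (A := A) b 0) x y = 0) (hy : dy (pencil (A := A) b 0) x y = 0) :
    ∃ Ψ : Rg A →+* k, Ψ (X (i10 h10)) = x ∧ Ψ (X (i01 h01)) = y ∧
      ∀ r, Ψ (phi h10 h01 r) = eval₂Hom (Int.castRingHom k) b r := by
  classical
  set c : Idx A → k := fun u => if u = i10 h10 then x else if u = i01 h01 then y else b u with hc
  set Ψ : Rg A →+* k := eval₂Hom (Int.castRingHom k) c with hΨ
  have h1 : Ψ (X (i10 h10)) = x := by
    rw [hΨ, eval₂Hom_X', hc]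
    exact if_pos rfl
  have h2 : Ψ (X (i01 h01)) = y := by
    rw [hΨ, eval₂Hom_X', hc]
    beta_reduce
    rw [if_neg (U1_i_ne h10 h01), if_pos rfl]
  have h3 : (fun w => Ψ (gco A w)) = U1_part b := by
    funext w
    unfold gco U1_part
    split_ifs with h
    · exact map_zero Ψ
    · rw [hΨ, eval₂Hom_X', hc]
      beta_reduce
      rw [if_neg, if_neg]
      · intro h'
        exact h (Or.inr (Or.inr (congrArg Subtype.val h')))
      · intro h'
        exact h (Or.inr (Or.inl (congrArg Subtype.val h')))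
  have hcomp : Ψ.comp (phi h10 h01) = eval₂Hom (Int.castRingHom k) b := by
    refine MvPolynomial.ringHom_ext (fun z => ?_) fun u => ?_
    · simp
    · rw [RingHom.comp_apply, U1_phi_X, eval₂Hom_X']
      unfold cco
      split_ifs with hu hu'
      · rw [map_neg, map_dx, h1, h2, h3, hu]
        rw [U1_dx h10 h01] at hx
        linear_combination (-1 : k) * hx
      · rw [map_neg, map_dy, h1, h2, h3, hu']
        rw [U1_dy h10 h01] at hy
        linear_combination (-1 : k) * hy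
      · rw [hΨ, eval₂Hom_X', hc]
        beta_reduce
        rw [if_neg hu, if_neg hu']
  refine ⟨Ψ, h1, h2, fun r => ?_⟩
  rw [← hcomp]; rfl

theorem universal (h10 : (1, 0) ∈ A) (h01 : (0, 1) ∈ A) (h11 : (1, 1) ∈ A) :
    ∃ (h : Rg A) (P : Polynomial (Rg A)), h ≠ 0 ∧ 0 < P.natDegree ∧
      (∀ (k : Type w) [Field k] (b : Idx A → k) (x y : k), dx (pencil (A := A) b 0) x y = 0 →
        dy (pencil (A := A) b 0) x y = 0 → (spec P b).IsRoot (val (pencil (A := A) b 0) x y)) ∧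
      ∀ (k : Type w) [Field k] (b : Idx A → k), eval₂ (Int.castRingHom k) b h ≠ 0 →
        eval₂ (Int.castRingHom k) b P.leadingCoeff ≠ 0 ∧
        ∀ z : k, (spec P b).IsRoot z → ∃ x y : AlgebraicClosure k, x ≠ 0 ∧ y ≠ 0 ∧
          val (pencil (A := A) (fun u => algebraMap k (AlgebraicClosure k) (b u)) 0) x y =
            algebraMap k (AlgebraicClosure k) z ∧
          dx (pencil (A := A) (fun u => algebraMap k (AlgebraicClosure k) (b u)) 0) x y = 0 ∧
          dy (pencil (A := A) (fun u => algebraMap k (AlgebraicClosure k) (b u)) 0) x y = 0 ∧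
          hess (pencil (A := A) (fun u => algebraMap k (AlgebraicClosure k) (b u)) 0) x y ≠ 0 := by
  classical
  have hδ : (X (i10 h10) * X (i01 h01) * hess (gco A) (X (i10 h10)) (X (i01 h01)) : Rg A) ≠ 0 :=
    mul_ne_zero (mul_ne_zero (X_ne_zero _) (X_ne_zero _)) (hess_ne_zero h10 h01 h11)
  obtain ⟨h, P, hh, hP, hθ, hext⟩ := ext_lemma.{0, 0, w} (phi h10 h01) (phi_injective h10 h01 h11)
    (phi_algebraic h10 h01 h11) {X (i10 h10), X (i01 h01)}
    (fun z => phi_generate h10 h01 z)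
    (val (pencil (A := A) (cco h10 h01) 0) (X (i10 h10)) (X (i01 h01))) _ hδ
  refine ⟨h, P, hh, hP, ?_, ?_⟩
  · intro k _ b x y hx hy
    obtain ⟨Ψ, h1, h2, h3⟩ := U1_crit h10 h01 b x y hx hy
    have hcc : (fun u => Ψ (cco h10 h01 u)) = b := by
      funext u
      rw [← U1_phi_X, h3, eval₂Hom_X']
    have hθ' : Ψ (val (pencil (A := A) (cco h10 h01) 0) (X (i10 h10)) (X (i01 h01))) =
        val (pencil (A := A) b 0) x y := by
      rw [map_val, U1_map_pencil, hcc, h1, h2]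
    have h4 := congrArg Ψ hθ
    rw [Polynomial.hom_eval₂, map_zero, hθ'] at h4
    have hcomp : Ψ.comp (phi h10 h01) = eval₂Hom (Int.castRingHom k) b := RingHom.ext h3
    rw [hcomp] at h4
    unfold spec
    rw [Polynomial.IsRoot.def, Polynomial.eval_map]
    exact h4
  · intro k _ b hb
    have h5 := hext k (eval₂Hom (Int.castRingHom k) b) hb
    refine ⟨h5.1, fun z hz => ?_⟩
    obtain ⟨Ψ, hΨ, hΨθ, hΨδ⟩ := h5.2 z hz
    have hcc : (fun u => Ψ (cco h10 h01 u)) =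
        fun u => algebraMap k (AlgebraicClosure k) (b u) := by
      funext u
      rw [← U1_phi_X, hΨ, eval₂Hom_X']
    rw [map_mul, map_mul] at hΨδ
    refine ⟨Ψ (X (i10 h10)), Ψ (X (i01 h01)), left_ne_zero_of_mul (left_ne_zero_of_mul hΨδ),
      right_ne_zero_of_mul (left_ne_zero_of_mul hΨδ), ?_, ?_, ?_, ?_⟩
    · rw [← hcc, ← U1_map_pencil, ← map_val, hΨθ]
    · rw [← hcc, ← U1_map_pencil, ← map_dx, U1_dx_cco, map_zero]
    · rw [← hcc, ← U1_map_pencil, ← map_dy, U1_dy_cco, map_zero]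
    · rw [← hcc, ← U1_map_pencil, ← map_hess, U1_hess h10 h01, U1_part_cco]
      exact right_ne_zero_of_mul hΨδ

end FreyTor
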